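import Mathlib

/-! Differential forms and their pull-back. -/

namespace Pool.Agent.Hhelper18.DuBois

/-- The module `Ω^p_R` of Kähler `p`-forms of a `ℂ`-algebra `R`. -/
abbrev Forms (R : Type) [CommRing R] [Algebra ℂ R] (p : ℕ) : Type := ⋀[R]^p Ω[R⁄ℂ]

/-- The pull-back of `p`-forms along a homomorphism `f : R → S` of `ℂ`-algebras: it sends
`r • (D b₁ ∧ ⋯ ∧ D b_p)` to `f r • (D (f b₁) ∧ ⋯ ∧ D (f b_p))`. -/
noncomputable def Forms.map {R S : Type} [CommRing R] [CommRing S] [Algebra ℂ R] [Algebra ℂ S]
    (f : R →ₐ[ℂ] S) (p : ℕ) : Forms R p →+ Forms S p :=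
  letI : Algebra R S := f.toRingHom.toAlgebra
  haveI : IsScalarTower ℂ R S := IsScalarTower.of_algebraMap_eq (fun c => (f.commutes c).symm)
  (exteriorPower.alternatingMapLinearEquiv (R := R) (M := Ω[R⁄ℂ]) (N := Forms S p)
    { toFun := fun m => exteriorPower.ιMulti S p (fun j => KaehlerDifferential.map ℂ ℂ R S (m j))
      map_update_add' := by
        intro _ m i x y
        have h : ∀ z, (fun j => KaehlerDifferential.map ℂ ℂ R S (Function.update m i z j)) =
            Function.update (fun j => KaehlerDifferential.map ℂ ℂ R S (m j)) i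
              (KaehlerDifferential.map ℂ ℂ R S z) :=
          fun z => Function.comp_update (KaehlerDifferential.map ℂ ℂ R S) m i z
        rw [h, h, h, map_add, AlternatingMap.map_update_add]
      map_update_smul' := by
        intro _ m i c x
        have h : ∀ z, (fun j => KaehlerDifferential.map ℂ ℂ R S (Function.update m i z j)) =
            Function.update (fun j => KaehlerDifferential.map ℂ ℂ R S (m j)) i
              (KaehlerDifferential.map ℂ ℂ R S z) :=
          fun z => Function.comp_update (KaehlerDifferential.map ℂ ℂ R S) m i z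
        rw [h, h, map_smul, ← algebraMap_smul S c, AlternatingMap.map_update_smul,
          algebraMap_smul]
      map_eq_zero_of_eq' := by
        intro m i j h hij
        exact (exteriorPower.ιMulti S p).map_eq_zero_of_eq _ (by simp only [h]) hij }).toAddMonoidHom

end Pool.Agent.Hhelper18.DuBois
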