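import Mathlib

/-! Wedge and contraction on exterior powers. -/

namespace Pool.Agent.Hhelper18.DB

open ExteriorAlgebra

section Koszul

variable {R : Type*} [CommRing R] {M : Type*} [AddCommGroup M] [Module R M]

theorem wedge_mem (v : M) (p : ℕ) {x : ExteriorAlgebra R M} (hx : x ∈ ⋀[R]^p M) :
    ι R v * x ∈ ⋀[R]^(p + 1) M := by
  change ι R v * x ∈ LinearMap.range (ι R : M →ₗ[R] ExteriorAlgebra R M) ^ (p + 1)
  rw [pow_succ']
  exact Submodule.mul_mem_mul ⟨v, rfl⟩ hx

/-- `x ↦ v ∧ x`. -/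
noncomputable def wedge (v : M) (p : ℕ) : ⋀[R]^p M →ₗ[R] ⋀[R]^(p + 1) M where
  toFun x := ⟨ι R v * x.1, wedge_mem v p x.2⟩
  map_add' x y := by
    ext
    simp [mul_add]
  map_smul' c x := by
    ext
    simp

@[simp] theorem wedge_coe (v : M) (p : ℕ) (x : ⋀[R]^p M) :
    ((wedge v p x : ⋀[R]^(p + 1) M) : ExteriorAlgebra R M) = ι R v * x.1 := rfl

theorem contract_mem (ξ : Module.Dual R M) (p : ℕ) : ∀ {x : ExteriorAlgebra R M},
    x ∈ ⋀[R]^(p + 1) M → CliffordAlgebra.contractLeft ξ x ∈ ⋀[R]^p M := by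
  induction p with
  | zero =>
    intro x hx
    change x ∈ LinearMap.range (ι R : M →ₗ[R] ExteriorAlgebra R M) ^ (0 + 1) at hx
    rw [zero_add, pow_one] at hx
    obtain ⟨v, rfl⟩ := hx
    change _ ∈ LinearMap.range (ι R : M →ₗ[R] ExteriorAlgebra R M) ^ 0
    rw [pow_zero, CliffordAlgebra.contractLeft_ι]
    exact Submodule.algebraMap_mem _
  | succ p ih =>
    intro x hx
    change x ∈ LinearMap.range (ι R : M →ₗ[R] ExteriorAlgebra R M) ^ (p + 1 + 1) at hx
    rw [pow_succ'] at hx
    refine Submodule.mul_induction_on hx ?_ ?_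
    · rintro _ ⟨v, rfl⟩ y hy
      have hy' : y ∈ ⋀[R]^(p + 1) M := hy
      rw [CliffordAlgebra.contractLeft_ι_mul]
      exact Submodule.sub_mem _ (Submodule.smul_mem _ _ hy') (wedge_mem v p (ih hy'))
    · intro a b ha hb
      rw [map_add]
      exact Submodule.add_mem _ ha hb

/-- contraction with a linear form. -/
noncomputable def contr (ξ : Module.Dual R M) (p : ℕ) : ⋀[R]^(p + 1) M →ₗ[R] ⋀[R]^p M where
  toFun x := ⟨CliffordAlgebra.contractLeft ξ x.1, contract_mem ξ p x.2⟩
  map_add' x y := by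
    ext
    simp
  map_smul' c x := by
    ext
    simp

@[simp] theorem contr_coe (ξ : Module.Dual R M) (p : ℕ) (x : ⋀[R]^(p + 1) M) :
    ((contr ξ p x : ⋀[R]^p M) : ExteriorAlgebra R M) =
      CliffordAlgebra.contractLeft ξ x.1 := rfl

theorem contr_wedge_succ (ξ : Module.Dual R M) (v : M) (p : ℕ) (x : ⋀[R]^(p + 1) M) :
    contr ξ (p + 1) (wedge v (p + 1) x) = ξ v • x - wedge v p (contr ξ p x) := by
  ext
  simp only [contr_coe, wedge_coe, Submodule.coe_sub, Submodule.coe_smul]
  exact CliffordAlgebra.contractLeft_ι_mul ξ v _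

theorem contr_wedge_zero (ξ : Module.Dual R M) (v : M) (x : ⋀[R]^0 M) :
    contr ξ 0 (wedge v 0 x) = ξ v • x := by
  ext
  simp only [contr_coe, wedge_coe, Submodule.coe_smul]
  have h := CliffordAlgebra.contractLeft_ι_mul (Q := (0 : QuadraticForm R M)) (d := ξ) v x.1
  have hx : (x.1 : ExteriorAlgebra R M) ∈ LinearMap.range (ι R : M →ₗ[R] ExteriorAlgebra R M) ^ 0 :=
    x.2
  rw [pow_zero, Submodule.mem_one] at hx
  obtain ⟨r, hr⟩ := hx
  have h0 : CliffordAlgebra.contractLeft ξ x.1 = 0 := by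
    rw [← hr]
    exact CliffordAlgebra.contractLeft_algebraMap ..
  rw [h0, mul_zero, sub_zero] at h
  exact h

theorem wedge_wedge (v : M) (p : ℕ) (x : ⋀[R]^p M) : wedge v (p + 1) (wedge v p x) = 0 := by
  ext
  simp only [wedge_coe, ZeroMemClass.coe_zero]
  rw [← mul_assoc, ι_sq_zero, zero_mul]

variable {N : Type*} [AddCommGroup N] [Module R N]

theorem coe_map (f : M →ₗ[R] N) (p : ℕ) (x : ⋀[R]^p M) :
    ((exteriorPower.map p f x : ⋀[R]^p N) : ExteriorAlgebra R N) =
      ExteriorAlgebra.map f (x : ExteriorAlgebra R M) := by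
  have hx : x ∈ Submodule.span R (Set.range (exteriorPower.ιMulti R p (M := M))) := by
    rw [exteriorPower.ιMulti_span]; trivial
  induction hx using Submodule.span_induction with
  | mem x hx =>
    obtain ⟨m, rfl⟩ := hx
    rw [exteriorPower.map_apply_ιMulti, exteriorPower.ιMulti_apply_coe,
      exteriorPower.ιMulti_apply_coe, ExteriorAlgebra.map_apply_ιMulti]
  | zero => simp
  | add x y _ _ hx hy => rw [map_add, Submodule.coe_add, hx, hy, Submodule.coe_add, map_add]
  | smul c x _ hx => rw [map_smul, Submodule.coe_smul, hx, Submodule.coe_smul, map_smul]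

/-- the effect on exterior algebras of `id - ξ ⊗ v`. -/
theorem map_sub_smul (ξ : Module.Dual R M) (v : M) (lam : M →ₗ[R] M)
    (hlam : ∀ m, lam m = m - ξ m • v) (x : ExteriorAlgebra R M) :
    ExteriorAlgebra.map lam x = x - ι R v * CliffordAlgebra.contractLeft ξ x := by
  induction x using CliffordAlgebra.left_induction with
  | algebraMap r =>
    rw [AlgHom.commutes]
    have : CliffordAlgebra.contractLeft ξ
        (algebraMap R (CliffordAlgebra (0 : QuadraticForm R M)) r) = 0 :=
      CliffordAlgebra.contractLeft_algebraMap ..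
    rw [this, mul_zero, sub_zero]
  | add x y hx hy => rw [map_add, hx, hy, map_add, mul_add]; abel
  | ι_mul x m hx =>
    rw [map_mul, hx]
    have h1 : ExteriorAlgebra.map lam (CliffordAlgebra.ι 0 m) = ι R (lam m) :=
      ExteriorAlgebra.map_apply_ι lam m
    rw [h1, hlam, CliffordAlgebra.contractLeft_ι_mul, map_sub, map_smul]
    have h2 : ι R v * (ι R m * CliffordAlgebra.contractLeft ξ x) =
        - (ι R m * (ι R v * CliffordAlgebra.contractLeft ξ x)) := by
      rw [← mul_assoc, ← mul_assoc, ← neg_mul]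
      congr 1
      have := ι_add_mul_swap (R := R) v m
      exact eq_neg_of_add_eq_zero_left this
    have h3 : ι R v * (ι R v * CliffordAlgebra.contractLeft ξ x) = 0 := by
      rw [← mul_assoc, ι_sq_zero, zero_mul]
    have h4 : ι R v * (ξ m • x - CliffordAlgebra.ι 0 m * CliffordAlgebra.contractLeft ξ x) =
        ξ m • (ι R v * x) - ι R v * (ι R m * CliffordAlgebra.contractLeft ξ x) := by
      rw [mul_sub, mul_smul_comm]
    rw [h4, h2, sub_mul, mul_sub, smul_mul_assoc, mul_sub, h3]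
    abel

/-- On exterior powers. -/
theorem power_map_sub_smul (ξ : Module.Dual R M) (v : M) (lam : M →ₗ[R] M)
    (hlam : ∀ m, lam m = m - ξ m • v) (p : ℕ) (x : ⋀[R]^(p + 1) M) :
    exteriorPower.map (p + 1) lam x = x - wedge v p (contr ξ p x) := by
  ext
  rw [coe_map, map_sub_smul ξ v lam hlam]
  rfl

theorem power_map_zero_eq (lam : M →ₗ[R] M) (x : ⋀[R]^0 M) : exteriorPower.map 0 lam x = x := by
  ext
  rw [coe_map]
  have hx : (x.1 : ExteriorAlgebra R M) ∈ LinearMap.range (ι R : M →ₗ[R] ExteriorAlgebra R M) ^ 0 :=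
    x.2
  rw [pow_zero, Submodule.mem_one] at hx
  obtain ⟨r, hr⟩ := hx
  rw [← hr, AlgHom.commutes]

/-- Data expressing that `N` is the quotient of `M` by `v`, split by `ξ`. -/
structure SplitData (π : M →ₗ[R] N) (v : M) (ξ : Module.Dual R M) (Lam : N →ₗ[R] M) : Prop where
  πv : π v = 0
  ξv : ξ v = 1
  comp : ∀ m, Lam (π m) = m - ξ m • v

variable {π : M →ₗ[R] N} {v : M} {ξ : Module.Dual R M} {Lam : N →ₗ[R] M}

theorem SplitData.eq_wedge (h : SplitData π v ξ Lam) (p : ℕ) {x : ⋀[R]^(p + 1) M}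
    (hx : exteriorPower.map (p + 1) π x = 0) : x = wedge v p (contr ξ p x) := by
  have h1 := power_map_sub_smul ξ v (Lam ∘ₗ π) (fun m => h.comp m) p x
  rw [exteriorPower.map_comp, LinearMap.comp_apply, hx, map_zero] at h1
  exact (sub_eq_zero.1 h1.symm)

theorem SplitData.eq_zero (_h : SplitData π v ξ Lam) {x : ⋀[R]^0 M}
    (hx : exteriorPower.map 0 π x = 0) : x = 0 := by
  have h1 := power_map_zero_eq (Lam ∘ₗ π) x
  rw [exteriorPower.map_comp, LinearMap.comp_apply, hx, map_zero] at h1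
  exact h1.symm

theorem SplitData.map_wedge (h : SplitData π v ξ Lam) (p : ℕ) (x : ⋀[R]^p M) :
    exteriorPower.map (p + 1) π (wedge v p x) = 0 := by
  ext
  rw [coe_map, wedge_coe, map_mul]
  have : ExteriorAlgebra.map π (ι R v) = 0 := by
    rw [ExteriorAlgebra.map_apply_ι, h.πv, map_zero]
  rw [this, zero_mul]
  rfl

theorem SplitData.wedge_eq_zero_iff (h : SplitData π v ξ Lam) (p : ℕ) (x : ⋀[R]^p M) :
    wedge v p x = 0 ↔ exteriorPower.map p π x = 0 := by
  cases p with
  | zero =>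
    constructor
    · intro hx
      have h1 := contr_wedge_zero ξ v x
      rw [hx, map_zero, h.ξv, one_smul] at h1
      rw [← h1, map_zero]
    · intro hx
      rw [h.eq_zero hx, map_zero]
  | succ p =>
    constructor
    · intro hx
      have h1 := contr_wedge_succ ξ v p x
      rw [hx, map_zero, h.ξv, one_smul] at h1
      have h2 : x = wedge v p (contr ξ p x) := (sub_eq_zero.1 h1.symm)
      rw [h2, h.map_wedge]
    · intro hx
      rw [h.eq_wedge p hx, wedge_wedge]

end Koszul

end Pool.Agent.Hhelper18.DB
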