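import Mathlib
import Pool.Agent.Hhelper18.DB.FormsDef
import Pool.Agent.Hhelper18.DB.Koszul

/-! Basic lemmas on pull-back of forms. -/

namespace Pool.Agent.Hhelper18.DuBois

open KaehlerDifferential Pool.Agent.Hhelper18.DB

section

variable {R : Type} [CommRing R]

theorem wedge_ιMulti {p : ℕ} {M : Type} [AddCommGroup M] [Module R M] (m : Fin (p + 1) → M) :
    exteriorPower.ιMulti R (p + 1) m =
      wedge (m 0) p (exteriorPower.ιMulti R p (fun j => m j.succ)) := by
  ext
  rw [wedge_coe, exteriorPower.ιMulti_apply_coe, exteriorPower.ιMulti_apply_coe,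
    ExteriorAlgebra.ιMulti_succ_apply]
  rfl

/-- wedge is additive in the vector. -/
theorem wedge_add_left {M : Type} [AddCommGroup M] [Module R M] {p : ℕ} (v w : M) (x : ⋀[R]^p M) :
    wedge (v + w) p x = wedge v p x + wedge w p x := by
  ext
  rw [wedge_coe, Submodule.coe_add, wedge_coe, wedge_coe, map_add, add_mul]

theorem wedge_smul_left {M : Type} [AddCommGroup M] [Module R M] {p : ℕ} (c : R) (v : M)
    (x : ⋀[R]^p M) : wedge (c • v) p x = c • wedge v p x := by
  ext
  rw [wedge_coe, Submodule.coe_smul, wedge_coe, map_smul, smul_mul_assoc]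

theorem wedge_zero_left {M : Type} [AddCommGroup M] [Module R M] {p : ℕ} (x : ⋀[R]^p M) :
    wedge (0 : M) p x = 0 := by
  ext
  rw [wedge_coe, map_zero, zero_mul]
  rfl

theorem wedge_swap {M : Type} [AddCommGroup M] [Module R M] {p : ℕ} (v w : M) (x : ⋀[R]^p M) :
    wedge v (p + 1) (wedge w p x) = - wedge w (p + 1) (wedge v p x) := by
  ext
  rw [Submodule.coe_neg, wedge_coe, wedge_coe, wedge_coe, wedge_coe, ← mul_assoc, ← mul_assoc,
    ← neg_mul]
  congr 1
  exact eq_neg_of_add_eq_zero_left (ExteriorAlgebra.ι_add_mul_swap (R := R) v w)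

end

section

variable {R S T : Type} [CommRing R] [CommRing S] [CommRing T] [Algebra ℂ R] [Algebra ℂ S]
  [Algebra ℂ T]

/-- The form `D b₁ ∧ ⋯ ∧ D b_p`. -/
noncomputable def fm (R : Type) [CommRing R] [Algebra ℂ R] {p : ℕ} (b : Fin p → R) : Forms R p :=
  exteriorPower.ιMulti R p (fun j => D ℂ R (b j))

theorem Forms.map_ιMulti_aux (f : R →ₐ[ℂ] S) {p : ℕ} (m : Fin p → Ω[R⁄ℂ]) :
    letI : Algebra R S := f.toRingHom.toAlgebra
    haveI : IsScalarTower ℂ R S := IsScalarTower.of_algebraMap_eq (fun c => (f.commutes c).symm)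
    Forms.map f p (exteriorPower.ιMulti R p m) =
      exteriorPower.ιMulti S p (fun j => KaehlerDifferential.map ℂ ℂ R S (m j)) := by
  let : Algebra R S := f.toRingHom.toAlgebra
  have : IsScalarTower ℂ R S := IsScalarTower.of_algebraMap_eq (fun c => (f.commutes c).symm)
  exact exteriorPower.alternatingMapLinearEquiv_apply_ιMulti (R := R) (M := Ω[R⁄ℂ])
    (N := Forms S p) _ _

theorem Forms.map_smul (f : R →ₐ[ℂ] S) {p : ℕ} (r : R) (ω : Forms R p) :
    Forms.map f p (r • ω) = f r • Forms.map f p ω := by
  let : Algebra R S := f.toRingHom.toAlgebra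
  have : IsScalarTower ℂ R S := IsScalarTower.of_algebraMap_eq (fun c => (f.commutes c).symm)
  have h : Forms.map f p (r • ω) = r • Forms.map f p ω :=
    LinearMap.map_smul (exteriorPower.alternatingMapLinearEquiv (R := R) (M := Ω[R⁄ℂ])
      (N := Forms S p) _) r ω
  rw [h, ← algebraMap_smul S r]
  rfl

theorem Forms.map_fm (f : R →ₐ[ℂ] S) {p : ℕ} (b : Fin p → R) :
    Forms.map f p (fm R b) = fm S (fun j => f (b j)) := by
  let : Algebra R S := f.toRingHom.toAlgebra
  have : IsScalarTower ℂ R S := IsScalarTower.of_algebraMap_eq (fun c => (f.commutes c).symm)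
  refine (Forms.map_ιMulti_aux f _).trans ?_
  rw [fm]
  congr 1
  funext j
  exact KaehlerDifferential.map_D ℂ ℂ R S (b j)

theorem fm_succ {p : ℕ} (b : Fin (p + 1) → R) :
    fm R b = wedge (D ℂ R (b 0)) p (fm R (fun j => b j.succ)) := wedge_ιMulti _

theorem wedge_fm {p : ℕ} (c : R) (b : Fin p → R) :
    wedge (D ℂ R c) p (fm R b) = fm R (Fin.cons c b : Fin (p + 1) → R) := by
  rw [fm_succ]
  simp

/-- The forms `r • fm b` generate. -/
theorem Forms.induction {p : ℕ} {motive : Forms R p → Prop} (h0 : motive 0)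
    (hadd : ∀ x y, motive x → motive y → motive (x + y))
    (hgen : ∀ (r : R) (b : Fin p → R), motive (r • fm R b)) (ω : Forms R p) : motive ω := by
  have key : ∀ p : ℕ, Submodule.span R (Set.range (fm R (p := p))) = ⊤ := by
    intro p
    induction p with
    | zero =>
      rw [eq_top_iff, ← exteriorPower.ιMulti_span R 0 Ω[R⁄ℂ], Submodule.span_le]
      rintro _ ⟨m, rfl⟩
      refine Submodule.subset_span ⟨Fin.elim0, ?_⟩
      rw [fm]
      congr 1
      funext j
      exact j.elim0
    | succ p ih =>
      rw [eq_top_iff, ← exteriorPower.ιMulti_span R (p + 1) Ω[R⁄ℂ], Submodule.span_le]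
      rintro _ ⟨m, rfl⟩
      rw [wedge_ιMulti]
      have h1 : ∀ x : Forms R p, ∀ v : Ω[R⁄ℂ],
          wedge v p x ∈ Submodule.span R (Set.range (fm R (p := p + 1))) := by
        intro x v
        have hx : x ∈ Submodule.span R (Set.range (fm R (p := p))) := by rw [ih]; trivial
        have hv : v ∈ Submodule.span R (Set.range (D ℂ R)) := by
          rw [KaehlerDifferential.span_range_derivation]; trivial
        induction hx using Submodule.span_induction with
        | mem x hx =>
          obtain ⟨b, rfl⟩ := hx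
          induction hv using Submodule.span_induction with
          | mem v hv =>
            obtain ⟨c, rfl⟩ := hv
            rw [wedge_fm]
            exact Submodule.subset_span ⟨_, rfl⟩
          | zero => rw [wedge_zero_left]; exact Submodule.zero_mem _
          | add v w _ _ hv hw => rw [wedge_add_left]; exact Submodule.add_mem _ hv hw
          | smul c v _ hv => rw [wedge_smul_left]; exact Submodule.smul_mem _ _ hv
        | zero => rw [map_zero]; exact Submodule.zero_mem _
        | add x y _ _ hx hy => rw [map_add]; exact Submodule.add_mem _ hx hy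
        | smul c x _ hx => rw [LinearMap.map_smul]; exact Submodule.smul_mem _ _ hx
      exact h1 _ _
  have hω : ω ∈ Submodule.span R (Set.range (fm R (p := p))) := by rw [key]; trivial
  have : ∀ ω : Forms R p, ω ∈ Submodule.span R (Set.range (fm R (p := p))) →
      ∀ r : R, motive (r • ω) := by
    intro ω hω
    induction hω using Submodule.span_induction with
    | mem x hx => obtain ⟨b, rfl⟩ := hx; exact fun r => hgen r b
    | zero => intro r; rw [smul_zero]; exact h0
    | add x y _ _ hx hy => intro r; rw [smul_add]; exact hadd _ _ (hx r) (hy r)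
    | smul c x _ hx => intro r; rw [smul_smul]; exact hx _
  have := this ω hω 1
  rwa [one_smul] at this

theorem Forms.map_comp (g : S →ₐ[ℂ] T) (f : R →ₐ[ℂ] S) {p : ℕ} (ω : Forms R p) :
    Forms.map (g.comp f) p ω = Forms.map g p (Forms.map f p ω) := by
  refine Forms.induction (motive := fun ω => Forms.map (g.comp f) p ω =
    Forms.map g p (Forms.map f p ω)) ?_ ?_ ?_ ω
  · simp only [map_zero]
  · intro x y hx hy
    simp only [map_add, hx, hy]
  · intro r b
    rw [Forms.map_smul, Forms.map_smul, Forms.map_smul, Forms.map_fm, Forms.map_fm, Forms.map_fm]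
    rfl

theorem Forms.map_surjective (f : R →ₐ[ℂ] S) (hf : Function.Surjective f) (p : ℕ) :
    Function.Surjective (Forms.map f p) := by
  intro ω
  refine Forms.induction (motive := fun ω => ∃ η, Forms.map f p η = ω) ?_ ?_ ?_ ω
  · exact ⟨0, map_zero _⟩
  · rintro _ _ ⟨x, rfl⟩ ⟨y, rfl⟩
    exact ⟨x + y, map_add _ _ _⟩
  · intro r b
    obtain ⟨r', rfl⟩ := hf r
    choose b' hb' using fun j => hf (b j)
    refine ⟨r' • fm R b', ?_⟩
    rw [Forms.map_smul, Forms.map_fm]
    congr 2
    funext j
    exact hb' j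

theorem Forms.map_wedge (f : R →ₐ[ℂ] S) {p : ℕ} (c : R) (ω : Forms R p) :
    Forms.map f (p + 1) (wedge (D ℂ R c) p ω) = wedge (D ℂ S (f c)) p (Forms.map f p ω) := by
  refine Forms.induction (motive := fun ω => Forms.map f (p + 1) (wedge (D ℂ R c) p ω) =
    wedge (D ℂ S (f c)) p (Forms.map f p ω)) ?_ ?_ ?_ ω
  · simp only [map_zero]
  · intro x y hx hy
    simp only [map_add, hx, hy]
  · intro r b
    rw [LinearMap.map_smul, Forms.map_smul, Forms.map_smul, LinearMap.map_smul, wedge_fm,
      Forms.map_fm, Forms.map_fm, wedge_fm]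
    congr 2
    funext j
    refine Fin.cases ?_ (fun j => ?_) j <;> simp

end

end Pool.Agent.Hhelper18.DuBois
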