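import Mathlib
import Pool.Agent.Hhelper18.DB.FormsLemmas

/-! Differential forms, resolution squares (cubical hyperresolutions `Z ← E → X'` of an affine
variety `X`), and the Du Bois complexes of `X`. -/

namespace Pool.Agent.Hhelper18.Hyper

open AlgebraicGeometry CategoryTheory

/-! ### Differential forms -/

/-- A commutative `ℂ`-algebra. -/
structure Alg where
  /-- the underlying type -/
  carrier : Type
  [ring : CommRing carrier]
  [algebra : Algebra ℂ carrier]

attribute [instance] Alg.ring Alg.algebra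

/-- The module `Ω_{R/ℂ}` of Kähler differentials. -/
def Om (R : Alg) : Type := Ω[R.carrier⁄ℂ]

noncomputable instance addCommGroupOm (R : Alg) : AddCommGroup (Om R) :=
  instAddCommGroupKaehlerDifferential ℂ R.carrier

noncomputable instance moduleOm (R : Alg) : Module R.carrier (Om R) :=
  instModuleKaehlerDifferentialOfSMulCommClass ℂ R.carrier

/-- The universal derivation. -/
noncomputable def Om.der {R : Alg} (b : R.carrier) : Om R := KaehlerDifferential.D ℂ R.carrier b

/-- The exterior algebra of `Ω_{R/ℂ}` over `R`. -/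
def Ext (R : Alg) : Type := ExteriorAlgebra R.carrier (Om R)

noncomputable instance ringExt (R : Alg) : Ring (Ext R) := CliffordAlgebra.instRing _

noncomputable instance algebraExt (R : Alg) : Algebra R.carrier (Ext R) :=
  CliffordAlgebra.instAlgebra _

/-- The inclusion of `Ω_{R/ℂ}` in its exterior algebra. -/
noncomputable def Ext.inc {R : Alg} (m : Om R) : Ext R := ExteriorAlgebra.ι R.carrier m

/-- The exterior power `⋀^p Ω_{R/ℂ}` over `R`, as a submodule of the exterior algebra. -/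
noncomputable def Ext.pow (R : Alg) (p : ℕ) : Submodule R.carrier (Ext R) := ⋀[R.carrier]^p (Om R)

/-- The module `Ω^p_R = ⋀^p Ω_{R/ℂ}` of Kähler `p`-forms of a `ℂ`-algebra `R`. -/
def Forms (R : Alg) (p : ℕ) : Type := Ext.pow R p

noncomputable instance addCommGroupForms (R : Alg) (p : ℕ) : AddCommGroup (Forms R p) :=
  Submodule.addCommGroup (Ext.pow R p)

noncomputable instance moduleForms (R : Alg) (p : ℕ) : Module R.carrier (Forms R p) :=
  Submodule.module (Ext.pow R p)

theorem Ext.prod_mem {R : Alg} {p : ℕ} (m : Fin p → Om R) :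
    (List.ofFn (fun j => Ext.inc (m j))).prod ∈ Ext.pow R p :=
  (exteriorPower.ιMulti R.carrier p m).2

/-- The form `m₁ ∧ ⋯ ∧ m_p`. -/
noncomputable def Forms.wedge {R : Alg} {p : ℕ} (m : Fin p → Om R) : Forms R p :=
  ⟨(List.ofFn (fun j => Ext.inc (m j))).prod, Ext.prod_mem m⟩

/-- The form `r • (D b₁ ∧ ⋯ ∧ D b_p)`. -/
noncomputable def form {R : Alg} {p : ℕ} (r : R.carrier) (b : Fin p → R.carrier) : Forms R p :=
  r • Forms.wedge (fun j => Om.der (b j))

theorem exists_pull {R S : Alg} (f : R.carrier →ₐ[ℂ] S.carrier) (p : ℕ) :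
    ∃ F : Forms R p →+ Forms S p, ∀ (r : R.carrier) (b : Fin p → R.carrier),
      F (form r b) = form (f r) (fun j => f (b j)) :=
  ⟨DuBois.Forms.map f p, fun r b => (DuBois.Forms.map_smul f r _).trans
    (congrArg (fun ω : ⋀[S.carrier]^p Ω[S.carrier⁄ℂ] => f r • ω) (DuBois.Forms.map_fm f b))⟩

/-- The pull-back of `p`-forms along a homomorphism `f : R → S` of `ℂ`-algebras: the additive map
with `r • (D b₁ ∧ ⋯ ∧ D b_p) ↦ f r • (D (f b₁) ∧ ⋯ ∧ D (f b_p))` (these elements generate
`Forms R p` as a group, so there is only one such map). -/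
noncomputable def pull {R S : Alg} (f : R.carrier →ₐ[ℂ] S.carrier) (p : ℕ) :
    Forms R p →+ Forms S p :=
  (exists_pull f p).choose

theorem pull_eq {R S : Alg} (f : R.carrier →ₐ[ℂ] S.carrier) (p : ℕ) (ω : Forms R p) :
    pull f p ω = DuBois.Forms.map f p ω := by
  refine DuBois.Forms.induction (motive := fun ω : ⋀[R.carrier]^p Ω[R.carrier⁄ℂ] =>
    pull f p ω = DuBois.Forms.map f p ω) ?_ ?_ ?_ ω
  · rw [map_zero]
    exact map_zero (pull f p)
  · intro x y hx hy
    rw [map_add, ← hx, ← hy]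
    exact map_add (pull f p) x y
  · intro r b
    rw [DuBois.Forms.map_smul, DuBois.Forms.map_fm]
    exact (exists_pull f p).choose_spec r b

/-! ### Sections -/

/-- The ring `Γ(X, V)`. -/
noncomputable def Gam (X : Scheme.{0}) (V : X.Opens) : CommRingCat.{0} := Γ(X, V)

/-- Restriction of sections. -/
noncomputable def Gam.res (X : Scheme.{0}) {V W : X.Opens} (h : W ≤ V) : Gam X V ⟶ Gam X W :=
  X.presheaf.map (homOfLE h).op

/-- Pull-back of global sections. -/
noncomputable def Gam.top {X Y : Scheme.{0}} (f : X ⟶ Y) : Gam Y ⊤ ⟶ Gam X ⊤ := f.appTop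

/-- The isomorphism `A → Γ(Spec A, ⊤)`. -/
noncomputable def Gam.spec (A : CommRingCat.{0}) : A ⟶ Gam (Spec A) ⊤ :=
  (Scheme.ΓSpecIso A).inv

section Sections

variable {A : Type} [CommRing A] {X' : Scheme.{0}} (π : X' ⟶ Spec (CommRingCat.of A))

/-- The ring of sections `Γ(X', V)`, considered as an `A`-algebra through `π : X' → Spec A`. -/
def Sec (_π : X' ⟶ Spec (CommRingCat.of A)) (V : X'.Opens) : Type := Gam X' V

noncomputable instance commRingSec (V : X'.Opens) : CommRing (Sec π V) := (Gam X' V).commRing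

/-- The structure map `A → Γ(X', V)`. -/
noncomputable def Sec.hom (V : X'.Opens) : A →+* Sec π V :=
  (Gam.spec (CommRingCat.of A) ≫ Gam.top π ≫ Gam.res X' le_top).hom

/-- Restriction of sections. -/
noncomputable def Sec.res {V W : X'.Opens} (h : W ≤ V) : Sec π V →+* Sec π W :=
  (Gam.res X' h).hom

theorem Sec.res_hom {V W : X'.Opens} (h : W ≤ V) (a : A) :
    Sec.res π h (Sec.hom π V a) = Sec.hom π W a := by
  change (((Scheme.ΓSpecIso (CommRingCat.of A)).inv ≫ π.appTop ≫
      X'.presheaf.map (homOfLE (le_top : V ≤ ⊤)).op) ≫ X'.presheaf.map (homOfLE h).op).hom a = _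
  rw [Category.assoc, Category.assoc, ← X'.presheaf.map_comp]
  rfl

variable (J : Ideal A)

/-- The ideal `J Γ(X', V)` of the closed subscheme `E = π⁻¹(V(J))`. -/
noncomputable def idealE (V : X'.Opens) : Ideal (Sec π V) := J.map (Sec.hom π V)

/-- The ring of functions `Γ(X', V) / J Γ(X', V)` on the part over `V` of the closed subscheme
`E = π⁻¹(V(J))`. -/
def SecE (V : X'.Opens) : Type := Sec π V ⧸ idealE π J V

noncomputable instance commRingSecE (V : X'.Opens) : CommRing (SecE π J V) :=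
  Ideal.Quotient.commRing (idealE π J V)

theorem idealE_le {V W : X'.Opens} (h : W ≤ V) :
    idealE π J V ≤ (idealE π J W).comap (Sec.res π h) := by
  rw [idealE, Ideal.map_le_iff_le_comap]
  intro a ha
  rw [Ideal.mem_comap, Ideal.mem_comap, Sec.res_hom]
  exact Ideal.mem_map_of_mem _ ha

theorem le_idealE (V : X'.Opens) : J ≤ (idealE π J V).comap (Sec.hom π V) := Ideal.le_comap_map

variable [Algebra ℂ A]

noncomputable instance algebraSec (V : X'.Opens) : Algebra ℂ (Sec π V) :=
  ((Sec.hom π V).comp (algebraMap ℂ A)).toAlgebra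

noncomputable instance algebraSecE (V : X'.Opens) : Algebra ℂ (SecE π J V) :=
  Ideal.Quotient.algebra ℂ

/-- Restriction of sections, as a homomorphism of `ℂ`-algebras. -/
noncomputable def Sec.resAlg {V W : X'.Opens} (h : W ≤ V) : Sec π V →ₐ[ℂ] Sec π W :=
  AlgHom.mk (Sec.res π h) (fun c => Sec.res_hom π h (algebraMap ℂ A c))

/-- Restriction of functions on `E`. -/
noncomputable def SecE.resAlg {V W : X'.Opens} (h : W ≤ V) : SecE π J V →ₐ[ℂ] SecE π J W :=
  Ideal.quotientMapₐ (idealE π J W) (Sec.resAlg π h) (idealE_le π J h)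

/-- Restriction of functions from `X'` to `E`. -/
noncomputable def SecE.mkAlg (V : X'.Opens) : Sec π V →ₐ[ℂ] SecE π J V :=
  Ideal.Quotient.mkₐ ℂ (idealE π J V)

/-- The structure map `A → Γ(X', V)`, as a homomorphism of `ℂ`-algebras. -/
noncomputable def Sec.homAlg (V : X'.Opens) : A →ₐ[ℂ] Sec π V :=
  AlgHom.mk (Sec.hom π V) (fun _ => rfl)

/-- The map `A / J → Γ(X', V) / J Γ(X', V)`, the pull-back of functions along `E → V(J)`. -/
noncomputable def SecE.pullAlg (V : X'.Opens) : A ⧸ J →ₐ[ℂ] SecE π J V :=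
  Ideal.quotientMapₐ (idealE π J V) (Sec.homAlg π V) (le_idealE π J V)

end Sections

/-! ### Resolution squares -/

/-- A resolution square over `X = Spec A`: a closed subscheme `Z = V(J)`, smooth over `ℂ`; a proper
morphism `π : X' → X`, with `X'` smooth over `ℂ`, that is an isomorphism over `X ∖ Z`; with
`E = π⁻¹(Z)` smooth over `ℂ`; and a finite covering of `X'` by affine open sets `U i`. -/
structure Square (A : Type) [CommRing A] [Algebra ℂ A] where
  /-- the ideal of `Z` -/
  J : Ideal A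
  /-- the scheme `X'` -/
  X' : Scheme.{0}
  /-- the morphism `X' → X` -/
  π : X' ⟶ Spec (CommRingCat.of A)
  /-- the index set of the covering -/
  ι : Type
  /-- the covering -/
  U : ι → X'.Opens
  proper : IsProper π
  iso : ∀ a ∈ J, IsIso (π ∣_ (PrimeSpectrum.basicOpen a))
  finite : Finite ι
  affine : ∀ i, IsAffineOpen (U i)
  cover : ⨆ i, U i = ⊤
  smoothX' : ∀ i, Algebra.Smooth ℂ (Sec π (U i))
  smoothZ : Algebra.Smooth ℂ (A ⧸ J)
  smoothE : ∀ i, Algebra.Smooth ℂ (SecE π J (U i))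

namespace Square

variable {A : Type} [CommRing A] [Algebra ℂ A] (Q : Square A)

/-- The simplex `s` without its `k`-th vertex. -/
def face {n : ℕ} (s : Fin (n + 2) → Q.ι) (k : Fin (n + 2)) : Fin (n + 1) → Q.ι := s ∘ k.succAbove

/-- The intersection `U_s = U_{s 0} ∩ ⋯ ∩ U_{s n}`. -/
def inter {n : ℕ} (s : Fin (n + 1) → Q.ι) : Q.X'.Opens := ⨅ k, Q.U (s k)

theorem inter_le {n : ℕ} (s : Fin (n + 2) → Q.ι) (k : Fin (n + 2)) :
    Q.inter s ≤ Q.inter (Q.face s k) := le_iInf (fun j => iInf_le _ (k.succAbove j))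

/-- The algebra `Γ(X', U_s)`. -/
noncomputable def OX {n : ℕ} (s : Fin (n + 1) → Q.ι) : Alg := Alg.mk (Sec Q.π (Q.inter s))

/-- The algebra of functions on `E ∩ U_s`. -/
noncomputable def OE {n : ℕ} (s : Fin (n + 1) → Q.ι) : Alg := Alg.mk (SecE Q.π Q.J (Q.inter s))

/-- The algebra of functions on `Z`. -/
noncomputable def OZ : Alg := Alg.mk (A ⧸ Q.J)

variable (p : ℕ)

/-- Pull-back of forms from `U_t` to `U_s`, where `t` is `s` without its `k`-th vertex. -/
noncomputable def rX {n : ℕ} (s : Fin (n + 2) → Q.ι) (k : Fin (n + 2)) :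
    Forms (Q.OX (Q.face s k)) p →+ Forms (Q.OX s) p :=
  pull (Sec.resAlg Q.π (Q.inter_le s k)) p

/-- Pull-back of forms from `E ∩ U_t` to `E ∩ U_s`. -/
noncomputable def rE {n : ℕ} (s : Fin (n + 2) → Q.ι) (k : Fin (n + 2)) :
    Forms (Q.OE (Q.face s k)) p →+ Forms (Q.OE s) p :=
  pull (SecE.resAlg Q.π Q.J (Q.inter_le s k)) p

/-- Pull-back of forms from `U_s` to `E ∩ U_s`. -/
noncomputable def toE {n : ℕ} (s : Fin (n + 1) → Q.ι) : Forms (Q.OX s) p →+ Forms (Q.OE s) p :=
  pull (SecE.mkAlg Q.π Q.J (Q.inter s)) p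

/-- Pull-back of forms from `Z` to `E ∩ U_s`. -/
noncomputable def ofZ {n : ℕ} (s : Fin (n + 1) → Q.ι) : Forms Q.OZ p →+ Forms (Q.OE s) p :=
  pull (SecE.pullAlg Q.π Q.J (Q.inter s)) p

/-- Čech cochains of degree `n` of `Ω^p_{X'}`. -/
abbrev CX (n : ℕ) : Type := ∀ s : Fin (n + 1) → Q.ι, Forms (Q.OX s) p

/-- Čech cochains of degree `n` of `Ω^p_E`. -/
abbrev CE (n : ℕ) : Type := ∀ s : Fin (n + 1) → Q.ι, Forms (Q.OE s) p

/-- The Čech differential for `X'`. -/
noncomputable def dX (n : ℕ) (φ : Q.CX p n) : Q.CX p (n + 1) := fun s =>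
  ∑ k : Fin (n + 2), (-1 : ℤ) ^ (k : ℕ) • Q.rX p s k (φ (Q.face s k))

/-- The Čech differential for `E`. -/
noncomputable def dE (n : ℕ) (ψ : Q.CE p n) : Q.CE p (n + 1) := fun s =>
  ∑ k : Fin (n + 2), (-1 : ℤ) ^ (k : ℕ) • Q.rE p s k (ψ (Q.face s k))

/-- Restriction of cochains from `X'` to `E`. -/
noncomputable def resE (n : ℕ) (φ : Q.CX p n) : Q.CE p n := fun s => Q.toE p s (φ s)

/-- Pull-back of forms from `Z` to `E`. -/
noncomputable def pullZ (ω : Forms Q.OZ p) : Q.CE p 0 := fun s => Q.ofZ p s ω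

/-- The terms of the complex `K` that computes the `p`-th Du Bois complex of `X`: it is the total
complex of `Č(X', Ω^p) ⊕ Ω^p_Z → Č(E, Ω^p)`. -/
def K : ℕ → Type
  | 0 => Q.CX p 0 × Forms Q.OZ p
  | n + 1 => Q.CX p (n + 1) × Q.CE p n

/-- The differential of the complex `K`. -/
noncomputable def d : ∀ n : ℕ, Q.K p n → Q.K p (n + 1)
  | 0 => fun x => (Q.dX p 0 x.1, Q.resE p 0 x.1 - Q.pullZ p x.2)
  | n + 1 => fun x => (Q.dX p (n + 1) x.1, Q.resE p (n + 1) x.1 - Q.dE p n x.2)

/-- The vanishing of the `n`-th cohomology sheaf of the `p`-th Du Bois complex, for `n = k + 1`: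
every cocycle of degree `k + 1` of `K` is a coboundary. -/
def Vanish (k : ℕ) : Prop :=
  ∀ x : Q.K p (k + 1), Q.d p (k + 1) x = (0, 0) → ∃ y : Q.K p k, Q.d p k y = x

/-- `X` is pre-`m`-Du Bois. -/
def IsPreDuBois (m : ℕ) : Prop := ∀ p ≤ m, ∀ k, Q.Vanish p k

end Square

end Pool.Agent.Hhelper18.Hyper
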