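import Mathlib
import Pool.Agent.Hhelper18.DB.Public

/-! Sections as algebras. -/

namespace Pool.Agent.Hhelper18.DuBois

open AlgebraicGeometry CategoryTheory

variable {A : Type} [CommRing A] {X' : Scheme.{0}}

/-- The ring of sections. -/
abbrev Sec (π : X' ⟶ Spec (CommRingCat.of A)) (V : X'.Opens) : Type := Hyper.Sec π V

/-- The structure map `A → Γ(X', V)`. -/
noncomputable abbrev Sec.hom (π : X' ⟶ Spec (CommRingCat.of A)) (V : X'.Opens) : A →+* Sec π V :=
  Hyper.Sec.hom π V

noncomputable instance (π : X' ⟶ Spec (CommRingCat.of A)) (V : X'.Opens) :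
    Algebra A (Hyper.Sec π V) :=
  (Hyper.Sec.hom π V).toAlgebra

instance [Algebra ℂ A] (π : X' ⟶ Spec (CommRingCat.of A)) (V : X'.Opens) :
    IsScalarTower ℂ A (Hyper.Sec π V) :=
  IsScalarTower.of_algebraMap_eq (fun _ => rfl)

/-- Restriction of sections. -/
noncomputable def Sec.res (π : X' ⟶ Spec (CommRingCat.of A)) {V W : X'.Opens} (h : W ≤ V) :
    Sec π V →ₐ[A] Sec π W where
  toRingHom := Hyper.Sec.res π h
  commutes' a := Hyper.Sec.res_hom π h a

end Pool.Agent.Hhelper18.DuBois
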