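import Mathlib

/-! Cech-type cochains with values in a constant group, with support conditions. -/

namespace Pool.Agent.Hhelper18.DB

section Cech

variable {ι : Type} {M N : Type*} [AddCommGroup M] [AddCommGroup N]

/-- The Cech differential on functions of tuples. -/
def cd (n : ℕ) (φ : (Fin (n + 1) → ι) → M) : (Fin (n + 2) → ι) → M :=
  fun s => ∑ k : Fin (n + 2), (-1 : ℤ) ^ (k : ℕ) • φ (s ∘ k.succAbove)

theorem cd_add (n : ℕ) (φ ψ : (Fin (n + 1) → ι) → M) : cd n (φ + ψ) = cd n φ + cd n ψ := by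
  funext s
  simp [cd, Finset.sum_add_distrib]

theorem cd_zero (n : ℕ) : cd n (0 : (Fin (n + 1) → ι) → M) = 0 := by
  funext s
  simp [cd]

theorem cd_neg (n : ℕ) (φ : (Fin (n + 1) → ι) → M) : cd n (-φ) = - cd n φ := by
  funext s
  simp [cd]

theorem cd_sub (n : ℕ) (φ ψ : (Fin (n + 1) → ι) → M) : cd n (φ - ψ) = cd n φ - cd n ψ := by
  rw [sub_eq_add_neg, sub_eq_add_neg, cd_add, cd_neg]

theorem cd_sum {κ : Type*} (t : Finset κ) (n : ℕ) (φ : κ → (Fin (n + 1) → ι) → M) :
    cd n (∑ j ∈ t, φ j) = ∑ j ∈ t, cd n (φ j) := by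
  classical
  induction t using Finset.induction_on with
  | empty => simp [cd_zero]
  | insert a t ha ih => rw [Finset.sum_insert ha, Finset.sum_insert ha, cd_add, ih]

theorem cd_map (n : ℕ) (g : M →+ N) (φ : (Fin (n + 1) → ι) → M) :
    cd n (fun s => g (φ s)) = fun s => g (cd n φ s) := by
  funext s
  simp [cd, map_sum]

theorem cd_cd (n : ℕ) (φ : (Fin (n + 1) → ι) → M) : cd (n + 1) (cd n φ) = 0 := by
  funext s
  simp only [cd, Finset.smul_sum, smul_smul, Pi.zero_apply]
  rw [← Finset.sum_product']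
  refine Finset.sum_involution (fun ij _ => (ij.1.succAbove ij.2, ij.2.predAbove ij.1)) ?_ ?_ ?_ ?_
  · rintro ⟨i, j⟩ _
    simp only
    have h1 : ((-1 : ℤ) ^ ((i.succAbove j : Fin _) : ℕ)) * (-1) ^ ((j.predAbove i : Fin _) : ℕ) =
        - ((-1 : ℤ) ^ (i : ℕ) * (-1) ^ (j : ℕ)) := by
      rw [← pow_add, ← pow_add]
      exact Fin.neg_one_pow_succAbove_add_predAbove i j
    have h2 : (s ∘ (i.succAbove j).succAbove) ∘ (j.predAbove i).succAbove =
        (s ∘ i.succAbove) ∘ j.succAbove := by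
      funext k
      simp only [Function.comp_apply]
      rw [Fin.succAbove_succAbove_succAbove_predAbove]
    rw [h1, h2, neg_smul, add_neg_cancel]
  · rintro ⟨i, j⟩ _ _ h
    simp only [Prod.mk.injEq] at h
    exact absurd h.1 (Fin.succAbove_ne i j)
  · rintro ⟨i, j⟩ _
    simp
  · rintro ⟨i, j⟩ _
    simp only [Prod.mk.injEq]
    refine ⟨?_, ?_⟩
    · exact Fin.succAbove_succAbove_predAbove i j
    · exact Fin.predAbove_predAbove_succAbove i j

variable [DecidableEq ι]

/-- The set of entries of a tuple. -/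
def img {n : ℕ} (s : Fin n → ι) : Finset ι := Finset.univ.image s

theorem img_comp_subset {n m : ℕ} (s : Fin n → ι) (g : Fin m → Fin n) : img (s ∘ g) ⊆ img s := by
  intro x hx
  simp only [img, Finset.mem_image, Finset.mem_univ, true_and, Function.comp_apply] at hx ⊢
  obtain ⟨a, rfl⟩ := hx
  exact ⟨_, rfl⟩

theorem img_nonempty {n : ℕ} (s : Fin (n + 1) → ι) : (img s).Nonempty :=
  ⟨s 0, by simp [img]⟩

theorem img_cons {n : ℕ} (j : ι) (s : Fin n → ι) :
    img (Fin.cons j s : Fin (n + 1) → ι) = insert j (img s) := by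
  ext x
  simp only [img, Finset.mem_image, Finset.mem_univ, true_and, Finset.mem_insert, Fin.exists_fin_succ,
    Fin.cons_zero, Fin.cons_succ]
  constructor
  · rintro (h | h)
    · exact Or.inl h.symm
    · exact Or.inr h
  · rintro (h | h)
    · exact Or.inl h.symm
    · exact Or.inr h

/-- `φ` is a cochain of degree `n` of the system of subgroups `P`. -/
def IsCo (P : Finset ι → AddSubgroup M) (n : ℕ) (φ : (Fin (n + 1) → ι) → M) : Prop :=
  ∀ s, φ s ∈ P (img s)

theorem IsCo.cd {P : Finset ι → AddSubgroup M} (hP : ∀ S T, S ⊆ T → P S ≤ P T) {n : ℕ}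
    {φ : (Fin (n + 1) → ι) → M} (h : IsCo P n φ) : IsCo P (n + 1) (cd n φ) := by
  intro s
  refine AddSubgroup.sum_mem _ (fun k _ => AddSubgroup.zsmul_mem _ ?_ _)
  exact hP _ _ (img_comp_subset s _) (h _)

/-- Vanishing of the cohomology in degree `n + 1`. -/
def Acyc (P : Finset ι → AddSubgroup M) (n : ℕ) : Prop :=
  ∀ φ : (Fin (n + 2) → ι) → M, IsCo P (n + 1) φ → cd (n + 1) φ = 0 →
    ∃ ψ : (Fin (n + 1) → ι) → M, IsCo P n ψ ∧ cd n ψ = φ

/-- The cone contraction. -/
theorem cd_cone (n : ℕ) (j : ι) (φ : (Fin (n + 2) → ι) → M) (s : Fin (n + 2) → ι) :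
    cd n (fun t => φ (Fin.cons j t : Fin (n + 2) → ι)) s =
      φ s - cd (n + 1) φ (Fin.cons j s : Fin (n + 3) → ι) := by
  have h : cd (n + 1) φ (Fin.cons j s : Fin (n + 3) → ι) =
      φ s - cd n (fun t => φ (Fin.cons j t : Fin (n + 2) → ι)) s := by
    rw [cd, Fin.sum_univ_succ]
    have h0 : (Fin.cons j s : Fin (n + 3) → ι) ∘ (0 : Fin (n + 3)).succAbove = s := by
      funext k
      simp
    rw [h0]
    simp only [Fin.val_zero, pow_zero, one_smul, cd]
    rw [sub_eq_add_neg, ← Finset.sum_neg_distrib]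
    congr 1
    refine Finset.sum_congr rfl (fun k _ => ?_)
    have h1 : (Fin.cons j s : Fin (n + 3) → ι) ∘ (k.succ).succAbove =
        (Fin.cons j (s ∘ k.succAbove) : Fin (n + 2) → ι) := by
      funext l
      refine Fin.cases ?_ (fun l => ?_) l
      · simp
      · simp
    rw [h1, Fin.val_succ, pow_succ, mul_neg_one, neg_smul]
  rw [h]
  abel

theorem acyc_of_contraction {P : Finset ι → AddSubgroup M} (j : ι)
    (hj : ∀ S, P (insert j S) ≤ P S) (n : ℕ) : Acyc P n := by
  intro φ hφ hd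
  refine ⟨fun t => φ (Fin.cons j t : Fin (n + 2) → ι), ?_, ?_⟩
  · intro t
    have := hφ (Fin.cons j t : Fin (n + 2) → ι)
    rw [img_cons] at this
    exact hj _ this
  · funext s
    rw [cd_cone, hd]
    simp

/-- Decomposition into contractible pieces. -/
theorem acyc_of_decomposition {P : Finset ι → AddSubgroup M} (J : Finset ι) (pr : ι → M →+ M)
    (hsum : ∀ S, ∀ x ∈ P S, ∑ j ∈ J, pr j x = x)
    (hpr : ∀ j ∈ J, ∀ S, ∀ x ∈ P S, pr j x ∈ P S)
    (hins : ∀ j ∈ J, ∀ S, ∀ x ∈ P (insert j S), pr j x ∈ P S) (n : ℕ) : Acyc P n := by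
  intro φ hφ hd
  refine ⟨∑ j ∈ J, fun t => pr j (φ (Fin.cons j t : Fin (n + 2) → ι)), ?_, ?_⟩
  · intro t
    rw [Finset.sum_apply]
    refine AddSubgroup.sum_mem _ (fun j hj => ?_)
    have := hφ (Fin.cons j t : Fin (n + 2) → ι)
    rw [img_cons] at this
    exact hins j hj _ _ this
  · rw [cd_sum]
    funext s
    rw [Finset.sum_apply]
    have h : ∀ j ∈ J, cd n (fun t => pr j (φ (Fin.cons j t : Fin (n + 2) → ι))) s =
        pr j (φ s) := by
      intro j _
      have h1 := congrFun (cd_map n (pr j) (fun t => φ (Fin.cons j t : Fin (n + 2) → ι))) s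
      rw [h1, cd_cone, hd]
      simp
    rw [Finset.sum_congr rfl h]
    exact hsum _ _ (hφ s)

end Cech

end Pool.Agent.Hhelper18.DB
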