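import Mathlib
import Pool.Agent.Hhelper18.DB.Cech

/-! The ring `LL = ℂ[x₀^±,…,x₅^±][z]/(z² - x₀x₁ - x₂x₃ - x₄x₅)` and its graded pieces. -/

namespace Pool.Agent.Hhelper18.DB

/-- Exponents. -/
abbrev E6 := Fin 6 → ℤ

/-- Laurent polynomials in six variables. -/
abbrev Lau := AddMonoidAlgebra ℂ E6

/-- The pairing of the variables. -/
def pt : Fin 6 → Fin 6 := ![1, 0, 3, 2, 5, 4]

theorem pt_pt (i : Fin 6) : pt (pt i) = i := by
  fin_cases i <;> rfl

theorem pt_ne (i : Fin 6) : pt i ≠ i := by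
  fin_cases i <;> decide

/-- exponent of `x_l` -/
def dl (l : Fin 6) : E6 := Pi.single l 1

/-- exponent vector of the three products. -/
def qv (a : Fin 3) : E6 := ![dl 0 + dl 1, dl 2 + dl 3, dl 4 + dl 5] a

/-- the quadratic form `x₀x₁ + x₂x₃ + x₄x₅` -/
noncomputable def Q : Lau := ∑ a : Fin 3, AddMonoidAlgebra.single (qv a) 1

/-- The big ring. -/
abbrev LL := QuadraticAlgebra Lau Q 0

/-- degree of an exponent -/
def dg (e : E6) : ℤ := ∑ l, e l

theorem dg_add (e e' : E6) : dg (e + e') = dg e + dg e' := by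
  simp [dg, Finset.sum_add_distrib]

theorem dg_dl (l : Fin 6) : dg (dl l) = 1 := by
  simp [dg, dl]

theorem dg_qv (a : Fin 3) : dg (qv a) = 2 := by
  fin_cases a <;> simp [qv, dg_add, dg_dl]

theorem qv_nonneg (a : Fin 3) (l : Fin 6) : 0 ≤ qv a l := by
  fin_cases a <;> simp only [qv] <;> fin_cases l <;> simp [dl, Pi.single_apply]

/-- The monomial `x^e`. -/
noncomputable def mR (e : E6) : LL := ⟨AddMonoidAlgebra.single e 1, 0⟩

/-- The monomial `x^e z`. -/
noncomputable def mZ (e : E6) : LL := ⟨0, AddMonoidAlgebra.single e 1⟩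

theorem mR_mul_mR (e e' : E6) : mR e * mR e' = mR (e + e') := by
  ext : 1 <;> simp [mR, AddMonoidAlgebra.single_mul_single]

theorem mR_mul_mZ (e e' : E6) : mR e * mZ e' = mZ (e + e') := by
  ext : 1 <;> simp [mR, mZ, AddMonoidAlgebra.single_mul_single]

theorem Q_mul_single (e : E6) : Q * AddMonoidAlgebra.single e 1 =
    ∑ a : Fin 3, AddMonoidAlgebra.single (e + qv a) (1 : ℂ) := by
  rw [Q, Finset.sum_mul]
  refine Finset.sum_congr rfl (fun a _ => ?_)
  rw [AddMonoidAlgebra.single_mul_single, one_mul, add_comm]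

theorem mZ_mul_mZ (e e' : E6) : mZ e * mZ e' = ∑ a : Fin 3, mR (e + e' + qv a) := by
  have h : ∀ (s : Finset (Fin 3)) (g : Fin 3 → E6), (∑ a ∈ s, mR (g a)) =
      ⟨∑ a ∈ s, AddMonoidAlgebra.single (g a) 1, 0⟩ := by
    intro s g
    induction s using Finset.induction_on with
    | empty => simp; rfl
    | insert a s ha ih =>
      rw [Finset.sum_insert ha, Finset.sum_insert ha, ih]
      ext : 1 <;> simp [mR]
  rw [h]
  ext : 1
  · simp only [mZ, QuadraticAlgebra.re_mul, mul_zero, zero_add]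
    rw [mul_assoc, AddMonoidAlgebra.single_mul_single, one_mul, Q_mul_single]
  · simp [mZ]

theorem mR_zero : mR 0 = 1 := rfl

/-- Elements of `LL` all of whose monomials satisfy `P`. -/
def SP (P : E6 → ℤ → Prop) : Submodule ℂ LL where
  carrier := {f | (∀ e, f.re.coeff e ≠ 0 → P e 0) ∧ (∀ e, f.im.coeff e ≠ 0 → P e 1)}
  zero_mem' := by
    constructor <;> intro e he <;> simp at he
  add_mem' := by
    rintro f g ⟨hf1, hf2⟩ ⟨hg1, hg2⟩
    constructor
    · intro e he
      by_cases h : f.re.coeff e = 0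
      · refine hg1 e (fun h' => he ?_)
        simp [h, h']
      · exact hf1 e h
    · intro e he
      by_cases h : f.im.coeff e = 0
      · refine hg2 e (fun h' => he ?_)
        simp [h, h']
      · exact hf2 e h
  smul_mem' := by
    rintro c f ⟨hf1, hf2⟩
    constructor
    · intro e he
      refine hf1 e (fun h => he ?_)
      simp [h]
    · intro e he
      refine hf2 e (fun h => he ?_)
      simp [h]

theorem mem_SP {P : E6 → ℤ → Prop} {f : LL} :
    f ∈ SP P ↔ (∀ e, f.re.coeff e ≠ 0 → P e 0) ∧ (∀ e, f.im.coeff e ≠ 0 → P e 1) := Iff.rfl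

theorem SP_mono {P P' : E6 → ℤ → Prop} (h : ∀ e n, P e n → P' e n) : SP P ≤ SP P' := by
  rintro f ⟨h1, h2⟩
  exact ⟨fun e he => h _ _ (h1 e he), fun e he => h _ _ (h2 e he)⟩

theorem mR_mem {P : E6 → ℤ → Prop} {e : E6} (h : P e 0) : mR e ∈ SP P := by
  constructor
  · intro e' he'
    by_cases hee : e = e'
    · rw [← hee]; exact h
    · simp [mR, Finsupp.single_apply, hee] at he'
  · intro e' he'
    simp [mR] at he'

theorem mZ_mem {P : E6 → ℤ → Prop} {e : E6} (h : P e 1) : mZ e ∈ SP P := by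
  constructor
  · intro e' he'
    simp [mZ] at he'
  · intro e' he'
    by_cases hee : e = e'
    · rw [← hee]; exact h
    · simp [mZ, Finsupp.single_apply, hee] at he'

theorem re_im_expand (f : LL) : f = (∑ e ∈ f.re.coeff.support, (f.re.coeff e) • mR e) +
    ∑ e ∈ f.im.coeff.support, (f.im.coeff e) • mZ e := by
  have hre : ∀ g : Lau, (⟨g, 0⟩ : LL) = ∑ e ∈ g.coeff.support, (g.coeff e) • mR e := by
    intro g
    have h : ∀ (s : Finset E6) (c : E6 → ℂ), (∑ e ∈ s, c e • mR e) =
        ⟨∑ e ∈ s, AddMonoidAlgebra.single e (c e), 0⟩ := by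
      intro s c
      induction s using Finset.induction_on with
      | empty => simp; rfl
      | insert a s ha ih =>
        rw [Finset.sum_insert ha, Finset.sum_insert ha, ih]
        ext : 1 <;> simp [mR, AddMonoidAlgebra.smul_single]
    rw [h]
    congr 1
    conv_lhs => rw [← AddMonoidAlgebra.sum_coeff_single g]
    rfl
  have him : ∀ g : Lau, (⟨0, g⟩ : LL) = ∑ e ∈ g.coeff.support, (g.coeff e) • mZ e := by
    intro g
    have h : ∀ (s : Finset E6) (c : E6 → ℂ), (∑ e ∈ s, c e • mZ e) =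
        ⟨0, ∑ e ∈ s, AddMonoidAlgebra.single e (c e)⟩ := by
      intro s c
      induction s using Finset.induction_on with
      | empty => simp; rfl
      | insert a s ha ih =>
        rw [Finset.sum_insert ha, Finset.sum_insert ha, ih]
        ext : 1 <;> simp [mZ, AddMonoidAlgebra.smul_single]
    rw [h]
    congr 1
    conv_lhs => rw [← AddMonoidAlgebra.sum_coeff_single g]
    rfl
  rw [← hre, ← him]
  ext : 1 <;> simp

/-- Induction principle for elements of `SP P`. -/
theorem SP_induction {P : E6 → ℤ → Prop} {motive : LL → Prop} (h0 : motive 0)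
    (hadd : ∀ f g, motive f → motive g → motive (f + g))
    (hR : ∀ (c : ℂ) (e : E6), P e 0 → motive (c • mR e))
    (hZ : ∀ (c : ℂ) (e : E6), P e 1 → motive (c • mZ e)) {f : LL} (hf : f ∈ SP P) : motive f := by
  have hsum : ∀ (s : Finset E6) (g : E6 → LL), (∀ e ∈ s, motive (g e)) → motive (∑ e ∈ s, g e) := by
    intro s g
    induction s using Finset.induction_on with
    | empty => intro _; simpa using h0
    | insert a s ha ih =>
      intro h
      rw [Finset.sum_insert ha]
      exact hadd _ _ (h _ (Finset.mem_insert_self _ _))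
        (ih (fun e he => h e (Finset.mem_insert_of_mem he)))
  rw [re_im_expand f]
  refine hadd _ _ (hsum _ _ (fun e he => ?_)) (hsum _ _ (fun e he => ?_))
  · exact hR _ _ (hf.1 e (Finsupp.mem_support_iff.1 he))
  · exact hZ _ _ (hf.2 e (Finsupp.mem_support_iff.1 he))

/-- Multiplicativity of support conditions. -/
theorem SP_mul {P₁ P₂ P₃ : E6 → ℤ → Prop}
    (h00 : ∀ e e', P₁ e 0 → P₂ e' 0 → P₃ (e + e') 0)
    (h01 : ∀ e e', P₁ e 0 → P₂ e' 1 → P₃ (e + e') 1)
    (h10 : ∀ e e', P₁ e 1 → P₂ e' 0 → P₃ (e + e') 1)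
    (h11 : ∀ e e' a, P₁ e 1 → P₂ e' 1 → P₃ (e + e' + qv a) 0)
    {f g : LL} (hf : f ∈ SP P₁) (hg : g ∈ SP P₂) : f * g ∈ SP P₃ := by
  refine SP_induction (motive := fun f => f * g ∈ SP P₃) ?_ ?_ ?_ ?_ hf
  · simp
  · intro f f' h h'
    rw [add_mul]
    exact Submodule.add_mem _ h h'
  · intro c e he
    rw [smul_mul_assoc]
    refine Submodule.smul_mem _ _ ?_
    refine SP_induction (motive := fun g => mR e * g ∈ SP P₃) ?_ ?_ ?_ ?_ hg
    · simp
    · intro f f' h h'
      rw [mul_add]
      exact Submodule.add_mem _ h h'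
    · intro c' e' he'
      rw [mul_smul_comm, mR_mul_mR]
      exact Submodule.smul_mem _ _ (mR_mem (h00 _ _ he he'))
    · intro c' e' he'
      rw [mul_smul_comm, mR_mul_mZ]
      exact Submodule.smul_mem _ _ (mZ_mem (h01 _ _ he he'))
  · intro c e he
    rw [smul_mul_assoc]
    refine Submodule.smul_mem _ _ ?_
    refine SP_induction (motive := fun g => mZ e * g ∈ SP P₃) ?_ ?_ ?_ ?_ hg
    · simp
    · intro f f' h h'
      rw [mul_add]
      exact Submodule.add_mem _ h h'
    · intro c' e' he'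
      rw [mul_smul_comm, mul_comm, mR_mul_mZ, add_comm]
      exact Submodule.smul_mem _ _ (mZ_mem (h10 _ _ he he'))
    · intro c' e' he'
      rw [mul_smul_comm, mZ_mul_mZ]
      exact Submodule.smul_mem _ _ (Submodule.sum_mem _ (fun a _ => mR_mem (h11 _ _ _ he he')))

/-- The condition defining `B_S` in degrees `D`. -/
def bP (S : Finset (Fin 6)) (D : Set ℤ) (e : E6) (n : ℤ) : Prop :=
  (∀ l, e l < 0 → l ∈ S) ∧ dg e + n ∈ D

/-- `B_S` in degrees `D`: combinations of monomials `x^e z^ε` with negative exponents only in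
`S` and degree in `D`. -/
def B (S : Finset (Fin 6)) (D : Set ℤ) : Submodule ℂ LL := SP (bP S D)

theorem B_mono {S S' : Finset (Fin 6)} {D D' : Set ℤ} (hS : S ⊆ S') (hD : D ⊆ D') :
    B S D ≤ B S' D' :=
  SP_mono (fun _ _ h => ⟨fun l hl => hS (h.1 l hl), hD h.2⟩)

theorem B_mul {S : Finset (Fin 6)} {D₁ D₂ D₃ : Set ℤ}
    (hD : ∀ a ∈ D₁, ∀ b ∈ D₂, a + b ∈ D₃) {f g : LL} (hf : f ∈ B S D₁) (hg : g ∈ B S D₂) :
    f * g ∈ B S D₃ := by
  have key : ∀ e e' : E6, (∀ l, e l < 0 → l ∈ S) → (∀ l, e' l < 0 → l ∈ S) →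
      ∀ l, (e + e') l < 0 → l ∈ S := by
    intro e e' h h' l hl
    rw [Pi.add_apply] at hl
    by_cases h1 : e l < 0
    · exact h l h1
    · exact h' l (by omega)
  refine SP_mul ?_ ?_ ?_ ?_ hf hg
  · rintro e e' ⟨h1, h2⟩ ⟨h1', h2'⟩
    refine ⟨key e e' h1 h1', ?_⟩
    have := hD _ h2 _ h2'
    rw [dg_add]
    convert this using 1
    ring
  · rintro e e' ⟨h1, h2⟩ ⟨h1', h2'⟩
    refine ⟨key e e' h1 h1', ?_⟩
    have := hD _ h2 _ h2'
    rw [dg_add]
    convert this using 1
    ring
  · rintro e e' ⟨h1, h2⟩ ⟨h1', h2'⟩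
    refine ⟨key e e' h1 h1', ?_⟩
    have := hD _ h2 _ h2'
    rw [dg_add]
    convert this using 1
    ring
  · rintro e e' a ⟨h1, h2⟩ ⟨h1', h2'⟩
    refine ⟨?_, ?_⟩
    · intro l hl
      rw [Pi.add_apply] at hl
      have := qv_nonneg a l
      exact key e e' h1 h1' l (by omega)
    · have := hD _ h2 _ h2'
      rw [dg_add, dg_add, dg_qv]
      convert this using 1
      ring

theorem one_mem_B (S : Finset (Fin 6)) {D : Set ℤ} (h : (0 : ℤ) ∈ D) : (1 : LL) ∈ B S D := by
  rw [← mR_zero]
  refine mR_mem ⟨fun l hl => ?_, ?_⟩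
  · simp at hl
  · simpa [dg] using h

/-- the variable `x_l` -/
noncomputable def xx (l : Fin 6) : LL := mR (dl l)

/-- its inverse -/
noncomputable def xi (l : Fin 6) : LL := mR (-dl l)

/-- the variable `z` -/
noncomputable def zz : LL := mZ 0

theorem xx_mul_xi (l : Fin 6) : xx l * xi l = 1 := by
  rw [xx, xi, mR_mul_mR, add_neg_cancel, mR_zero]

theorem xi_mul_xx (l : Fin 6) : xi l * xx l = 1 := by
  rw [mul_comm, xx_mul_xi]

theorem zz_sq : zz * zz = xx 0 * xx 1 + xx 2 * xx 3 + xx 4 * xx 5 := by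
  rw [zz, mZ_mul_mZ]
  simp only [xx, mR_mul_mR, Fin.sum_univ_three, zero_add]
  rfl

theorem xx_mem (S : Finset (Fin 6)) (l : Fin 6) : xx l ∈ B S {1} := by
  refine mR_mem ⟨fun m hm => ?_, ?_⟩
  · have : (0 : ℤ) ≤ dl l m := by
      simp only [dl, Pi.single_apply]; split_ifs <;> norm_num
    omega
  · simp [dg_dl]

theorem zz_mem (S : Finset (Fin 6)) : zz ∈ B S {1} := by
  refine mZ_mem ⟨fun m hm => ?_, ?_⟩
  · simp at hm
  · simp [dg]

theorem xi_mem {S : Finset (Fin 6)} {l : Fin 6} (hl : l ∈ S) : xi l ∈ B S {-1} := by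
  refine mR_mem ⟨fun m hm => ?_, ?_⟩
  · by_cases h : m = l
    · rw [h]; exact hl
    · have : (-dl l) m = 0 := by
        simp [dl, Pi.single_apply, h]
      omega
  · have : dg (-dl l) = -1 := by
      have h := dg_add (dl l) (-dl l)
      rw [add_neg_cancel, dg_dl] at h
      have h0 : dg 0 = 0 := by simp [dg]
      omega
    simp [this]

/-- Cutting an element of `LL` down to the monomials satisfying `P`. -/
noncomputable def cut (P : E6 → ℤ → Prop) : LL →ₗ[ℂ] LL := by
  classical
  exact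
  { toFun := fun f => ⟨AddMonoidAlgebra.ofCoeff (f.re.coeff.filter (fun e => P e 0)),
      AddMonoidAlgebra.ofCoeff (f.im.coeff.filter (fun e => P e 1))⟩
    map_add' := by
      intro f g
      ext e <;> simp [Finsupp.filter_apply] <;> split_ifs <;> simp
    map_smul' := by
      intro c f
      ext e <;> simp [Finsupp.filter_apply] }

theorem cut_re (P : E6 → ℤ → Prop) [∀ e n, Decidable (P e n)] (f : LL) (e : E6) :
    (cut P f).re.coeff e = if P e 0 then f.re.coeff e else 0 := by
  simp only [cut, LinearMap.coe_mk, AddHom.coe_mk, Finsupp.filter_apply]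
  split_ifs <;> rfl

theorem cut_im (P : E6 → ℤ → Prop) [∀ e n, Decidable (P e n)] (f : LL) (e : E6) :
    (cut P f).im.coeff e = if P e 1 then f.im.coeff e else 0 := by
  simp only [cut, LinearMap.coe_mk, AddHom.coe_mk, Finsupp.filter_apply]
  split_ifs <;> rfl

theorem cut_mem {P P' : E6 → ℤ → Prop} {f : LL} (hf : f ∈ SP P') :
    cut P f ∈ SP (fun e n => P e n ∧ P' e n) := by
  classical
  constructor
  · intro e he
    rw [cut_re] at he
    split_ifs at he with h
    · exact ⟨h, hf.1 e he⟩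
    · exact absurd rfl he
  · intro e he
    rw [cut_im] at he
    split_ifs at he with h
    · exact ⟨h, hf.2 e he⟩
    · exact absurd rfl he

theorem cut_of_mem {P : E6 → ℤ → Prop} {f : LL} (hf : f ∈ SP P) : cut P f = f := by
  classical
  ext e
  · rw [cut_re]
    split_ifs with h
    · rfl
    · by_contra h'
      exact h (hf.1 e (Ne.symm h'))
  · rw [cut_im]
    split_ifs with h
    · rfl
    · by_contra h'
      exact h (hf.2 e (Ne.symm h'))

theorem cut_eq_zero {P : E6 → ℤ → Prop} {f : LL} (hf : f ∈ SP (fun e n => ¬ P e n)) :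
    cut P f = 0 := by
  classical
  ext e
  · rw [cut_re]
    split_ifs with h
    · by_contra h'
      exact hf.1 e h' h
    · rfl
  · rw [cut_im]
    split_ifs with h
    · by_contra h'
      exact hf.2 e h' h
    · rfl

/-! ### Acyclicity -/

/-- `j` is the first index with a nonnegative exponent. -/
def first (j : Fin 6) (e : E6) (_ : ℤ) : Prop := 0 ≤ e j ∧ ∀ i < j, e i < 0

theorem first_unique {j j' : Fin 6} {e : E6} {n : ℤ} (h : first j e n) (h' : first j' e n) :
    j = j' := by
  rcases lt_trichotomy j j' with hlt | heq | hgt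
  · have := h'.2 j hlt
    have := h.1
    omega
  · exact heq
  · have := h.2 j' hgt
    have := h'.1
    omega

theorem exists_first {e : E6} (n : ℤ) (h : ∃ l, 0 ≤ e l) : ∃ j, first j e n := by
  classical
  obtain ⟨l, hl⟩ := h
  let s : Finset (Fin 6) := Finset.univ.filter (fun l => 0 ≤ e l)
  have hs : s.Nonempty := ⟨l, by simp [s, hl]⟩
  refine ⟨s.min' hs, ?_, ?_⟩
  · have := Finset.min'_mem s hs
    simpa [s] using this
  · intro i hi
    by_contra hcon
    have : i ∈ s := by simp [s]; omega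
    exact absurd (Finset.min'_le s i this) (not_le.2 hi)

/-- The sum of the cuts is the identity on elements of degree `≥ -4`. -/
theorem sum_cut_first {D : Set ℤ} (hD : ∀ d ∈ D, -4 ≤ d) {S : Finset (Fin 6)} {f : LL}
    (hf : f ∈ B S D) : ∑ j : Fin 6, cut (first j) f = f := by
  classical
  have key : ∀ (e : E6) (n : ℤ), n ≤ 1 → bP S D e n → ∃ l, 0 ≤ e l := by
    intro e n hn h
    by_contra hcon
    push Not at hcon
    have h1 : dg e ≤ -6 := by
      have : dg e ≤ ∑ _l : Fin 6, (-1 : ℤ) := Finset.sum_le_sum (fun l _ => by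
        have := hcon l; omega)
      simpa using this
    have := hD _ h.2
    omega
  have hre : ∀ e, (∑ j : Fin 6, cut (first j) f).re.coeff e = ∑ j : Fin 6,
      (cut (first j) f).re.coeff e := by
    intro e
    have : ∀ s : Finset (Fin 6), (∑ j ∈ s, cut (first j) f).re.coeff e = ∑ j ∈ s,
        (cut (first j) f).re.coeff e := by
      intro s
      induction s using Finset.induction_on with
      | empty => simp
      | insert a s ha ih => rw [Finset.sum_insert ha, Finset.sum_insert ha, ← ih]; simp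
    exact this _
  have him : ∀ e, (∑ j : Fin 6, cut (first j) f).im.coeff e = ∑ j : Fin 6,
      (cut (first j) f).im.coeff e := by
    intro e
    have : ∀ s : Finset (Fin 6), (∑ j ∈ s, cut (first j) f).im.coeff e = ∑ j ∈ s,
        (cut (first j) f).im.coeff e := by
      intro s
      induction s using Finset.induction_on with
      | empty => simp
      | insert a s ha ih => rw [Finset.sum_insert ha, Finset.sum_insert ha, ← ih]; simp
    exact this _
  ext e
  · rw [hre]
    by_cases h : f.re.coeff e = 0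
    · rw [h]
      refine Finset.sum_eq_zero (fun j _ => ?_)
      rw [cut_re]; split_ifs <;> simp [h]
    · obtain ⟨j, hj⟩ := exists_first 0 (key e 0 (by norm_num) (hf.1 e h))
      rw [Finset.sum_eq_single j]
      · rw [cut_re, if_pos hj]
      · intro j' _ hj'
        rw [cut_re, if_neg (fun h' => hj' (first_unique h' hj))]
      · intro h'; exact absurd (Finset.mem_univ _) h'
  · rw [him]
    by_cases h : f.im.coeff e = 0
    · rw [h]
      refine Finset.sum_eq_zero (fun j _ => ?_)
      rw [cut_im]; split_ifs <;> simp [h]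
    · obtain ⟨j, hj⟩ := exists_first 1 (key e 1 le_rfl (hf.2 e h))
      rw [Finset.sum_eq_single j]
      · rw [cut_im, if_pos hj]
      · intro j' _ hj'
        rw [cut_im, if_neg (fun h' => hj' (first_unique h' hj))]
      · intro h'; exact absurd (Finset.mem_univ _) h'

theorem cut_first_mem {D : Set ℤ} {S : Finset (Fin 6)} {f : LL} (j : Fin 6) (hf : f ∈ B S D) :
    cut (first j) f ∈ B S D :=
  SP_mono (fun _ _ h => h.2) (cut_mem hf)

theorem cut_first_mem_insert {D : Set ℤ} {S : Finset (Fin 6)} {f : LL} (j : Fin 6)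
    (hf : f ∈ B (insert j S) D) : cut (first j) f ∈ B S D := by
  refine SP_mono ?_ (cut_mem hf)
  rintro e n ⟨h1, h2, h3⟩
  refine ⟨fun l hl => ?_, h3⟩
  have := h2 l hl
  rw [Finset.mem_insert] at this
  rcases this with h | h
  · exfalso
    rw [h] at hl
    have := h1.1
    omega
  · exact h

end Pool.Agent.Hhelper18.DB
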