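import Mathlib
import Pool.Agent.Hhelper18.DB.Ring
import Pool.Agent.Hhelper18.DB.Koszul

/-! The Kaehler differentials of `LL`. -/

namespace Pool.Agent.Hhelper18.DB

open KaehlerDifferential

/-- The seven variables `z, x₀, …, x₅`. -/
noncomputable def XX : Fin 7 → LL := Fin.cons zz xx

/-- the gradient of `z² - x₀x₁ - x₂x₃ - x₄x₅`. -/
noncomputable def dq : Fin 7 → LL := Fin.cons (2 * zz) (fun l => - xx (pt l))

/-- partial derivative of Laurent polynomials -/
noncomputable def pdL (l : Fin 6) : Lau →ₗ[ℂ] Lau :=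
  (AddMonoidAlgebra.basis E6 ℂ).constr ℂ (fun e => (e l : ℂ) • AddMonoidAlgebra.single (e - dl l) 1)

theorem pdL_single (l : Fin 6) (e : E6) : pdL l (AddMonoidAlgebra.single e 1) =
    (e l : ℂ) • AddMonoidAlgebra.single (e - dl l) 1 := by
  have := (AddMonoidAlgebra.basis E6 ℂ).constr_basis ℂ
    (fun e => (e l : ℂ) • AddMonoidAlgebra.single (e - dl l) (1 : ℂ)) e
  rwa [AddMonoidAlgebra.basis_apply] at this

/-- the `z`-derivative of `a + b z` is `b` -/
noncomputable def dd : LL →ₗ[ℂ] (Fin 7 → LL) where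
  toFun f := Fin.cons ⟨f.im, 0⟩ (fun l => ⟨pdL l f.re, pdL l f.im⟩)
  map_add' f g := by
    funext k
    refine Fin.cases ?_ (fun l => ?_) k
    · ext : 1 <;> simp
    · ext : 1 <;> simp
  map_smul' c f := by
    funext k
    refine Fin.cases ?_ (fun l => ?_) k
    · ext : 1 <;> simp
    · ext : 1 <;> simp

theorem dd_mR_zero (e : E6) : dd (mR e) 0 = 0 := by
  ext : 1 <;> simp [dd, mR]

theorem dd_mR_succ (e : E6) (l : Fin 6) : dd (mR e) l.succ = (e l : ℂ) • mR (e - dl l) := by
  ext : 1 <;> simp [dd, mR, pdL_single]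

theorem dd_mZ_zero (e : E6) : dd (mZ e) 0 = mR e := by
  ext : 1 <;> simp [dd, mZ, mR]

theorem dd_mZ_succ (e : E6) (l : Fin 6) : dd (mZ e) l.succ = (e l : ℂ) • mZ (e - dl l) := by
  ext : 1 <;> simp [dd, mZ, pdL_single]

theorem dd_xx (l : Fin 6) : dd (xx l) = Pi.single l.succ 1 := by
  funext k
  refine Fin.cases ?_ (fun m => ?_) k
  · rw [xx, dd_mR_zero, Pi.single_apply, if_neg (Fin.succ_ne_zero l).symm]
  · rw [xx, dd_mR_succ, Pi.single_apply]
    by_cases h : m = l
    · subst h
      rw [if_pos rfl, sub_self, mR_zero]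
      simp [dl]
    · rw [if_neg (fun h' => h (Fin.succ_injective _ h'))]
      simp [dl, h]

theorem dd_zz : dd zz = Pi.single 0 1 := by
  funext k
  refine Fin.cases ?_ (fun m => ?_) k
  · rw [zz, dd_mZ_zero, mR_zero]; simp
  · rw [zz, dd_mZ_succ, Pi.single_apply, if_neg (Fin.succ_ne_zero m)]
    simp

theorem dd_XX (k : Fin 7) : dd (XX k) = Pi.single k 1 := by
  refine Fin.cases ?_ (fun m => ?_) k
  · exact dd_zz
  · exact dd_xx m

/-- the part of `f` divisible by `z`. -/
noncomputable def imR (f g : LL) : LL := ⟨f.im * g.im, 0⟩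

theorem qv_apply_sum (l : Fin 6) (e : E6) :
    ∑ a : Fin 3, (qv a l : ℂ) • mR (e + qv a - dl l) = mR (e + dl (pt l)) := by
  rw [Fin.sum_univ_three]
  fin_cases l
  · have h0 : qv 0 (0 : Fin 6) = 1 := by decide
    have h1 : qv 1 (0 : Fin 6) = 0 := by decide
    have h2 : qv 2 (0 : Fin 6) = 0 := by decide
    have h3 : e + qv 0 - dl 0 = e + dl (pt 0) := by
      simp only [qv, pt, Matrix.cons_val_zero]; abel
    simp only [Fin.zero_eta, h0, h1, h2, h3]
    simp
  · have h0 : qv 0 (1 : Fin 6) = 1 := by decide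
    have h1 : qv 1 (1 : Fin 6) = 0 := by decide
    have h2 : qv 2 (1 : Fin 6) = 0 := by decide
    have h3 : e + qv 0 - dl 1 = e + dl (pt 1) := by
      simp only [qv, pt, Matrix.cons_val_zero, Matrix.cons_val_one]; abel
    simp only [Fin.mk_one, h0, h1, h2, h3]
    simp
  · have h0 : qv 0 (2 : Fin 6) = 0 := by decide
    have h1 : qv 1 (2 : Fin 6) = 1 := by decide
    have h2 : qv 2 (2 : Fin 6) = 0 := by decide
    have h3 : e + qv 1 - dl 2 = e + dl (pt 2) := by
      have : pt 2 = 3 := rfl
      rw [this]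
      have : qv 1 = dl 2 + dl 3 := rfl
      rw [this]; abel
    have h4 : (⟨2, by norm_num⟩ : Fin 6) = 2 := rfl
    simp only [h4, h0, h1, h2, h3]
    simp
  · have h0 : qv 0 (3 : Fin 6) = 0 := by decide
    have h1 : qv 1 (3 : Fin 6) = 1 := by decide
    have h2 : qv 2 (3 : Fin 6) = 0 := by decide
    have h3 : e + qv 1 - dl 3 = e + dl (pt 3) := by
      have : pt 3 = 2 := rfl
      rw [this]
      have : qv 1 = dl 2 + dl 3 := rfl
      rw [this]; abel
    simp only [h0, h1, h2, h3, Fin.reduceFinMk]
    simp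
  · have h0 : qv 0 (4 : Fin 6) = 0 := by decide
    have h1 : qv 1 (4 : Fin 6) = 0 := by decide
    have h2 : qv 2 (4 : Fin 6) = 1 := by decide
    have h3 : e + qv 2 - dl 4 = e + dl (pt 4) := by
      have : pt 4 = 5 := rfl
      rw [this]
      have : qv 2 = dl 4 + dl 5 := rfl
      rw [this]; abel
    simp only [h0, h1, h2, h3, Fin.reduceFinMk]
    simp
  · have h0 : qv 0 (5 : Fin 6) = 0 := by decide
    have h1 : qv 1 (5 : Fin 6) = 0 := by decide
    have h2 : qv 2 (5 : Fin 6) = 1 := by decide
    have h3 : e + qv 2 - dl 5 = e + dl (pt 5) := by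
      have : pt 5 = 4 := rfl
      rw [this]
      have : qv 2 = dl 4 + dl 5 := rfl
      rw [this]; abel
    simp only [h0, h1, h2, h3, Fin.reduceFinMk]
    simp

/-- The Leibniz defect of `dd`. -/
theorem dd_mul (f g : LL) : dd (f * g) = f • dd g + g • dd f - imR f g • dq := by
  have htop : ∀ f : LL, f ∈ SP (fun _ _ => True) := fun f => ⟨fun _ _ => trivial, fun _ _ => trivial⟩
  refine SP_induction (motive := fun f => dd (f * g) = f • dd g + g • dd f - imR f g • dq)
    ?_ ?_ ?_ ?_ (htop f)
  · have : imR 0 g = 0 := by ext : 1 <;> simp [imR]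
    rw [this, zero_mul, map_zero, zero_smul, smul_zero, zero_smul]; simp
  · intro f f' h h'
    have : imR (f + f') g = imR f g + imR f' g := by ext : 1 <;> simp [imR, add_mul]
    rw [this, add_mul, map_add, h, h', map_add, add_smul, smul_add, add_smul]
    abel
  · intro c e _
    refine SP_induction (motive := fun g => dd (c • mR e * g) = (c • mR e) • dd g +
      g • dd (c • mR e) - imR (c • mR e) g • dq) ?_ ?_ ?_ ?_ (htop g)
    · have : imR (c • mR e) 0 = 0 := by ext : 1 <;> simp [imR]
      rw [this, mul_zero, map_zero, zero_smul, smul_zero, zero_smul]; simp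
    · intro g g' h h'
      have : imR (c • mR e) (g + g') = imR (c • mR e) g + imR (c • mR e) g' := by
        ext : 1 <;> simp [imR, mul_add]
      rw [this, mul_add, map_add, h, h', map_add, add_smul, smul_add, add_smul]
      abel
    · intro c' e' _
      have h0 : imR (c • mR e) (c' • mR e') = 0 := by ext : 1 <;> simp [imR, mR]
      rw [h0, zero_smul, sub_zero, smul_mul_smul_comm, mR_mul_mR, map_smul, map_smul, map_smul]
      funext k
      refine Fin.cases ?_ (fun l => ?_) k
      · simp only [Pi.smul_apply, Pi.add_apply, dd_mR_zero, smul_zero, add_zero]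
      · simp only [Pi.smul_apply, Pi.add_apply, dd_mR_succ, smul_eq_mul, smul_mul_assoc,
          mul_smul_comm, mR_mul_mR, smul_smul]
        have h1 : e + e' - dl l = e + (e' - dl l) := by abel
        have h2 : e' + (e - dl l) = e + (e' - dl l) := by abel
        rw [h1, h2, ← add_smul]
        congr 1
        push_cast
        ring
    · intro c' e' _
      have h0 : imR (c • mR e) (c' • mZ e') = 0 := by ext : 1 <;> simp [imR, mR]
      rw [h0, zero_smul, sub_zero, smul_mul_smul_comm, mR_mul_mZ, map_smul, map_smul, map_smul]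
      funext k
      refine Fin.cases ?_ (fun l => ?_) k
      · simp only [Pi.smul_apply, Pi.add_apply, dd_mR_zero, dd_mZ_zero, smul_zero, add_zero,
          smul_eq_mul, smul_mul_assoc, mul_smul_comm, mR_mul_mR, smul_smul, mul_zero]
        rw [mul_comm c' c]
      · simp only [Pi.smul_apply, Pi.add_apply, dd_mR_succ, dd_mZ_succ, smul_eq_mul, smul_mul_assoc,
          mul_smul_comm, mR_mul_mZ, smul_smul]
        have h3 : mZ e' * mR (e - dl l) = mZ (e + (e' - dl l)) := by
          rw [mul_comm, mR_mul_mZ]; congr 1; abel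
        have h1 : e + e' - dl l = e + (e' - dl l) := by abel
        rw [h1, h3, ← add_smul]
        congr 1
        push_cast
        ring
  · intro c e _
    refine SP_induction (motive := fun g => dd (c • mZ e * g) = (c • mZ e) • dd g +
      g • dd (c • mZ e) - imR (c • mZ e) g • dq) ?_ ?_ ?_ ?_ (htop g)
    · have : imR (c • mZ e) 0 = 0 := by ext : 1 <;> simp [imR]
      rw [this, mul_zero, map_zero, zero_smul, smul_zero, zero_smul]; simp
    · intro g g' h h'
      have : imR (c • mZ e) (g + g') = imR (c • mZ e) g + imR (c • mZ e) g' := by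
        ext : 1 <;> simp [imR, mul_add]
      rw [this, mul_add, map_add, h, h', map_add, add_smul, smul_add, add_smul]
      abel
    · intro c' e' _
      have h0 : imR (c • mZ e) (c' • mR e') = 0 := by ext : 1 <;> simp [imR, mR]
      have h5 : mZ e * mR e' = mZ (e' + e) := by rw [mul_comm, mR_mul_mZ]
      rw [h0, zero_smul, sub_zero, smul_mul_smul_comm, h5, map_smul, map_smul, map_smul]
      funext k
      refine Fin.cases ?_ (fun l => ?_) k
      · simp only [Pi.smul_apply, Pi.add_apply, dd_mR_zero, dd_mZ_zero, smul_zero, zero_add,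
          smul_eq_mul, smul_mul_assoc, mul_smul_comm, mR_mul_mR, smul_smul, mul_zero]
      · simp only [Pi.smul_apply, Pi.add_apply, dd_mR_succ, dd_mZ_succ, smul_eq_mul, smul_mul_assoc,
          mul_smul_comm, mR_mul_mZ, smul_smul]
        have h3 : mZ e * mR (e' - dl l) = mZ (e' + (e - dl l)) := by
          rw [mul_comm, mR_mul_mZ]; congr 1; abel
        have h1 : e' + e - dl l = e' + (e - dl l) := by abel
        rw [h1, h3, ← add_smul]
        congr 1
        push_cast
        ring
    · intro c' e' _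
      have h0 : imR (c • mZ e) (c' • mZ e') = (c * c') • mR (e + e') := by
        ext : 1
        · simp [imR, mR, mZ, smul_smul, AddMonoidAlgebra.single_mul_single]
        · simp [imR, mR]
      rw [h0, smul_mul_smul_comm, mZ_mul_mZ, map_smul, map_smul, map_smul, map_sum]
      funext k
      refine Fin.cases ?_ (fun l => ?_) k
      · simp only [Pi.smul_apply, Pi.add_apply, Pi.sub_apply, Finset.sum_apply, dd_mR_zero,
          dd_mZ_zero, smul_eq_mul, smul_mul_assoc, mul_smul_comm, smul_smul, Finset.sum_const_zero,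
          smul_zero]
        have h1 : mZ e * mR e' = mZ (e + e') := by
          rw [mul_comm, mR_mul_mZ, add_comm]
        have h2 : mZ e' * mR e = mZ (e + e') := by
          rw [mul_comm, mR_mul_mZ]
        have h3 : mR (e + e') * dq 0 = (2 : ℂ) • mZ (e + e') := by
          have : dq 0 = 2 * zz := rfl
          rw [this, mul_left_comm, zz, mR_mul_mZ, add_zero, two_mul, two_smul]
        rw [h1, h2, h3, smul_smul, ← add_smul, ← sub_smul]
        have : c' * c + c * c' - c * c' * 2 = 0 := by ring
        rw [this, zero_smul]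
      · simp only [Pi.smul_apply, Pi.add_apply, Pi.sub_apply, Finset.sum_apply, dd_mR_succ,
          dd_mZ_succ, smul_eq_mul, smul_mul_assoc, mul_smul_comm, smul_smul]
        have h1 : mZ e * mZ (e' - dl l) = ∑ a : Fin 3, mR (e + e' + qv a - dl l) := by
          rw [mZ_mul_mZ]
          refine Finset.sum_congr rfl (fun a _ => ?_)
          congr 1; abel
        have h2 : mZ e' * mZ (e - dl l) = ∑ a : Fin 3, mR (e + e' + qv a - dl l) := by
          rw [mZ_mul_mZ]
          refine Finset.sum_congr rfl (fun a _ => ?_)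
          congr 1; abel
        have h3 : mR (e + e') * dq l.succ = - mR (e + e' + dl (pt l)) := by
          have : dq l.succ = - xx (pt l) := rfl
          rw [this, mul_neg, xx, mR_mul_mR]
        rw [h1, h2, h3, ← qv_apply_sum]
        simp only [smul_neg, sub_neg_eq_add, Finset.smul_sum, smul_smul]
        rw [← Finset.sum_add_distrib, ← Finset.sum_add_distrib]
        refine Finset.sum_congr rfl (fun a _ => ?_)
        rw [← add_smul, ← add_smul]
        congr 1
        push_cast
        ring

/-- The linear form `ξ_i`, with `ξ_i(dq) = 1`. -/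
noncomputable def xiF (i : Fin 6) : Module.Dual LL (Fin 7 → LL) :=
  (-xi i) • LinearMap.proj (R := LL) (φ := fun _ : Fin 7 => LL) (pt i).succ

theorem xiF_apply (i : Fin 6) (v : Fin 7 → LL) : xiF i v = -xi i * v (pt i).succ := rfl

theorem xiF_dq (i : Fin 6) : xiF i dq = 1 := by
  rw [xiF_apply]
  have : dq (pt i).succ = - xx (pt (pt i)) := rfl
  rw [this, pt_pt, neg_mul_neg, xi_mul_xx]

/-- the projection along `dq`. -/
noncomputable def lamF (i : Fin 6) : (Fin 7 → LL) →ₗ[LL] (Fin 7 → LL) :=
  LinearMap.id - (xiF i).smulRight dq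

theorem lamF_apply (i : Fin 6) (v : Fin 7 → LL) : lamF i v = v - xiF i v • dq := by
  simp [lamF]

theorem lamF_dq (i : Fin 6) : lamF i dq = 0 := by
  rw [lamF_apply, xiF_dq, one_smul, sub_self]

/-- The derivation `LL → LL^7` eliminating the variable `x_{pt i}`. -/
noncomputable def derF (i : Fin 6) : Derivation ℂ LL (Fin 7 → LL) :=
  Derivation.mk' ((lamF i).restrictScalars ℂ ∘ₗ dd) (by
    intro f g
    simp only [LinearMap.comp_apply, LinearMap.restrictScalars_apply]
    rw [dd_mul, map_sub, map_add, map_smul, map_smul, map_smul, lamF_dq, smul_zero, sub_zero])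

theorem derF_apply (i : Fin 6) (f : LL) : derF i f = lamF i (dd f) := rfl

/-- `LL^7 → Ω_{LL}`, `e_k ↦ dX_k`. -/
noncomputable def piF : (Fin 7 → LL) →ₗ[LL] Ω[LL⁄ℂ] :=
  (Pi.basisFun LL (Fin 7)).constr LL (fun k => D ℂ LL (XX k))

theorem piF_single (k : Fin 7) : piF (Pi.single k 1) = D ℂ LL (XX k) := by
  have := (Pi.basisFun LL (Fin 7)).constr_basis LL (fun k => D ℂ LL (XX k)) k
  rwa [Pi.basisFun_apply] at this

theorem piF_apply (v : Fin 7 → LL) : piF v = ∑ k, v k • D ℂ LL (XX k) := by
  rw [piF, Module.Basis.constr_apply_fintype]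
  rfl

theorem piF_dq : piF dq = 0 := by
  rw [piF_apply, Fin.sum_univ_succ]
  have h0 : dq 0 = 2 * zz := rfl
  have h1 : ∀ l : Fin 6, dq l.succ = - xx (pt l) := fun _ => rfl
  have h2 : XX 0 = zz := rfl
  have h3 : ∀ l : Fin 6, XX l.succ = xx l := fun _ => rfl
  simp only [h0, h1, h2, h3]
  have hrel := congrArg (D ℂ LL) zz_sq
  simp only [Derivation.leibniz, map_add] at hrel
  rw [Fin.sum_univ_six]
  have hp : pt 0 = 1 ∧ pt 1 = 0 ∧ pt 2 = 3 ∧ pt 3 = 2 ∧ pt 4 = 5 ∧ pt 5 = 4 :=
    ⟨rfl, rfl, rfl, rfl, rfl, rfl⟩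
  obtain ⟨p0, p1, p2, p3, p4, p5⟩ := hp
  rw [p0, p1, p2, p3, p4, p5]
  simp only [neg_smul]
  rw [two_mul, add_smul, hrel]
  abel

/-- The functional `Λ_i : Ω_{LL} → LL^7`. -/
noncomputable def LamF (i : Fin 6) : Ω[LL⁄ℂ] →ₗ[LL] (Fin 7 → LL) :=
  (derF i).liftKaehlerDifferential

theorem LamF_D (i : Fin 6) (f : LL) : LamF i (D ℂ LL f) = lamF i (dd f) := by
  rw [LamF, Derivation.liftKaehlerDifferential_comp_D, derF_apply]

theorem LamF_piF (i : Fin 6) (v : Fin 7 → LL) : LamF i (piF v) = v - xiF i v • dq := by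
  have h : LamF i ∘ₗ piF = lamF i := by
    refine (Pi.basisFun LL (Fin 7)).ext (fun k => ?_)
    rw [LinearMap.comp_apply, Pi.basisFun_apply, piF_single, LamF_D, dd_XX]
  rw [← lamF_apply, ← h]
  rfl

theorem splitData (i : Fin 6) : SplitData piF dq (xiF i) (LamF i) :=
  ⟨piF_dq, xiF_dq i, LamF_piF i⟩

/-- `Df = Σ ∂_k f dX_k`. -/
theorem D_eq (f : LL) : D ℂ LL f = piF (dd f) := by
  -- the derivation `piF ∘ dd`
  let E : Derivation ℂ LL Ω[LL⁄ℂ] := Derivation.mk' (piF.restrictScalars ℂ ∘ₗ dd) (by
    intro f g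
    simp only [LinearMap.comp_apply, LinearMap.restrictScalars_apply]
    rw [dd_mul, map_sub, map_add, map_smul, map_smul, map_smul, piF_dq, smul_zero, sub_zero])
  have hE : ∀ f, E f = piF (dd f) := fun _ => rfl
  let G : Derivation ℂ LL Ω[LL⁄ℂ] := D ℂ LL - E
  have hGx : ∀ l, G (xx l) = 0 := by
    intro l
    have h1 : E (xx l) = D ℂ LL (xx l) := by
      rw [hE, dd_xx, piF_single]
      rfl
    simp only [G, Derivation.sub_apply, h1, sub_self]
  have hGz : G zz = 0 := by
    have h1 : E zz = D ℂ LL zz := by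
      rw [hE, dd_zz, piF_single]
      rfl
    simp only [G, Derivation.sub_apply, h1, sub_self]
  -- the exponents killed by `G`
  let H : AddSubgroup E6 :=
    { carrier := {e | G (mR e) = 0}
      zero_mem' := by
        simp only [Set.mem_ofPred_eq]
        rw [mR_zero, Derivation.map_one_eq_zero]
      add_mem' := by
        intro a b ha hb
        simp only [Set.mem_ofPred_eq] at ha hb ⊢
        rw [← mR_mul_mR, Derivation.leibniz, ha, hb, smul_zero, smul_zero, add_zero]
      neg_mem' := by
        intro a ha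
        simp only [Set.mem_ofPred_eq] at ha ⊢
        have h1 : mR a * mR (-a) = 1 := by rw [mR_mul_mR, add_neg_cancel, mR_zero]
        have h2 := Derivation.leibniz G (mR a) (mR (-a))
        rw [h1, Derivation.map_one_eq_zero, ha, smul_zero, add_zero] at h2
        have h3 := congrArg (fun w => mR (-a) • w) h2
        simp only [smul_zero, smul_smul] at h3
        rw [mul_comm, h1, one_smul] at h3
        exact h3.symm }
  have hH : ∀ e, e ∈ H := by
    intro e
    have he : e = ∑ l, (e l) • dl l := by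
      funext m
      simp [dl, Finset.sum_apply, Pi.single_apply]
    rw [he]
    exact H.sum_mem (fun l _ => H.zsmul_mem (hGx l) _)
  have htop : f ∈ SP (fun _ _ => True) := ⟨fun _ _ => trivial, fun _ _ => trivial⟩
  have hG0 : G f = 0 := by
    refine SP_induction (motive := fun f => G f = 0) ?_ ?_ ?_ ?_ htop
    · simp
    · intro f g hf hg
      rw [map_add, hf, hg, add_zero]
    · intro c e _
      have := hH e
      have h1 : G (mR e) = 0 := this
      rw [Derivation.map_smul, h1, smul_zero]
    · intro c e _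
      have h1 : G (mR e) = 0 := hH e
      have h2 : mZ e = mR e * zz := by rw [zz, mR_mul_mZ, add_zero]
      rw [Derivation.map_smul, h2, Derivation.leibniz, hGz, h1, smul_zero, smul_zero, add_zero, smul_zero]
  have := hG0
  simp only [G, Derivation.sub_apply, hE] at this
  exact sub_eq_zero.1 this

theorem piF_surjective : Function.Surjective piF := by
  rw [← LinearMap.range_eq_top, eq_top_iff, ← KaehlerDifferential.span_range_derivation ℂ LL,
    Submodule.span_le]
  rintro _ ⟨f, rfl⟩
  exact ⟨dd f, (D_eq f).symm⟩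

end Pool.Agent.Hhelper18.DB
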