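import Mathlib
import Pool.Agent.Hhelper18.DB.Kahler

/-! Lattices in exterior powers, and the Koszul chase. -/

namespace Pool.Agent.Hhelper18.DB

open Module

section General

variable {ι : Type} [DecidableEq ι] {M N : Type*} [AddCommGroup M] [AddCommGroup N]

/-- Transport along an injective map. -/
theorem acyc_of_injective {P : Finset ι → AddSubgroup M} {P' : Finset ι → AddSubgroup N}
    (f : M →+ N) (hf : Function.Injective f) (hP : ∀ S, S.Nonempty → ∀ y, y ∈ P' S ↔ ∃ x ∈ P S, f x = y)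
    {n : ℕ} : Acyc P' n ↔ Acyc P n := by
  constructor
  · intro h φ hφ hd
    obtain ⟨ψ, hψ, hdψ⟩ := h (fun s => f (φ s)) (fun s => (hP _ (img_nonempty s) _).2 ⟨_, hφ s, rfl⟩)
      (by rw [cd_map, hd]; funext s; simp)
    choose χ hχ hχ' using fun s => (hP _ (img_nonempty s) _).1 (hψ s)
    refine ⟨χ, hχ, ?_⟩
    funext s
    apply hf
    rw [← congrFun hdψ s, ← congrFun (cd_map n f χ) s]
    congr 1
    funext t
    exact hχ' t
  · intro h φ hφ hd
    choose χ hχ hχ' using fun s => (hP _ (img_nonempty s) _).1 (hφ s)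
    have hd' : cd (n + 1) χ = 0 := by
      funext s
      apply hf
      rw [← congrFun (cd_map (n + 1) f χ) s]
      have : (fun s => f (χ s)) = φ := by funext t; exact hχ' t
      rw [this, hd]
      simp
    obtain ⟨ψ, hψ, hdψ⟩ := h χ hχ hd'
    refine ⟨fun s => f (ψ s), fun s => (hP _ (img_nonempty s) _).2 ⟨_, hψ s, rfl⟩, ?_⟩
    rw [cd_map, hdψ]
    funext s
    exact hχ' s

/-- The two halves of the long exact sequence of `0 → P → Q → R → 0`. -/
theorem acyc_right {P Q : Finset ι → AddSubgroup M} {R : Finset ι → AddSubgroup N} (g : M →+ N)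
    (hQ : ∀ S T, S ⊆ T → Q S ≤ Q T)
    (hPQ : ∀ S, P S ≤ Q S) (hR : ∀ S, S.Nonempty → ∀ y, y ∈ R S ↔ ∃ x ∈ Q S, g x = y)
    (hP : ∀ S, S.Nonempty → ∀ x, x ∈ Q S → g x = 0 → x ∈ P S) (hPg : ∀ S, ∀ x ∈ P S, g x = 0)
    {n : ℕ} (h1 : Acyc Q n) (h2 : Acyc P (n + 1)) : Acyc R n := by
  intro φ hφ hd
  choose χ hχ hχ' using fun s => (hR _ (img_nonempty s) _).1 (hφ s)
  have hχφ : (fun s => g (χ s)) = φ := by funext t; exact hχ' t
  have hd' : ∀ s, g (cd (n + 1) χ s) = 0 := by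
    intro s
    rw [← congrFun (cd_map (n + 1) g χ) s, hχφ, hd]
    rfl
  have hco : IsCo P (n + 1 + 1) (cd (n + 1) χ) := fun s =>
    hP _ (img_nonempty s) _ (IsCo.cd hQ hχ s) (hd' s)
  obtain ⟨ψ, hψ, hdψ⟩ := h2 _ hco (cd_cd _ _)
  obtain ⟨θ, hθ, hdθ⟩ := h1 (χ - ψ) (fun s => AddSubgroup.sub_mem _ (hχ s) (hPQ _ (hψ s)))
    (by rw [cd_sub, hdψ, sub_self])
  refine ⟨fun s => g (θ s), fun s => (hR _ (img_nonempty s) _).2 ⟨_, hθ s, rfl⟩, ?_⟩
  rw [cd_map, hdθ]
  funext s
  simp only [Pi.sub_apply, map_sub, hPg _ _ (hψ s), sub_zero, hχ' s]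

theorem acyc_left {P Q : Finset ι → AddSubgroup M} {R : Finset ι → AddSubgroup N} (g : M →+ N)
    (hQ : ∀ S T, S ⊆ T → Q S ≤ Q T)
    (hPQ : ∀ S, P S ≤ Q S) (hR : ∀ S, S.Nonempty → ∀ y, y ∈ R S ↔ ∃ x ∈ Q S, g x = y)
    (hP : ∀ S, S.Nonempty → ∀ x, x ∈ Q S → g x = 0 → x ∈ P S) (hPg : ∀ S, ∀ x ∈ P S, g x = 0)
    {n : ℕ} (h1 : Acyc R n) (h2 : Acyc Q (n + 1)) : Acyc P (n + 1) := by
  intro φ hφ hd
  obtain ⟨χ, hχ, hdχ⟩ := h2 φ (fun s => hPQ _ (hφ s)) hd
  have hg : cd (n + 1) (fun s => g (χ s)) = 0 := by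
    rw [cd_map, hdχ]
    funext s
    exact hPg _ _ (hφ s)
  obtain ⟨θ, hθ, hdθ⟩ := h1 (fun s => g (χ s))
    (fun s => (hR _ (img_nonempty s) _).2 ⟨_, hχ s, rfl⟩) hg
  choose θ' hθ' hθ'' using fun s => (hR _ (img_nonempty s) _).1 (hθ s)
  have hθθ : (fun s => g (θ' s)) = θ := by funext t; exact hθ'' t
  refine ⟨χ - cd n θ', fun s => hP _ (img_nonempty s) _ ?_ ?_, ?_⟩
  · exact AddSubgroup.sub_mem _ (hχ s) (IsCo.cd hQ hθ' s)
  · rw [Pi.sub_apply, map_sub, ← congrFun (cd_map n g θ') s, hθθ, hdθ, sub_self]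
  · rw [cd_sub, cd_cd, sub_zero, hdχ]

end General

/-- the basis of `LL^7` -/
noncomputable def bb : Basis (Fin 7) LL (Fin 7 → LL) := Pi.basisFun LL (Fin 7)

/-- exterior products of basis vectors -/
noncomputable def eK {p : ℕ} (K : Fin p → Fin 7) : ⋀[LL]^p (Fin 7 → LL) :=
  exteriorPower.ιMulti LL p (fun j => bb (K j))

/-- coordinates on exterior powers -/
noncomputable def co (p : ℕ) (t : Set.powersetCard (Fin 7) p) : ⋀[LL]^p (Fin 7 → LL) →ₗ[LL] LL :=
  (bb.exteriorPower p).coord t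

theorem co_ext {p : ℕ} {x y : ⋀[LL]^p (Fin 7 → LL)} (h : ∀ t, co p t x = co p t y) : x = y :=
  Basis.ext_elem (bb.exteriorPower p) h

theorem co_eK {p : ℕ} (K : Fin p → Fin 7) (t : Set.powersetCard (Fin 7) p) :
    ∃ m : ℤ, co p t (eK K) = (m : LL) := by
  rw [co, exteriorPower.basis_coord, eK, exteriorPower.ιMultiDual_apply_ιMulti]
  refine ⟨(Matrix.of fun i j => if K i = Set.powersetCard.ofFinEmbEquiv.symm t j then (1 : ℤ)
    else 0).det, ?_⟩
  rw [Int.cast_det]
  congr 1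
  ext1 i j
  simp only [Matrix.of_apply, Matrix.map_apply, Basis.coord_apply, Basis.repr_self,
    Finsupp.single_apply]
  split_ifs <;> simp

theorem eq_sum_co {p : ℕ} (x : ⋀[LL]^p (Fin 7 → LL)) :
    x = ∑ t, co p t x • bb.exteriorPower p t := (Basis.sum_repr (bb.exteriorPower p) x).symm

/-- The lattice of forms with coordinates in `B S D`. -/
def FV (S : Finset (Fin 6)) (p : ℕ) (D : Set ℤ) : AddSubgroup (⋀[LL]^p (Fin 7 → LL)) where
  carrier := {ω | ∀ t, co p t ω ∈ B S D}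
  zero_mem' := fun t => by rw [map_zero]; exact Submodule.zero_mem _
  add_mem' := fun {a b} ha hb t => by rw [map_add]; exact Submodule.add_mem _ (ha t) (hb t)
  neg_mem' := fun {a} ha t => by rw [map_neg]; exact Submodule.neg_mem _ (ha t)

theorem mem_FV {S : Finset (Fin 6)} {p : ℕ} {D : Set ℤ} {ω : ⋀[LL]^p (Fin 7 → LL)} :
    ω ∈ FV S p D ↔ ∀ t, co p t ω ∈ B S D := Iff.rfl

theorem FV_mono {S S' : Finset (Fin 6)} {p : ℕ} {D D' : Set ℤ} (hS : S ⊆ S') (hD : D ⊆ D') :
    FV S p D ≤ FV S' p D' := fun _ h t => B_mono hS hD (h t)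

theorem smul_eK_mem {S : Finset (Fin 6)} {p : ℕ} {D : Set ℤ} {a : LL} (ha : a ∈ B S D)
    (K : Fin p → Fin 7) : a • eK K ∈ FV S p D := by
  intro t
  obtain ⟨m, hm⟩ := co_eK K t
  rw [map_smul, hm, smul_eq_mul, mul_comm, ← zsmul_eq_mul]
  exact (B S D).toAddSubgroup.zsmul_mem ha m

theorem FV_induction {S : Finset (Fin 6)} {p : ℕ} {D : Set ℤ}
    {motive : ⋀[LL]^p (Fin 7 → LL) → Prop} (h0 : motive 0)
    (hadd : ∀ x y, motive x → motive y → motive (x + y))
    (hsmul : ∀ a ∈ B S D, ∀ K : Fin p → Fin 7, motive (a • eK K)) {x : ⋀[LL]^p (Fin 7 → LL)}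
    (hx : x ∈ FV S p D) : motive x := by
  classical
  rw [eq_sum_co x]
  have : ∀ s : Finset (Set.powersetCard (Fin 7) p),
      motive (∑ t ∈ s, co p t x • bb.exteriorPower p t) := by
    intro s
    induction s using Finset.induction_on with
    | empty => simpa using h0
    | insert a s ha ih =>
      rw [Finset.sum_insert ha]
      refine hadd _ _ ?_ ih
      rw [exteriorPower.basis_apply]
      exact hsmul _ (hx a) _
  exact this _

theorem wedge_eK {p : ℕ} (k : Fin 7) (K : Fin p → Fin 7) :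
    wedge (bb k) p (eK K) = eK (Fin.cons k K : Fin (p + 1) → Fin 7) := by
  ext
  rw [wedge_coe, eK, eK, exteriorPower.ιMulti_apply_coe, exteriorPower.ιMulti_apply_coe,
    ExteriorAlgebra.ιMulti_succ_apply]
  rfl

theorem wedge_sum_smul {p : ℕ} (v : Fin 7 → LL) (x : ⋀[LL]^p (Fin 7 → LL)) :
    wedge v p x = ∑ k, v k • wedge (bb k) p x := by
  ext
  rw [wedge_coe]
  have hv : v = ∑ k, v k • bb k := by
    conv_lhs => rw [← bb.sum_repr v]
    rfl
  conv_lhs => rw [hv, map_sum, Finset.sum_mul]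
  rw [AddSubmonoidClass.coe_finsetSum]
  refine Finset.sum_congr rfl (fun k _ => ?_)
  rw [map_smul, smul_mul_assoc]
  rfl

/-- wedging with a vector -/
theorem wedge_mem_FV {S : Finset (Fin 6)} {p : ℕ} {D D' D'' : Set ℤ}
    (hD : ∀ a ∈ D', ∀ b ∈ D, a + b ∈ D'') {v : Fin 7 → LL} (hv : ∀ k, v k ∈ B S D')
    {x : ⋀[LL]^p (Fin 7 → LL)} (hx : x ∈ FV S p D) : wedge v p x ∈ FV S (p + 1) D'' := by
  refine FV_induction (motive := fun x => wedge v p x ∈ FV S (p + 1) D'') ?_ ?_ ?_ hx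
  · rw [map_zero]; exact AddSubgroup.zero_mem _
  · intro x y hx hy
    rw [map_add]; exact AddSubgroup.add_mem _ hx hy
  · intro a ha K
    rw [wedge_sum_smul]
    refine AddSubgroup.sum_mem _ (fun k _ => ?_)
    rw [map_smul, wedge_eK, smul_smul]
    exact smul_eK_mem (B_mul hD (hv k) ha) _

theorem contr_smul_eK_mem {S : Finset (Fin 6)} {D' : Set ℤ} {ξ : Module.Dual LL (Fin 7 → LL)}
    (hξ : ∀ k, ξ (bb k) ∈ B S D') : ∀ (p : ℕ) (K : Fin (p + 1) → Fin 7),
    contr ξ p (eK K) ∈ FV S p D' := by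
  have hcons : ∀ (p : ℕ) (K : Fin (p + 1) → Fin 7),
      eK K = wedge (bb (K 0)) p (eK (fun j : Fin p => K j.succ)) := by
    intro p K
    rw [wedge_eK]
    congr 1
    funext j
    refine Fin.cases ?_ (fun j => ?_) j <;> simp
  intro p
  induction p with
  | zero =>
    intro K
    rw [hcons, contr_wedge_zero]
    exact smul_eK_mem (hξ _) _
  | succ p ih =>
    intro K
    rw [hcons, contr_wedge_succ]
    refine AddSubgroup.sub_mem _ (smul_eK_mem (hξ _) _) ?_
    refine wedge_mem_FV (D := D') (D' := {0}) ?_ ?_ (ih _)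
    · intro a ha b hb
      rw [Set.mem_singleton_iff.1 ha, zero_add]; exact hb
    · intro k
      by_cases hk : k = K 0
      · have : bb (K 0) k = 1 := by
          rw [hk, bb, Pi.basisFun_apply, Pi.single_eq_same]
        rw [this]
        exact one_mem_B S rfl
      · have : bb (K 0) k = 0 := by
          rw [bb, Pi.basisFun_apply, Pi.single_eq_of_ne hk]
        rw [this]
        exact Submodule.zero_mem _

theorem contr_mem_FV {S : Finset (Fin 6)} {p : ℕ} {D D' D'' : Set ℤ}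
    (hD : ∀ a ∈ D, ∀ b ∈ D', a + b ∈ D'') {ξ : Module.Dual LL (Fin 7 → LL)}
    (hξ : ∀ k, ξ (bb k) ∈ B S D')
    {x : ⋀[LL]^(p + 1) (Fin 7 → LL)} (hx : x ∈ FV S (p + 1) D) : contr ξ p x ∈ FV S p D'' := by
  refine FV_induction (motive := fun x => contr ξ p x ∈ FV S p D'') ?_ ?_ ?_ hx
  · rw [map_zero]; exact AddSubgroup.zero_mem _
  · intro x y hx hy
    rw [map_add]; exact AddSubgroup.add_mem _ hx hy
  · intro a ha K t
    rw [map_smul, map_smul, smul_eq_mul]
    exact B_mul hD ha (contr_smul_eK_mem hξ p K t)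

/-- shift of a set of degrees by one -/
def sh (D : Set ℤ) : Set ℤ := {d | d + 1 ∈ D}

theorem dq_mem (S : Finset (Fin 6)) (k : Fin 7) : dq k ∈ B S {1} := by
  refine Fin.cases ?_ (fun l => ?_) k
  · have : dq 0 = zz + zz := by
      have : dq 0 = 2 * zz := rfl
      rw [this, two_mul]
    rw [this]
    exact Submodule.add_mem _ (zz_mem S) (zz_mem S)
  · have : dq l.succ = - xx (pt l) := rfl
    rw [this]
    exact Submodule.neg_mem _ (xx_mem S _)

theorem xiF_mem {S : Finset (Fin 6)} {i : Fin 6} (hi : i ∈ S) (k : Fin 7) :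
    xiF i (bb k) ∈ B S {-1} := by
  rw [xiF_apply, bb, Pi.basisFun_apply]
  by_cases h : (pt i).succ = k
  · rw [← h, Pi.single_eq_same, mul_one]
    exact Submodule.neg_mem _ (xi_mem hi)
  · rw [Pi.single_eq_of_ne h, mul_zero]
    exact Submodule.zero_mem _

theorem wedge_dq_mem {S : Finset (Fin 6)} {p : ℕ} {D : Set ℤ} {x : ⋀[LL]^p (Fin 7 → LL)}
    (hx : x ∈ FV S p (sh D)) : wedge dq p x ∈ FV S (p + 1) D := by
  refine wedge_mem_FV (D := sh D) (D' := {1}) ?_ (dq_mem S) hx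
  intro a ha b hb
  rw [Set.mem_singleton_iff.1 ha, add_comm]; exact hb

theorem contr_xiF_mem {S : Finset (Fin 6)} {p : ℕ} {D : Set ℤ} {i : Fin 6} (hi : i ∈ S)
    {x : ⋀[LL]^(p + 1) (Fin 7 → LL)} (hx : x ∈ FV S (p + 1) D) :
    contr (xiF i) p x ∈ FV S p (sh D) := by
  refine contr_mem_FV (D := D) (D' := {-1}) ?_ (xiF_mem hi) hx
  intro a ha b hb
  rw [Set.mem_singleton_iff.1 hb]
  simpa [sh] using ha

/-- cutting coordinates -/
noncomputable def cutV (P : E6 → ℤ → Prop) (p : ℕ) :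
    ⋀[LL]^p (Fin 7 → LL) →+ ⋀[LL]^p (Fin 7 → LL) where
  toFun ω := ∑ t, cut P (co p t ω) • bb.exteriorPower p t
  map_zero' := by simp
  map_add' x y := by
    rw [← Finset.sum_add_distrib]
    refine Finset.sum_congr rfl (fun t _ => ?_)
    rw [map_add, map_add, add_smul]

theorem co_cutV (P : E6 → ℤ → Prop) (p : ℕ) (ω : ⋀[LL]^p (Fin 7 → LL))
    (t : Set.powersetCard (Fin 7) p) : co p t (cutV P p ω) = cut P (co p t ω) := by
  change (bb.exteriorPower p).repr (∑ t, cut P (co p t ω) • bb.exteriorPower p t) t = _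
  rw [Basis.repr_sum_self]

theorem acyc_FV (p : ℕ) {D : Set ℤ} (hD : ∀ d ∈ D, -4 ≤ d) (n : ℕ) :
    Acyc (fun S => FV S p D) n := by
  refine acyc_of_decomposition (Finset.univ : Finset (Fin 6)) (fun j => cutV (first j) p)
    ?_ ?_ ?_ n
  · intro S x hx
    refine co_ext (fun t => ?_)
    rw [map_sum]
    simp only [co_cutV]
    exact sum_cut_first hD (hx t)
  · intro j _ S x hx t
    rw [co_cutV]
    exact cut_first_mem j (hx t)
  · intro j _ S x hx t
    rw [co_cutV]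
    exact cut_first_mem_insert j (hx t)

/-- The image of `FV` under wedging with `dq`. -/
noncomputable def WV (S : Finset (Fin 6)) (p : ℕ) (D : Set ℤ) :
    AddSubgroup (⋀[LL]^(p + 1) (Fin 7 → LL)) :=
  (FV S p D).map (wedge dq p).toAddMonoidHom

theorem mem_WV {S : Finset (Fin 6)} {p : ℕ} {D : Set ℤ} {y : ⋀[LL]^(p + 1) (Fin 7 → LL)} :
    y ∈ WV S p D ↔ ∃ x ∈ FV S p D, wedge dq p x = y := Iff.rfl

theorem WV_le {S : Finset (Fin 6)} {p : ℕ} {D : Set ℤ} : WV S p (sh D) ≤ FV S (p + 1) D := by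
  rintro _ ⟨x, hx, rfl⟩
  exact wedge_dq_mem hx

theorem WV_exact {S : Finset (Fin 6)} (hS : S.Nonempty) {p : ℕ} {D : Set ℤ}
    {x : ⋀[LL]^(p + 1) (Fin 7 → LL)} (hx : x ∈ FV S (p + 1) D) (h0 : wedge dq (p + 1) x = 0) :
    x ∈ WV S p (sh D) := by
  obtain ⟨i, hi⟩ := hS
  have h1 := ((splitData i).wedge_eq_zero_iff (p + 1) x).1 h0
  have h2 := (splitData i).eq_wedge p h1
  exact ⟨_, contr_xiF_mem hi hx, h2.symm⟩

theorem acyc_WV_right {p : ℕ} {D : Set ℤ} {n : ℕ} (h1 : Acyc (fun S => FV S (p + 1) D) n)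
    (h2 : Acyc (fun S => WV S p (sh D)) (n + 1)) : Acyc (fun S => WV S (p + 1) D) n :=
  acyc_right (wedge dq (p + 1)).toAddMonoidHom (fun _ _ h => FV_mono h subset_rfl)
    (fun _ => WV_le) (fun _ _ _ => Iff.rfl) (fun _ hS _ hx h0 => WV_exact hS hx h0)
    (by rintro S _ ⟨x, hx, rfl⟩; exact wedge_wedge dq p x) h1 h2

theorem acyc_WV_left {p : ℕ} {D : Set ℤ} {n : ℕ} (h1 : Acyc (fun S => WV S (p + 1) D) n)
    (h2 : Acyc (fun S => FV S (p + 1) D) (n + 1)) : Acyc (fun S => WV S p (sh D)) (n + 1) :=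
  acyc_left (wedge dq (p + 1)).toAddMonoidHom (fun _ _ h => FV_mono h subset_rfl)
    (fun _ => WV_le) (fun _ _ _ => Iff.rfl) (fun _ hS _ hx h0 => WV_exact hS hx h0)
    (by rintro S _ ⟨x, hx, rfl⟩; exact wedge_wedge dq p x) h1 h2

theorem wedge_zero_injective : Function.Injective (wedge (R := LL) dq 0) := by
  rw [← LinearMap.ker_eq_bot, LinearMap.ker_eq_bot']
  intro x hx
  exact (splitData 0).eq_zero (((splitData 0).wedge_eq_zero_iff 0 x).1 hx)

theorem acyc_WV_zero {D : Set ℤ} {n : ℕ} :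
    Acyc (fun S => WV S 0 D) n ↔ Acyc (fun S => FV S 0 D) n :=
  acyc_of_injective (wedge dq 0).toAddMonoidHom wedge_zero_injective (fun _ _ _ => Iff.rfl)

/-- Acyclicity of the positive twists. -/
theorem acyc_WV : ∀ (p : ℕ) {D : Set ℤ}, (∀ d ∈ D, (p : ℤ) - 4 ≤ d) → ∀ n,
    Acyc (fun S => WV S p D) n := by
  intro p
  induction p with
  | zero =>
    intro D hD n
    exact acyc_WV_zero.2 (acyc_FV 0 (fun d hd => by simpa using hD d hd) n)
  | succ p ih =>
    intro D hD n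
    refine acyc_WV_right (acyc_FV _ (fun d hd => ?_) n) (ih (fun d hd => ?_) _)
    · have := hD d hd
      push_cast at this
      omega
    · have := hD _ hd
      push_cast at this
      omega

/-- The antisymmetric function on tuples. -/
def sgn6 (s : Fin 6 → Fin 6) : ℤ := (Matrix.of fun i j : Fin 6 => if s i = j then (1 : ℤ) else 0).det

theorem cd_sgn6 : cd 5 sgn6 = 0 := by
  funext s
  let M : Matrix (Fin 7) (Fin 7) ℤ := Matrix.of fun i j =>
    Fin.cases (motive := fun _ => ℤ) 1 (fun j : Fin 6 => if s i = j then (1 : ℤ) else 0) j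
  have h1 : M.det = cd 5 sgn6 s := by
    rw [Matrix.det_succ_column_zero]
    refine Finset.sum_congr rfl (fun k _ => ?_)
    have : M k 0 = 1 := rfl
    rw [this, mul_one, smul_eq_mul]
    rfl
  have h2 : M.det = 0 := by
    have hv : M.mulVec (Fin.cons 1 (fun _ => -1)) = 0 := by
      funext i
      rw [Matrix.mulVec, dotProduct, Fin.sum_univ_succ]
      simp [M]
    refine Matrix.exists_mulVec_eq_zero_iff.1 ⟨Fin.cons 1 (fun _ => -1), ?_, hv⟩
    intro h
    have := congrFun h 0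
    simp at this
  rw [← h1, h2]
  rfl

theorem sgn6_id : sgn6 id = 1 := by
  unfold sgn6
  have : (Matrix.of fun i j : Fin 6 => if id i = j then (1 : ℤ) else 0) = 1 := by
    ext i j
    simp [Matrix.one_apply]
  rw [this, Matrix.det_one]

theorem sgn6_eq_zero {s : Fin 6 → Fin 6} (h : ¬ Function.Surjective s) : sgn6 s = 0 := by
  simp only [Function.Surjective, not_forall, not_exists] at h
  obtain ⟨j, hj⟩ := h
  refine Matrix.det_eq_zero_of_column_eq_zero j (fun i => ?_)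
  simp [hj i]

/-- the exponent `-(1,…,1)` -/
def mo : E6 := fun _ => -1

/-- The nonvanishing cohomology class. -/
theorem not_acyc_B {D : Set ℤ} (hD : (-5 : ℤ) ∈ D) :
    ¬ Acyc (fun S => (B S D).toAddSubgroup) 4 := by
  intro h
  have hco : IsCo (fun S => (B S D).toAddSubgroup) 5 (fun s => sgn6 s • mZ mo) := by
    intro s
    by_cases hs : Function.Surjective s
    · refine AddSubgroup.zsmul_mem _ ?_ _
      refine mZ_mem ⟨fun l _ => ?_, ?_⟩
      · obtain ⟨a, ha⟩ := hs l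
        simp only [img, Finset.mem_image, Finset.mem_univ, true_and]
        exact ⟨a, ha⟩
      · have : dg mo + 1 = -5 := by simp [dg, mo]
        rw [this]; exact hD
    · simp only [sgn6_eq_zero hs, zero_smul]
      exact AddSubgroup.zero_mem _
  have hd : cd 5 (fun s => sgn6 s • mZ mo) = 0 := by
    funext s
    have h1 := congrFun (cd_map 5 ((zmultiplesHom LL) (mZ mo)) sgn6) s
    rw [cd_sgn6] at h1
    refine Eq.trans h1 ?_
    simp
  obtain ⟨ψ, hψ, hdψ⟩ := h _ hco hd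
  have h1 : cd 4 ψ id = mZ mo := by
    refine Eq.trans (congrFun hdψ id) ?_
    change sgn6 id • mZ mo = mZ mo
    rw [sgn6_id]
    exact one_smul ℤ _
  -- take the coefficient of `z x^{-(1,…,1)}`
  let c : LL →+ ℂ :=
    { toFun := fun f => f.im.coeff mo
      map_zero' := by simp
      map_add' := by intro f g; simp }
  have h2 : c (cd 4 ψ id) = 0 := by
    rw [cd, map_sum]
    refine Finset.sum_eq_zero (fun k _ => ?_)
    rw [map_zsmul]
    have h3 := hψ (id ∘ k.succAbove)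
    have h4 : c (ψ (id ∘ k.succAbove)) = 0 := by
      by_contra hne
      have h5 := (h3.2 mo hne).1 k (by simp [mo])
      simp only [img, Finset.mem_image, Finset.mem_univ, true_and, Function.comp_apply, id_eq] at h5
      obtain ⟨a, ha⟩ := h5
      exact Fin.succAbove_ne k a ha
    rw [h4, smul_zero]
  rw [h1] at h2
  have h3 : c (mZ mo) = 1 := by
    simp [c, mZ]
  rw [h3] at h2
  exact one_ne_zero h2

/-- `⋀^0` is `LL`. -/
theorem acyc_FV_zero {D : Set ℤ} {n : ℕ} :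
    Acyc (fun S => FV S 0 D) n ↔ Acyc (fun S => (B S D).toAddSubgroup) n := by
  let t0 : Set.powersetCard (Fin 7) 0 := ⟨∅, by simp⟩
  have ht : ∀ t : Set.powersetCard (Fin 7) 0, t = t0 := by
    rintro ⟨t, ht⟩
    have : t = ∅ := by simpa using ht
    subst this
    rfl
  symm
  refine acyc_of_injective (co 0 t0).toAddMonoidHom ?_ ?_
  · intro x y hxy
    refine co_ext (fun t => ?_)
    rw [ht t]
    exact hxy
  · intro S _ y
    constructor
    · intro hy
      refine ⟨y • bb.exteriorPower 0 t0, fun t => ?_, ?_⟩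
      · rw [map_smul, ht t]
        have : co 0 t0 (bb.exteriorPower 0 t0) = 1 := by
          simp [co]
        rw [this, smul_eq_mul, mul_one]
        exact hy
      · change co 0 t0 (y • bb.exteriorPower 0 t0) = y
        rw [map_smul]
        have : co 0 t0 (bb.exteriorPower 0 t0) = 1 := by
          simp [co]
        rw [this, smul_eq_mul, mul_one]
    · rintro ⟨x, hx, rfl⟩
      exact hx t0

/-- Nonvanishing of `H¹` in form degree four. -/
theorem not_acyc_WV {D : Set ℤ} (hD : ∀ d ∈ D, -1 ≤ d) (h1 : (-1 : ℤ) ∈ D) :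
    ¬ Acyc (fun S => WV S 4 D) 0 := by
  intro h
  have a1 := acyc_WV_left h (acyc_FV 4 (fun d hd => by have := hD d hd; omega) 1)
  have a2 := acyc_WV_left a1 (acyc_FV 3 (fun d hd => by have := hD _ hd; omega) 2)
  have a3 := acyc_WV_left a2 (acyc_FV 2 (fun d hd => by have := hD _ hd; omega) 3)
  have a4 := acyc_WV_left a3 (acyc_FV 1 (fun d hd => by have := hD _ hd; omega) 4)
  have a5 := acyc_FV_zero.1 (acyc_WV_zero.1 a4)
  refine not_acyc_B ?_ a5
  exact h1

end Pool.Agent.Hhelper18.DB
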