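import Mathlib
import Pool.Agent.Hhelper18.DB.Lattice
import Pool.Agent.Hhelper18.DB.FormsLemmas

/-! Chart coordinates. -/

namespace Pool.Agent.Hhelper18.DB

open KaehlerDifferential Pool.Agent.Hhelper18.DuBois Module

/-- nonnegative multiples of three -/
def D0 : Set ℤ := {d | 0 ≤ d ∧ 3 ∣ d}

/-- positive multiples of three -/
def D1 : Set ℤ := {d | 0 < d ∧ 3 ∣ d}

theorem D1_le : D1 ⊆ D0 := fun _ h => ⟨h.1.le, h.2⟩

/-- index set of chart coordinates -/
abbrev I6 (i : Fin 6) := {k : Fin 7 // k ≠ (pt i).succ}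

/-- the functions `X_k / x_i` -/
noncomputable def Yv (i : Fin 6) (k : Fin 7) : LL := XX k * xi i

/-- the chart coordinates -/
noncomputable def YY (i : Fin 6) (k : Fin 7) : LL := if k = i.succ then xx i ^ 3 else Yv i k

theorem YY_self (i : Fin 6) : YY i i.succ = xx i ^ 3 := if_pos rfl

theorem YY_of_ne {i : Fin 6} {k : Fin 7} (h : k ≠ i.succ) : YY i k = Yv i k := if_neg h

theorem XX_mem (S : Finset (Fin 6)) (k : Fin 7) : XX k ∈ B S {1} := by
  refine Fin.cases ?_ (fun l => ?_) k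
  · exact zz_mem S
  · exact xx_mem S l

theorem Yv_mem {S : Finset (Fin 6)} {i : Fin 6} (hi : i ∈ S) (k : Fin 7) : Yv i k ∈ B S {0} := by
  refine B_mul (D₁ := {1}) (D₂ := {-1}) ?_ (XX_mem S k) (xi_mem hi)
  intro a ha b hb
  rw [Set.mem_singleton_iff.1 ha, Set.mem_singleton_iff.1 hb]
  rfl

theorem xx_cube (i : Fin 6) : xx i ^ 3 = mR ((3 : ℤ) • dl i) := by
  have h : xx i ^ 3 = xx i * xx i * xx i := by ring
  rw [h, xx, mR_mul_mR, mR_mul_mR]
  congr 1
  have : (3 : ℤ) = 1 + 1 + 1 := by norm_num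
  rw [this, add_smul, add_smul, one_smul]

theorem mR_pow (e : E6) (n : ℕ) : mR e ^ n = mR ((n : ℤ) • e) := by
  induction n with
  | zero => simp [mR_zero]
  | succ n ih =>
    rw [pow_succ, ih, mR_mul_mR]
    congr 1
    push_cast
    rw [add_smul, one_smul]

theorem dg_smul (n : ℤ) (e : E6) : dg (n • e) = n * dg e := by
  simp [dg, Finset.mul_sum]

theorem dg_neg (e : E6) : dg (-e) = - dg e := by
  simp [dg]

theorem dg_sub (e e' : E6) : dg (e - e') = dg e - dg e' := by
  simp [dg]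

theorem cube_mem (S : Finset (Fin 6)) (i : Fin 6) : xx i ^ 3 ∈ B S {3} := by
  rw [xx_cube]
  refine mR_mem ⟨fun m hm => ?_, ?_⟩
  · have : (0 : ℤ) ≤ dl i m := by
      simp only [dl, Pi.single_apply]; split_ifs <;> norm_num
    simp only [Pi.smul_apply, smul_eq_mul] at hm
    omega
  · rw [dg_smul, dg_dl]; simp

theorem YY_mem {S : Finset (Fin 6)} {i : Fin 6} (hi : i ∈ S) (k : Fin 7) : YY i k ∈ B S D0 := by
  by_cases h : k = i.succ
  · rw [h, YY_self]
    refine B_mono subset_rfl ?_ (cube_mem S i)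
    intro d hd
    rw [Set.mem_singleton_iff.1 hd]
    exact ⟨by norm_num, dvd_rfl⟩
  · rw [YY_of_ne h]
    refine B_mono subset_rfl ?_ (Yv_mem hi k)
    intro d hd
    rw [Set.mem_singleton_iff.1 hd]
    exact ⟨le_rfl, dvd_zero _⟩

/-! ### The basis of `Ω_LL` given by a chart -/

theorem span_D_XX (i : Fin 6) : ⊤ ≤ Submodule.span LL
    (Set.range (fun k : I6 i => D ℂ LL (XX k.1))) := by
  rintro y -
  obtain ⟨v, rfl⟩ := piF_surjective y
  have h1 : piF v = piF (lamF i v) := by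
    rw [lamF_apply, map_sub, map_smul, piF_dq, smul_zero, sub_zero]
  rw [h1, piF_apply]
  refine Submodule.sum_mem _ (fun k _ => ?_)
  by_cases hk : k = (pt i).succ
  · have h2 : lamF i v k = 0 := by
      rw [hk, lamF_apply, Pi.sub_apply, Pi.smul_apply, xiF_apply]
      have : dq (pt i).succ = - xx (pt (pt i)) := rfl
      rw [this, pt_pt, smul_eq_mul]
      have h3 : -xi i * v (pt i).succ * -xx i = (xi i * xx i) * v (pt i).succ := by ring
      rw [h3, xi_mul_xx, one_mul, sub_self]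
    rw [h2, zero_smul]
    exact Submodule.zero_mem _
  · exact Submodule.smul_mem _ _ (Submodule.subset_span ⟨⟨k, hk⟩, rfl⟩)

theorem indep_D_XX (i : Fin 6) : LinearIndependent LL (fun k : I6 i => D ℂ LL (XX k.1)) := by
  refine LinearIndependent.of_comp (LamF i) ?_
  have h : (LamF i ∘ fun k : I6 i => D ℂ LL (XX k.1)) =
      fun k : I6 i => (Pi.single k.1 1 : Fin 7 → LL) := by
    funext k
    rw [Function.comp_apply, ← piF_single, LamF_piF, xiF_apply,
      Pi.single_eq_of_ne (fun h => k.2 h.symm), mul_zero, zero_smul, sub_zero]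
  rw [h]
  have h2 := (Pi.basisFun LL (Fin 7)).linearIndependent
  have h3 := h2.comp (fun k : I6 i => k.1) Subtype.val_injective
  have h4 : (⇑(Pi.basisFun LL (Fin 7)) ∘ fun k : I6 i => k.1) =
      fun k : I6 i => (Pi.single k.1 1 : Fin 7 → LL) := by
    funext k
    rw [Function.comp_apply, Pi.basisFun_apply]
  rwa [h4] at h3

/-- the basis `dX_k` -/
noncomputable def betaB (i : Fin 6) : Basis (I6 i) LL Ω[LL⁄ℂ] :=
  Basis.mk (indep_D_XX i) (span_D_XX i)

theorem betaB_apply (i : Fin 6) (k : I6 i) : betaB i k = D ℂ LL (XX k.1) := by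
  rw [betaB, Basis.mk_apply]

theorem D_xx_eq (i : Fin 6) : D ℂ LL (xx i) = (((3 : ℂ)⁻¹) • (xi i * xi i)) • D ℂ LL (xx i ^ 3) := by
  have h : xx i ^ 3 = xx i * (xx i * xx i) := by ring
  rw [h, Derivation.leibniz, Derivation.leibniz]
  simp only [smul_add, smul_smul]
  have h1 : ((3 : ℂ)⁻¹ • (xi i * xi i)) * (xx i * xx i) = ((3 : ℂ)⁻¹) • (1 : LL) := by
    rw [smul_mul_assoc]
    have : xi i * xi i * (xx i * xx i) = (xi i * xx i) * (xi i * xx i) := by ring
    rw [this, xi_mul_xx, one_mul]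
  rw [h1, ← add_smul, ← add_smul]
  have h2 : ((3 : ℂ)⁻¹ • (1 : LL)) + ((3 : ℂ)⁻¹ • (1 : LL)) + ((3 : ℂ)⁻¹ • (1 : LL)) = 1 := by
    rw [← add_smul, ← add_smul]
    norm_num
  rw [h2, one_smul]

theorem D_XX_eq (i : Fin 6) (k : Fin 7) :
    D ℂ LL (XX k) = xx i • D ℂ LL (Yv i k) + Yv i k • D ℂ LL (xx i) := by
  have h : XX k = xx i * Yv i k := by
    rw [Yv, mul_left_comm, xx_mul_xi, mul_one]
  conv_lhs => rw [h]
  rw [Derivation.leibniz]

/-- the endomorphism `dX_k ↦ dY_k` -/
noncomputable def gamF (i : Fin 6) : Ω[LL⁄ℂ] →ₗ[LL] Ω[LL⁄ℂ] :=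
  (betaB i).constr LL (fun k => D ℂ LL (YY i k.1))

theorem gamF_beta (i : Fin 6) (k : I6 i) : gamF i (D ℂ LL (XX k.1)) = D ℂ LL (YY i k.1) := by
  rw [gamF, ← betaB_apply, Basis.constr_basis]

theorem succ_ne_pt (i : Fin 6) : i.succ ≠ (pt i).succ := by
  intro h
  exact pt_ne i (Fin.succ_injective _ h).symm

theorem gamF_surjective (i : Fin 6) : Function.Surjective (gamF i) := by
  rw [← LinearMap.range_eq_top, eq_top_iff, ← (betaB i).span_eq, Submodule.span_le]
  rintro _ ⟨k, rfl⟩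
  have h1 : D ℂ LL (xx i) ∈ LinearMap.range (gamF i) := by
    rw [D_xx_eq]
    refine Submodule.smul_mem _ _ ⟨D ℂ LL (XX i.succ), ?_⟩
    rw [gamF_beta i ⟨i.succ, succ_ne_pt i⟩, YY_self]
  rw [betaB_apply, SetLike.mem_coe]
  by_cases hk : k.1 = i.succ
  · rw [hk]
    exact h1
  · rw [D_XX_eq i]
    refine Submodule.add_mem _ (Submodule.smul_mem _ _ ⟨D ℂ LL (XX k.1), ?_⟩)
      (Submodule.smul_mem _ _ h1)
    rw [gamF_beta i k, YY_of_ne hk]

theorem gamF_bijective (i : Fin 6) : Function.Bijective (gamF i) := by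
  have : Module.Finite LL Ω[LL⁄ℂ] := Module.Finite.of_basis (betaB i)
  exact OrzechProperty.bijective_of_surjective_endomorphism _ (gamF_surjective i)

/-- the basis `dY_k` -/
noncomputable def gamB (i : Fin 6) : Basis (I6 i) LL Ω[LL⁄ℂ] :=
  (betaB i).map (LinearEquiv.ofBijective (gamF i) (gamF_bijective i))

theorem gamB_apply (i : Fin 6) (k : I6 i) : gamB i k = D ℂ LL (YY i k.1) := by
  rw [gamB, Basis.map_apply, betaB_apply]
  exact gamF_beta i k

/-! ### Generation -/

theorem sum_YY (i : Fin 6) : ∑ l : Fin 6, (xx l * xi i) * (xx (pt l) * xi i) =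
    (zz * xi i) ^ 2 + (zz * xi i) ^ 2 := by
  rw [Fin.sum_univ_six]
  have hp : pt 0 = 1 ∧ pt 1 = 0 ∧ pt 2 = 3 ∧ pt 3 = 2 ∧ pt 4 = 5 ∧ pt 5 = 4 :=
    ⟨rfl, rfl, rfl, rfl, rfl, rfl⟩
  obtain ⟨p0, p1, p2, p3, p4, p5⟩ := hp
  rw [p0, p1, p2, p3, p4, p5, mul_pow, sq zz, zz_sq]
  ring

/-- Generation of the chart rings. -/
theorem gen_lemma {S : Finset (Fin 6)} {i : Fin 6} {D : Set ℤ} (hi : i ∈ S) (T : Subalgebra ℂ LL)
    (h0 : zz * xi i ∈ T) (hl : ∀ l, l ≠ pt i → xx l * xi i ∈ T)
    (hinv : ∀ l ∈ S, xx l * xi i ∈ T → xx i * xi l ∈ T)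
    (hD : ∀ d ∈ D, mR (d • dl i) ∈ T) : ∀ f ∈ B S D, f ∈ T := by
  classical
  -- the missing coordinate
  have hpt : xx (pt i) * xi i ∈ T := by
    have h1 := sum_YY i
    rw [← Finset.add_sum_erase _ _ (Finset.mem_univ i),
      ← Finset.add_sum_erase _ _ (Finset.mem_erase.2 ⟨pt_ne i, Finset.mem_univ (pt i)⟩),
      pt_pt, xx_mul_xi, one_mul, mul_one, ← add_assoc] at h1
    have h2 : xx (pt i) * xi i = ((2 : ℂ)⁻¹) • ((zz * xi i) ^ 2 + (zz * xi i) ^ 2 -
        ∑ l ∈ (Finset.univ.erase i).erase (pt i), (xx l * xi i) * (xx (pt l) * xi i)) := by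
      rw [← h1, add_sub_cancel_right, ← two_smul ℂ, smul_smul]
      norm_num
    rw [h2]
    refine T.smul_mem (T.sub_mem (T.add_mem (T.pow_mem h0 2) (T.pow_mem h0 2))
      (T.sum_mem (fun l hl' => T.mul_mem (hl l ?_) (hl (pt l) ?_)))) _
    · simp only [Finset.mem_erase] at hl'
      exact hl'.1
    · simp only [Finset.mem_erase] at hl'
      intro h
      have := congrArg pt h
      rw [pt_pt, pt_pt] at this
      exact hl'.2.1 this
  have hall : ∀ l, xx l * xi i ∈ T := by
    intro l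
    by_cases h : l = pt i
    · rw [h]; exact hpt
    · exact hl l h
  -- exponents
  let U : AddSubmonoid E6 :=
    { carrier := {e | mR e ∈ T}
      zero_mem' := by
        change mR 0 ∈ T
        rw [mR_zero]; exact T.one_mem
      add_mem' := by
        intro a b ha hb
        change mR (a + b) ∈ T
        rw [← mR_mul_mR]
        exact T.mul_mem ha hb }
  have hU : ∀ e, e ∈ U ↔ mR e ∈ T := fun _ => Iff.rfl
  have hmono : ∀ e : E6, (∀ l, e l < 0 → l ∈ S) → mR (e - dg e • dl i) ∈ T := by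
    intro e he
    rw [← hU]
    have h1 : e - dg e • dl i = ∑ l, e l • (dl l - dl i) := by
      simp only [smul_sub, Finset.sum_sub_distrib, ← Finset.sum_smul]
      congr 1
      funext m
      simp [dl, Finset.sum_apply, Pi.single_apply]
    rw [h1]
    refine AddSubmonoid.sum_mem _ (fun l _ => ?_)
    rcases le_or_gt 0 (e l) with h | h
    · obtain ⟨n, hn⟩ := Int.eq_ofNat_of_zero_le h
      rw [hn, natCast_zsmul]
      refine AddSubmonoid.nsmul_mem _ ?_ _
      rw [hU]
      have := hall l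
      rwa [xx, xi, mR_mul_mR, ← sub_eq_add_neg] at this
    · obtain ⟨n, hn⟩ := Int.eq_ofNat_of_zero_le (a := - e l) (by omega)
      have h2 : e l • (dl l - dl i) = n • (dl i - dl l) := by
        have : e l = - (n : ℤ) := by omega
        rw [this, neg_smul, ← smul_neg, neg_sub, natCast_zsmul]
      rw [h2]
      refine AddSubmonoid.nsmul_mem _ ?_ _
      rw [hU]
      have := hinv l (he l h) (hall l)
      rwa [xx, xi, mR_mul_mR, ← sub_eq_add_neg] at this
  have hR : ∀ e : E6, (∀ l, e l < 0 → l ∈ S) → dg e ∈ D → mR e ∈ T := by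
    intro e he hd
    have h1 : mR e = mR (e - dg e • dl i) * mR (dg e • dl i) := by
      rw [mR_mul_mR, sub_add_cancel]
    rw [h1]
    exact T.mul_mem (hmono e he) (hD _ hd)
  intro f hf
  refine SP_induction (motive := fun f => f ∈ T) T.zero_mem (fun _ _ => T.add_mem) ?_ ?_ hf
  · intro c e he
    refine T.smul_mem (hR e he.1 ?_) c
    have := he.2
    rwa [add_zero] at this
  · intro c e he
    have h1 : mZ e = mR (e + dl i) * (zz * xi i) := by
      rw [mul_comm zz, ← mul_assoc, xi, mR_mul_mR, zz, mR_mul_mZ]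
      congr 1
      abel
    rw [h1]
    refine T.smul_mem (T.mul_mem (hR _ ?_ ?_) h0) c
    · intro l hl'
      refine he.1 l ?_
      have : (0 : ℤ) ≤ dl i l := by
        simp only [dl, Pi.single_apply]; split_ifs <;> norm_num
      rw [Pi.add_apply] at hl'
      omega
    · rw [dg_add, dg_dl]
      exact he.2

/-! ### Degree zero part -/

/-- the degree-zero part -/
noncomputable def cut0 : LL →ₗ[ℂ] LL := cut (fun e n => dg e + n = 0)

theorem cut0_of_mem {S : Finset (Fin 6)} {f : LL} (hf : f ∈ B S {0}) : cut0 f = f :=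
  cut_of_mem (SP_mono (fun _ _ h => h.2) hf)

theorem cut0_eq_zero {S : Finset (Fin 6)} {D : Set ℤ} (hD : (0 : ℤ) ∉ D) {f : LL}
    (hf : f ∈ B S D) : cut0 f = 0 := by
  refine cut_eq_zero (SP_mono (P' := fun e n => ¬ dg e + n = 0) ?_ hf)
  intro e n h h'
  refine hD ?_
  have h1 := h.2
  rwa [h'] at h1

theorem cut0_mem {S : Finset (Fin 6)} {D : Set ℤ} {f : LL} (hf : f ∈ B S D) :
    cut0 f ∈ B S {0} :=
  SP_mono (fun _ _ h => ⟨h.2.1, h.1⟩) (cut_mem hf)

theorem sub_cut_mem {P P' : E6 → ℤ → Prop} {f : LL} (hf : f ∈ SP P') :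
    f - cut P f ∈ SP (fun e n => ¬ P e n ∧ P' e n) := by
  classical
  have hre : ∀ e, (f - cut P f).re.coeff e = f.re.coeff e - (cut P f).re.coeff e := fun _ => rfl
  have him : ∀ e, (f - cut P f).im.coeff e = f.im.coeff e - (cut P f).im.coeff e := fun _ => rfl
  constructor
  · intro e he
    rw [hre, cut_re] at he
    split_ifs at he with h
    · exact absurd (sub_self _) he
    · rw [sub_zero] at he
      exact ⟨h, hf.1 e he⟩
  · intro e he
    rw [him, cut_im] at he
    split_ifs at he with h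
    · exact absurd (sub_self _) he
    · rw [sub_zero] at he
      exact ⟨h, hf.2 e he⟩

theorem mem_of_cut0_eq_zero {S : Finset (Fin 6)} {f : LL} (hf : f ∈ B S D0) (h0 : cut0 f = 0) :
    f ∈ B S D1 := by
  have h1 := sub_cut_mem (P := fun e n => dg e + n = 0) hf
  have h2 : f - cut (fun e n => dg e + n = 0) f = f := by
    have : cut (fun e n => dg e + n = 0) f = 0 := h0
    rw [this, sub_zero]
  rw [h2] at h1
  exact SP_mono (fun e n h => ⟨h.2.1, lt_of_le_of_ne h.2.2.1 (fun h' => h.1 h'.symm), h.2.2.2⟩) h1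

theorem cut0_mul {S : Finset (Fin 6)} {f g : LL} (hf : f ∈ B S D0) (hg : g ∈ B S D0) :
    cut0 (f * g) = cut0 f * cut0 g := by
  have hf1 : f - cut0 f ∈ B S D1 := by
    refine SP_mono (fun e n h => ⟨h.2.1, lt_of_le_of_ne h.2.2.1 (fun h' => h.1 h'.symm), h.2.2.2⟩)
      (sub_cut_mem (P := fun e n => dg e + n = 0) hf)
  have hg1 : g - cut0 g ∈ B S D1 := by
    refine SP_mono (fun e n h => ⟨h.2.1, lt_of_le_of_ne h.2.2.1 (fun h' => h.1 h'.symm), h.2.2.2⟩)
      (sub_cut_mem (P := fun e n => dg e + n = 0) hg)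
  have h0 : f * g = cut0 f * cut0 g + (f * (g - cut0 g) + (f - cut0 f) * cut0 g) := by ring
  have h00 : (0 : ℤ) ∉ D1 := fun h => absurd h.1 (lt_irrefl _)
  have hA : cut0 (f * (g - cut0 g)) = 0 := by
    refine cut0_eq_zero h00 (B_mul ?_ hf hg1)
    rintro a ⟨ha, ha'⟩ b ⟨hb, hb'⟩
    exact ⟨by omega, dvd_add ha' hb'⟩
  have hB : cut0 ((f - cut0 f) * cut0 g) = 0 := by
    refine cut0_eq_zero h00 (B_mul (D₃ := D1) ?_ hf1 (cut0_mem hg))
    rintro a ⟨ha, ha'⟩ b hb
    rw [Set.mem_singleton_iff.1 hb, add_zero]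
    exact ⟨ha, ha'⟩
  have hC : cut0 (cut0 f * cut0 g) = cut0 f * cut0 g := by
    refine cut0_of_mem (S := S) (B_mul ?_ (cut0_mem hf) (cut0_mem hg))
    rintro a ha b hb
    rw [Set.mem_singleton_iff.1 ha, Set.mem_singleton_iff.1 hb]
    rfl
  rw [h0, map_add, map_add, hA, hB, hC, add_zero, add_zero]

theorem cut0_one : cut0 (1 : LL) = 1 := cut0_of_mem (S := ∅) (one_mem_B _ rfl)

/-! ### Degrees of derivatives -/

theorem dd_mem {S : Finset (Fin 6)} {D : Set ℤ} {f : LL} (hf : f ∈ B S D) (k : Fin 7) :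
    dd f k ∈ B S (sh D) := by
  refine SP_induction (motive := fun f => dd f k ∈ B S (sh D)) ?_ ?_ ?_ ?_ hf
  · rw [map_zero]; exact Submodule.zero_mem _
  · intro f g hf hg
    rw [map_add]; exact Submodule.add_mem _ hf hg
  · intro c e he
    rw [map_smul, Pi.smul_apply]
    refine Submodule.smul_mem _ _ ?_
    refine Fin.cases ?_ (fun l => ?_) k
    · rw [dd_mR_zero]; exact Submodule.zero_mem _
    · rw [dd_mR_succ]
      by_cases h0 : e l = 0
      · rw [h0, Int.cast_zero, zero_smul]; exact Submodule.zero_mem _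
      · refine Submodule.smul_mem _ _ (mR_mem ⟨fun m hm => ?_, ?_⟩)
        · refine he.1 m ?_
          simp only [Pi.sub_apply, dl, Pi.single_apply] at hm
          split_ifs at hm with h
          · rw [h]; rw [h] at hm; omega
          · omega
        · have := he.2
          simp only [sh, Set.mem_ofPred_eq]
          rw [dg_sub, dg_dl]
          convert this using 1
          ring
  · intro c e he
    rw [map_smul, Pi.smul_apply]
    refine Submodule.smul_mem _ _ ?_
    refine Fin.cases ?_ (fun l => ?_) k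
    · rw [dd_mZ_zero]
      refine mR_mem ⟨he.1, ?_⟩
      have := he.2
      simpa [sh] using this
    · rw [dd_mZ_succ]
      by_cases h0 : e l = 0
      · rw [h0, Int.cast_zero, zero_smul]; exact Submodule.zero_mem _
      · refine Submodule.smul_mem _ _ (mZ_mem ⟨fun m hm => ?_, ?_⟩)
        · refine he.1 m ?_
          simp only [Pi.sub_apply, dl, Pi.single_apply] at hm
          split_ifs at hm with h
          · rw [h]; rw [h] at hm; omega
          · omega
        · have := he.2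
          simp only [sh, Set.mem_ofPred_eq]
          rw [dg_sub, dg_dl]
          convert this using 1
          ring

end Pool.Agent.Hhelper18.DB
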