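import Mathlib
import Pool.Agent.Hhelper18.DB.Chart

/-! Forms on the chart rings, inside forms on `LL`. -/

namespace Pool.Agent.Hhelper18.DB

set_option maxHeartbeats 400000

open KaehlerDifferential Pool.Agent.Hhelper18.DuBois Module

/-- `R` is (via `j`) the ring `B S D0`. -/
structure Model (R : Type) [CommRing R] [Algebra ℂ R] (S : Finset (Fin 6)) (j : R →ₐ[ℂ] LL) :
    Prop where
  inj : Function.Injective j
  mem : ∀ r, j r ∈ B S D0
  surj : ∀ f ∈ B S D0, ∃ r, j r = f

/-- shift by `p` -/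
def Sh (p : ℕ) (D : Set ℤ) : Set ℤ := {d | d + p ∈ D}

/-- The lattices in forms. -/
noncomputable def NV (S : Finset (Fin 6)) (p : ℕ) (D : Set ℤ) : AddSubgroup (Forms LL p) :=
  (FV S p D).map (exteriorPower.map p piF).toAddMonoidHom

theorem mem_NV {S : Finset (Fin 6)} {p : ℕ} {D : Set ℤ} {y : Forms LL p} :
    y ∈ NV S p D ↔ ∃ x ∈ FV S p D, exteriorPower.map p piF x = y := Iff.rfl

theorem fm_LL {p : ℕ} (f : Fin p → LL) :
    fm LL f = exteriorPower.map p piF (exteriorPower.ιMulti LL p (fun a => dd (f a))) := by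
  rw [exteriorPower.map_apply_ιMulti, fm]
  congr 1
  funext a
  exact D_eq _

theorem smul_mem_FV {S : Finset (Fin 6)} {p : ℕ} {D D' D'' : Set ℤ}
    (hD : ∀ a ∈ D', ∀ b ∈ D, a + b ∈ D'') {a : LL} (ha : a ∈ B S D')
    {x : ⋀[LL]^p (Fin 7 → LL)} (hx : x ∈ FV S p D) : a • x ∈ FV S p D'' := by
  intro t
  rw [map_smul, smul_eq_mul]
  exact B_mul hD ha (hx t)

theorem D0_add {a b : ℤ} (ha : a ∈ D0) (hb : b ∈ D0) : a + b ∈ D0 :=
  ⟨add_nonneg ha.1 hb.1, dvd_add ha.2 hb.2⟩

theorem D1_add {a b : ℤ} (ha : a ∈ D1) (hb : b ∈ D0) : a + b ∈ D1 :=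
  ⟨by have := ha.1; have := hb.1; omega, dvd_add ha.2 hb.2⟩

theorem ιMulti_mem0 {S : Finset (Fin 6)} : ∀ (p : ℕ) (v : Fin p → (Fin 7 → LL)),
    (∀ a k, v a k ∈ B S (sh D0)) → exteriorPower.ιMulti LL p v ∈ FV S p (Sh p D0) := by
  intro p
  induction p with
  | zero =>
    intro v _
    have h : exteriorPower.ιMulti LL 0 v = (1 : LL) • eK (Fin.elim0) := by
      rw [one_smul, eK]
      congr 1
      funext a
      exact a.elim0
    rw [h]
    refine smul_eK_mem (one_mem_B S ?_) _
    exact ⟨by norm_num, by norm_num⟩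
  | succ p ih =>
    intro v hv
    rw [wedge_ιMulti]
    refine wedge_mem_FV (D := Sh p D0) (D' := sh D0) ?_ (hv 0) (ih _ (fun a k => hv a.succ k))
    intro a ha b hb
    have := D0_add (a := a + 1) (b := b + p) ha hb
    simp only [Sh, Set.mem_ofPred_eq]
    convert this using 1
    push_cast
    ring

theorem ιMulti_mem1 {S : Finset (Fin 6)} : ∀ (p : ℕ) (v : Fin p → (Fin 7 → LL)),
    (∀ a k, v a k ∈ B S (sh D0)) → (∃ a, ∀ k, v a k ∈ B S (sh D1)) →
    exteriorPower.ιMulti LL p v ∈ FV S p (Sh p D1) := by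
  intro p
  induction p with
  | zero =>
    rintro v _ ⟨a, _⟩
    exact a.elim0
  | succ p ih =>
    rintro v hv ⟨a, ha⟩
    rw [wedge_ιMulti]
    refine Fin.cases (fun ha => ?_) (fun a ha => ?_) a ha
    · refine wedge_mem_FV (D := Sh p D0) (D' := sh D1) ?_ ha
        (ιMulti_mem0 p _ (fun a k => hv a.succ k))
      intro a ha b hb
      have := D1_add (a := a + 1) (b := b + p) ha hb
      simp only [Sh, Set.mem_ofPred_eq]
      convert this using 1
      push_cast
      ring
    · refine wedge_mem_FV (D := Sh p D1) (D' := sh D0) ?_ (hv 0)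
        (ih _ (fun a k => hv a.succ k) ⟨a, ha⟩)
      intro a ha b hb
      have := D1_add (a := b + p) (b := a + 1) hb ha
      simp only [Sh, Set.mem_ofPred_eq]
      convert this using 1
      push_cast
      ring

theorem fm_mem_left {S : Finset (Fin 6)} {p : ℕ} {a : LL} (ha : a ∈ B S D1) {f : Fin p → LL}
    (hf : ∀ l, f l ∈ B S D0) : a • fm LL f ∈ NV S p (Sh p D1) := by
  refine ⟨a • exteriorPower.ιMulti LL p (fun a => dd (f a)), ?_, ?_⟩
  · refine smul_mem_FV (D := Sh p D0) ?_ ha (ιMulti_mem0 p _ (fun l k => dd_mem (hf l) k))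
    intro a ha b hb
    have := D1_add (b := b + p) ha hb
    simp only [Sh, Set.mem_ofPred_eq]
    convert this using 1
    ring
  · rw [fm_LL]
    exact (exteriorPower.map p piF).map_smul a _

theorem fm_mem_right {S : Finset (Fin 6)} {p : ℕ} {a : LL} (ha : a ∈ B S D0) {f : Fin p → LL}
    (hf : ∀ l, f l ∈ B S D0) (hf1 : ∃ l, f l ∈ B S D1) : a • fm LL f ∈ NV S p (Sh p D1) := by
  refine ⟨a • exteriorPower.ιMulti LL p (fun a => dd (f a)), ?_, ?_⟩
  · refine smul_mem_FV (D := Sh p D1) ?_ ha (ιMulti_mem1 p _ (fun l k => dd_mem (hf l) k) ?_)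
    · intro a ha b hb
      have := D1_add (a := b + p) hb ha
      simp only [Sh, Set.mem_ofPred_eq]
      convert this using 1
      ring
    · obtain ⟨l, hl⟩ := hf1
      exact ⟨l, fun k => dd_mem hl k⟩
  · rw [fm_LL]
    exact (exteriorPower.map p piF).map_smul a _

theorem hc_aux (a y : LL) : a * y * ((3 : ℂ)⁻¹ • (a * a)) = ((3 : ℂ)⁻¹ • a ^ 3) * y := by
  have h : a * y * (a * a) = a ^ 3 * y := by ring
  rw [mul_smul_comm, smul_mul_assoc, h]

theorem expand_aux {R M : Type} [CommRing R] [AddCommGroup M] [Module R M] {p : ℕ}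
    (A B : ⋀[R]^p M) (v a b : M) (c y : R) (hv : v = a + (c * y) • b) (hB : wedge b p B = 0) :
    wedge v p (A + c • B) = wedge a p A + c • (y • wedge b p A + wedge a p B) := by
  rw [hv, map_add, LinearMap.map_smul, wedge_add_left, wedge_add_left, wedge_smul_left,
    wedge_smul_left, hB, smul_zero, add_zero, smul_add, smul_smul, add_assoc]

theorem hv_aux (i : Fin 6) (k : Fin 7) :
    xi i • (xx i • D ℂ LL (Yv i k) + Yv i k • D ℂ LL (xx i)) =
      D ℂ LL (Yv i k) + (((3 : ℂ)⁻¹ • xi i ^ 3) * Yv i k) • D ℂ LL (xx i ^ 3) := by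
  rw [smul_add, smul_smul, xi_mul_xx, one_smul, D_xx_eq i, smul_smul, smul_smul, hc_aux]

section Model

variable {R : Type} [CommRing R] [Algebra ℂ R] {S : Finset (Fin 6)} {j : R →ₐ[ℂ] LL}
  (h : Model R S j) {i : Fin 6} (hi : i ∈ S)

/-- chart coordinates in `R` -/
noncomputable def Model.y (k : Fin 7) : R := (h.surj (YY i k) (YY_mem hi k)).choose

theorem Model.j_y (k : Fin 7) : j (h.y hi k) = YY i k := (h.surj (YY i k) (YY_mem hi k)).choose_spec

theorem Yv_mem0 {S : Finset (Fin 6)} {i : Fin 6} (hi : i ∈ S) (k : Fin 7) : Yv i k ∈ B S D0 :=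
  B_mono subset_rfl (by intro d hd; rw [Set.mem_singleton_iff.1 hd]; exact ⟨le_rfl, dvd_zero _⟩)
    (Yv_mem hi k)

theorem Model.span_y : ⊤ ≤ Submodule.span R (Set.range (fun k : I6 i => D ℂ R (h.y hi k.1))) := by
  set W := Submodule.span R (Set.range (fun k : I6 i => D ℂ R (h.y hi k.1))) with hW
  let RW : Subalgebra ℂ R :=
    { carrier := {r | D ℂ R r ∈ W}
      mul_mem' := by
        intro a b ha hb
        change D ℂ R (a * b) ∈ W
        rw [Derivation.leibniz]
        exact W.add_mem (W.smul_mem _ hb) (W.smul_mem _ ha)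
      add_mem' := by
        intro a b ha hb
        change D ℂ R (a + b) ∈ W
        rw [map_add]
        exact W.add_mem ha hb
      algebraMap_mem' := by
        intro c
        change D ℂ R (algebraMap ℂ R c) ∈ W
        rw [Derivation.map_algebraMap]
        exact W.zero_mem }
  have hRW : ∀ r, r ∈ RW ↔ D ℂ R r ∈ W := fun _ => Iff.rfl
  let T : Subalgebra ℂ LL := RW.map j
  have hT : ∀ r, D ℂ R r ∈ W → j r ∈ T := fun r hr => ⟨r, hr, rfl⟩
  have hYY : ∀ k : I6 i, YY i k.1 ∈ T := by
    intro k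
    rw [← h.j_y hi k.1]
    exact hT _ (Submodule.subset_span ⟨k, rfl⟩)
  have hgen := gen_lemma (D := D0) hi T ?_ ?_ ?_ ?_
  · rw [← KaehlerDifferential.span_range_derivation ℂ R, Submodule.span_le]
    rintro _ ⟨r, rfl⟩
    obtain ⟨r', hr', hrr⟩ := hgen _ (h.mem r)
    have : r' = r := h.inj hrr
    rw [← this]
    exact hr'
  · have := hYY ⟨0, (Fin.succ_ne_zero _).symm⟩
    rw [YY_of_ne (Fin.succ_ne_zero _).symm] at this
    exact this
  · intro l hl
    by_cases hli : l = i
    · rw [hli, xx_mul_xi]; exact T.one_mem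
    · have := hYY ⟨l.succ, fun h' => hl (Fin.succ_injective _ h')⟩
      rw [YY_of_ne (fun h' => hli (Fin.succ_injective _ h'))] at this
      exact this
  · intro l hl hlT
    obtain ⟨r, hr, hjr⟩ := hlT
    have hmem : xx i * xi l ∈ B S D0 := by
      refine B_mul (D₁ := {1}) (D₂ := {-1}) ?_ (xx_mem S i) (xi_mem hl)
      intro a ha b hb
      rw [Set.mem_singleton_iff.1 ha, Set.mem_singleton_iff.1 hb]
      exact ⟨by norm_num, by norm_num⟩
    obtain ⟨r', hr'⟩ := h.surj _ hmem
    refine ⟨r', ?_, hr'⟩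
    have hrr : r * r' = 1 := by
      apply h.inj
      change j r = xx l * xi i at hjr
      rw [map_mul, hjr, hr', map_one]
      have : xx l * xi i * (xx i * xi l) = (xx l * xi l) * (xi i * xx i) := by ring
      rw [this, xx_mul_xi, xi_mul_xx, one_mul]
    have h2 := Derivation.leibniz (D ℂ R) r r'
    rw [hrr, Derivation.map_one_eq_zero] at h2
    have h3 : D ℂ R r' = -(r' * r') • D ℂ R r := by
      have h4 := congrArg (fun w => r' • w) h2
      simp only [smul_zero, smul_add, smul_smul] at h4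
      rw [mul_comm r' r, hrr, one_smul] at h4
      rw [neg_smul]
      exact eq_neg_of_add_eq_zero_left h4.symm
    change D ℂ R r' ∈ W
    rw [h3]
    exact W.smul_mem _ hr
  · rintro d ⟨hd, hd'⟩
    obtain ⟨m, rfl⟩ := hd'
    obtain ⟨n, hn⟩ := Int.eq_ofNat_of_zero_le (a := m) (by omega)
    have : mR ((3 * m) • dl i) = (xx i ^ 3) ^ n := by
      rw [xx_cube, mR_pow, hn, smul_smul, mul_comm]
    rw [this]
    refine T.pow_mem ?_ _
    have := hYY ⟨i.succ, succ_ne_pt i⟩
    rwa [YY_self] at this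

theorem Model.indep_y : LinearIndependent R (fun k : I6 i => D ℂ R (h.y hi k.1)) := by
  let : Algebra R LL := j.toRingHom.toAlgebra
  have : IsScalarTower ℂ R LL := IsScalarTower.of_algebraMap_eq (fun c => (j.commutes c).symm)
  refine LinearIndependent.of_comp (KaehlerDifferential.map ℂ ℂ R LL) ?_
  have h1 : ((KaehlerDifferential.map ℂ ℂ R LL) ∘ fun k : I6 i => D ℂ R (h.y hi k.1)) =
      ⇑(gamB i) := by
    funext k
    rw [gamB_apply, Function.comp_apply, KaehlerDifferential.map_D]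
    congr 1
    exact h.j_y hi k.1
  rw [h1]
  refine (gamB i).linearIndependent.restrict_scalars ?_
  intro a b hab
  apply h.inj
  have hh : ∀ r : R, r • (1 : LL) = j r := by
    intro r
    rw [Algebra.smul_def, mul_one]
    rfl
  simp only [hh] at hab
  exact hab

/-- the basis of `Ω_R` -/
noncomputable def Model.basis : Basis (I6 i) R Ω[R⁄ℂ] := Basis.mk (h.indep_y hi) (h.span_y hi)

theorem Model.basis_apply (k : I6 i) : h.basis hi k = D ℂ R (h.y hi k.1) := by
  rw [Model.basis, Basis.mk_apply]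

theorem Model.basis_power (p : ℕ) (T : Set.powersetCard (I6 i) p) :
    (h.basis hi).exteriorPower p T =
      fm R (fun a => h.y hi (Set.powersetCard.ofFinEmbEquiv.symm T a).1) := by
  rw [exteriorPower.basis_apply, exteriorPower.ιMulti_family, fm]
  congr 1
  funext a
  exact h.basis_apply hi _

theorem gamB_power (i : Fin 6) (p : ℕ) (T : Set.powersetCard (I6 i) p) :
    (gamB i).exteriorPower p T =
      fm LL (fun a => YY i (Set.powersetCard.ofFinEmbEquiv.symm T a).1) := by
  rw [exteriorPower.basis_apply, exteriorPower.ιMulti_family, fm]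
  congr 1
  funext a
  exact gamB_apply i _

theorem Model.map_eq_sum {p : ℕ} (η : Forms R p) : Forms.map j p η =
    ∑ T, j (((h.basis hi).exteriorPower p).repr η T) • (gamB i).exteriorPower p T := by
  conv_lhs => rw [← ((h.basis hi).exteriorPower p).sum_repr η]
  rw [map_sum]
  refine Finset.sum_congr rfl (fun T _ => ?_)
  rw [Forms.map_smul, h.basis_power, gamB_power, Forms.map_fm]
  congr 2
  funext a
  exact h.j_y hi _

include h hi in
theorem Model.map_injective (p : ℕ) : Function.Injective (Forms.map j p) := by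
  rw [injective_iff_map_eq_zero]
  intro η hη
  refine Basis.ext_elem ((h.basis hi).exteriorPower p) (fun T => ?_)
  rw [h.map_eq_sum hi] at hη
  have h1 := congrArg (fun ω => ((gamB i).exteriorPower p).repr ω T) hη
  simp only [Basis.repr_sum_self] at h1
  rw [map_zero, Finsupp.zero_apply] at h1 ⊢
  exact h.inj (by rw [h1, map_zero])

/-- evaluation in degree zero -/
noncomputable def Model.evR : R →ₐ[ℂ] LL where
  toFun r := cut0 (j r)
  map_one' := by rw [map_one]; exact cut0_one
  map_mul' a b := by rw [map_mul]; exact cut0_mul (h.mem a) (h.mem b)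
  map_zero' := by rw [map_zero, map_zero]
  map_add' a b := by rw [map_add, map_add]
  commutes' c := by
    rw [AlgHom.commutes]
    have h1 : algebraMap ℂ LL c = c • (1 : LL) := Algebra.algebraMap_eq_smul_one c
    rw [h1, map_smul, cut0_one]

theorem Model.evR_apply (r : R) : h.evR r = cut0 (j r) := rfl

variable {I : Ideal R} (hI : ∀ r, r ∈ I ↔ j r ∈ B S D1)

/-- evaluation on the quotient -/
noncomputable def Model.ev : R ⧸ I →ₐ[ℂ] LL :=
  Ideal.Quotient.liftₐ I h.evR (fun r hr =>
    cut0_eq_zero (S := S) (fun h' => absurd h'.1 (lt_irrefl _)) ((hI r).1 hr))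

theorem Model.ev_comp : (h.ev hI).comp (Ideal.Quotient.mkₐ ℂ I) = h.evR :=
  Ideal.Quotient.liftₐ_comp _ _ _

theorem Model.ev_injective : Function.Injective (h.ev hI) := by
  rw [injective_iff_map_eq_zero]
  intro x hx
  obtain ⟨r, rfl⟩ := Ideal.Quotient.mk_surjective x
  have h1 : h.evR r = 0 := hx
  rw [Ideal.Quotient.eq_zero_iff_mem, hI]
  exact mem_of_cut0_eq_zero (h.mem r) h1

include h hi hI in
theorem Model.map_mem_NV (p : ℕ) {η : Forms R p}
    (hη : Forms.map (Ideal.Quotient.mkₐ ℂ I) p η = 0) : Forms.map j p η ∈ NV S p (Sh p D1) := by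
  classical
  have h1 : Forms.map h.evR p η = 0 := by
    rw [← h.ev_comp hI, Forms.map_comp, hη, map_zero]
  have h2 : Forms.map h.evR p η = ∑ T,
      (if ∃ a, (Set.powersetCard.ofFinEmbEquiv.symm T a).1 = i.succ then (0 : LL) else
        h.evR (((h.basis hi).exteriorPower p).repr η T)) • (gamB i).exteriorPower p T := by
    conv_lhs => rw [← ((h.basis hi).exteriorPower p).sum_repr η]
    rw [map_sum]
    refine Finset.sum_congr rfl (fun T _ => ?_)
    rw [Forms.map_smul, h.basis_power, gamB_power, Forms.map_fm]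
    split_ifs with hT
    · obtain ⟨a, ha⟩ := hT
      have h3 : fm LL (fun a => h.evR (h.y hi (Set.powersetCard.ofFinEmbEquiv.symm T a).1)) = 0 := by
        rw [fm]
        refine AlternatingMap.map_coord_zero _ a ?_
        rw [ha, h.evR_apply, h.j_y, YY_self]
        have : cut0 (xx i ^ 3) = 0 := cut0_eq_zero (S := S) (D := {3}) (by simp) (cube_mem S i)
        rw [this, map_zero]
      rw [h3, smul_zero, zero_smul]
    · congr 2
      funext a
      rw [h.evR_apply, h.j_y, YY_of_ne (fun h' => hT ⟨a, h'⟩)]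
      exact cut0_of_mem (Yv_mem hi _)
  have h3 : ∀ T, ¬ (∃ a, (Set.powersetCard.ofFinEmbEquiv.symm T a).1 = i.succ) →
      h.evR (((h.basis hi).exteriorPower p).repr η T) = 0 := by
    intro T hT
    rw [h1] at h2
    have h4 := congrArg (fun ω => ((gamB i).exteriorPower p).repr ω T) h2.symm
    simp only [Basis.repr_sum_self, if_neg hT] at h4
    rw [h4, map_zero, Finsupp.zero_apply]
  rw [h.map_eq_sum hi]
  refine AddSubgroup.sum_mem _ (fun T _ => ?_)
  rw [gamB_power]
  by_cases hT : ∃ a, (Set.powersetCard.ofFinEmbEquiv.symm T a).1 = i.succ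
  · refine fm_mem_right (h.mem _) (fun l => YY_mem hi _) ?_
    obtain ⟨a, ha⟩ := hT
    refine ⟨a, ?_⟩
    rw [ha, YY_self]
    refine B_mono subset_rfl ?_ (cube_mem S i)
    intro d hd
    rw [Set.mem_singleton_iff.1 hd]
    exact ⟨by norm_num, dvd_rfl⟩
  · exact fm_mem_left (mem_of_cut0_eq_zero (h.mem _) (h3 T hT)) (fun l => YY_mem hi _)

/-- expansion of products of `x_i⁻¹ dX_k` -/
theorem Model.expand {t : R} (ht : j t = xx i ^ 3) (htI : t ∈ I) (y : Fin 7 → R)
    (hy : ∀ k, j (y k) = Yv i k) : ∀ (p : ℕ) (K : Fin p → Fin 7),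
    ∃ α β : Forms R p, Forms.map (Ideal.Quotient.mkₐ ℂ I) p β = 0 ∧
      wedge (D ℂ R t) p β = 0 ∧
      exteriorPower.ιMulti LL p (fun a => xi i • D ℂ LL (XX (K a))) =
        Forms.map j p α + ((3 : ℂ)⁻¹ • xi i ^ 3) • Forms.map j p β := by
  intro p
  induction p with
  | zero =>
    intro K
    refine ⟨fm R Fin.elim0, 0, map_zero _, map_zero _, ?_⟩
    rw [map_zero, smul_zero, add_zero, Forms.map_fm, fm]
    congr 1
    funext a
    exact a.elim0
  | succ p ih =>
    intro K
    obtain ⟨α, β, h1, h2, h3⟩ := ih (fun a => K a.succ)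
    refine ⟨wedge (D ℂ R (y (K 0))) p α,
      y (K 0) • wedge (D ℂ R t) p α + wedge (D ℂ R (y (K 0))) p β, ?_, ?_, ?_⟩
    · rw [map_add, Forms.map_smul, Forms.map_wedge, Forms.map_wedge, h1, map_zero, add_zero]
      have : (Ideal.Quotient.mkₐ ℂ I) t = 0 := Ideal.Quotient.eq_zero_iff_mem.2 htI
      rw [this, map_zero, wedge_zero_left, smul_zero]
    · rw [map_add, LinearMap.map_smul, wedge_wedge, smul_zero, zero_add, wedge_swap, h2, map_zero,
        neg_zero]
    · have hv := hv_aux i (K 0)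
      have hB : wedge (D ℂ LL (xx i ^ 3)) p (Forms.map j p β) = 0 := by
        rw [← ht, ← Forms.map_wedge, h2, map_zero]
      have e1 : Forms.map j (p + 1) (wedge (D ℂ R (y (K 0))) p α) =
          wedge (D ℂ LL (Yv i (K 0))) p (Forms.map j p α) := by
        rw [Forms.map_wedge, hy]
      have e2 : Forms.map j (p + 1) (y (K 0) • wedge (D ℂ R t) p α +
          wedge (D ℂ R (y (K 0))) p β) =
          Yv i (K 0) • wedge (D ℂ LL (xx i ^ 3)) p (Forms.map j p α) +
            wedge (D ℂ LL (Yv i (K 0))) p (Forms.map j p β) := by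
        rw [map_add, Forms.map_smul, Forms.map_wedge, Forms.map_wedge, hy, ht]
      rw [wedge_ιMulti, h3, e1, e2]
      have e3 : xi i • D ℂ LL (XX (K 0)) = D ℂ LL (Yv i (K 0)) +
          (((3 : ℂ)⁻¹ • xi i ^ 3) * Yv i (K 0)) • D ℂ LL (xx i ^ 3) := by
        rw [D_XX_eq i (K 0), hv]
      exact expand_aux _ _ _ _ _ _ _ e3 hB

include h hi hI in
theorem Model.NV_le (p : ℕ) {ω : Forms LL p} (hω : ω ∈ NV S p (Sh p D1)) :
    ∃ η : Forms R p, Forms.map (Ideal.Quotient.mkₐ ℂ I) p η = 0 ∧ Forms.map j p η = ω := by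
  have hcube : xx i ^ 3 ∈ B S D1 := by
    refine B_mono subset_rfl ?_ (cube_mem S i)
    intro d hd
    rw [Set.mem_singleton_iff.1 hd]
    exact ⟨by norm_num, dvd_rfl⟩
  obtain ⟨t, ht⟩ := h.surj _ (B_mono subset_rfl D1_le hcube)
  have htI : t ∈ I := (hI t).2 (by rw [ht]; exact hcube)
  choose y hy using fun k => h.surj _ (Yv_mem0 hi k)
  obtain ⟨x, hx, rfl⟩ := hω
  refine FV_induction (motive := fun x => ∃ η : Forms R p,
    Forms.map (Ideal.Quotient.mkₐ ℂ I) p η = 0 ∧
      Forms.map j p η = exteriorPower.map p piF x) ?_ ?_ ?_ hx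
  · exact ⟨0, map_zero _, by rw [map_zero, map_zero]⟩
  · rintro x x' ⟨η, h1, h2⟩ ⟨η', h1', h2'⟩
    exact ⟨η + η', by rw [map_add, h1, h1', add_zero], by rw [map_add, h2, h2', map_add]⟩
  · intro a ha K
    obtain ⟨α, β, h1, -, h3⟩ := Model.expand ht htI y hy p K
    have e1 : exteriorPower.map p piF (a • eK K) =
        (a * xx i ^ p) • exteriorPower.ιMulti LL p (fun a => xi i • D ℂ LL (XX (K a))) := by
      rw [LinearMap.map_smul, eK, exteriorPower.map_apply_ιMulti]
      have e2 : (exteriorPower.ιMulti LL p fun a => xi i • D ℂ LL (XX (K a))) =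
          (xi i ^ p) • exteriorPower.ιMulti LL p fun a => D ℂ LL (XX (K a)) := by
        have := (exteriorPower.ιMulti LL p (M := Ω[LL⁄ℂ])).toMultilinearMap.map_smul_univ
          (fun _ => xi i) (fun a => D ℂ LL (XX (K a)))
        rw [Finset.prod_const, Finset.card_univ, Fintype.card_fin] at this
        exact this
      rw [e2, smul_smul, mul_assoc, ← mul_pow, xx_mul_xi, one_pow, mul_one]
      congr 2
      funext l
      rw [Function.comp_apply, bb, Pi.basisFun_apply, piF_single]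
    have hpow : ∀ n : ℕ, xx i ^ n ∈ B S {(n : ℤ)} := by
      intro n
      rw [xx, mR_pow]
      refine mR_mem ⟨fun m hm => ?_, ?_⟩
      · have : (0 : ℤ) ≤ dl i m := by
          simp only [dl, Pi.single_apply]; split_ifs <;> norm_num
        simp only [Pi.smul_apply, smul_eq_mul] at hm
        have := mul_nonneg (Int.natCast_nonneg n) this
        omega
      · rw [dg_smul, dg_dl]; simp
    have m1 : a * xx i ^ p ∈ B S D1 := by
      refine B_mul ?_ ha (hpow p)
      intro a ha b hb
      rw [Set.mem_singleton_iff.1 hb]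
      exact ha
    have hinv3 : xi i ^ 3 ∈ B S {-3} := by
      have : xi i ^ 3 = xi i * (xi i * xi i) := by ring
      rw [this]
      refine B_mul (D₁ := {-1}) (D₂ := {-2}) ?_ (xi_mem hi)
        (B_mul (D₁ := {-1}) (D₂ := {-1}) ?_ (xi_mem hi) (xi_mem hi))
      · intro a ha b hb
        rw [Set.mem_singleton_iff.1 ha, Set.mem_singleton_iff.1 hb]
        norm_num
      · intro a ha b hb
        rw [Set.mem_singleton_iff.1 ha, Set.mem_singleton_iff.1 hb]
        norm_num
    have m2 : (a * xx i ^ p) * ((3 : ℂ)⁻¹ • xi i ^ 3) ∈ B S D0 := by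
      rw [mul_smul_comm]
      refine Submodule.smul_mem _ _ (B_mul ?_ m1 hinv3)
      rintro a ⟨ha, ha'⟩ b hb
      rw [Set.mem_singleton_iff.1 hb]
      refine ⟨?_, ?_⟩
      · have := Int.le_of_dvd ha ha'
        omega
      · exact dvd_add ha' (by norm_num)
    obtain ⟨r1, hr1⟩ := h.surj _ (B_mono subset_rfl D1_le m1)
    obtain ⟨r2, hr2⟩ := h.surj _ m2
    refine ⟨r1 • α + r2 • β, ?_, ?_⟩
    · rw [map_add, Forms.map_smul, Forms.map_smul, h1, smul_zero, add_zero]
      have : (Ideal.Quotient.mkₐ ℂ I) r1 = 0 :=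
        Ideal.Quotient.eq_zero_iff_mem.2 ((hI r1).2 (by rw [hr1]; exact m1))
      rw [this, zero_smul]
    · rw [map_add, Forms.map_smul, Forms.map_smul, hr1, hr2, e1, h3, smul_add, smul_smul]

end Model

/-! ### Acyclicity of the lattices of forms -/

/-- comparison of forms on `LL` with the Koszul complex -/
noncomputable def Theta (p : ℕ) : Forms LL p →+ ⋀[LL]^(p + 1) (Fin 7 → LL) :=
  (wedge dq p ∘ₗ exteriorPower.map p (LamF 0)).toAddMonoidHom

theorem Theta_map (p : ℕ) (x : ⋀[LL]^p (Fin 7 → LL)) :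
    Theta p (exteriorPower.map p piF x) = wedge dq p x := by
  change wedge dq p (exteriorPower.map p (LamF 0) (exteriorPower.map p piF x)) = _
  have hs := splitData 0
  cases p with
  | zero =>
    have h1 := power_map_zero_eq (LamF 0 ∘ₗ piF) x
    rw [exteriorPower.map_comp, LinearMap.comp_apply] at h1
    rw [h1]
  | succ p =>
    have h1 := power_map_sub_smul (xiF 0) dq (LamF 0 ∘ₗ piF) (fun m => hs.comp m) p x
    rw [exteriorPower.map_comp, LinearMap.comp_apply] at h1
    rw [h1, map_sub, wedge_wedge, sub_zero]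

theorem Theta_injective (p : ℕ) : Function.Injective (Theta p) := by
  rw [injective_iff_map_eq_zero]
  intro y hy
  obtain ⟨x, rfl⟩ := exteriorPower.map_surjective (n := p) piF_surjective y
  rw [Theta_map] at hy
  exact ((splitData 0).wedge_eq_zero_iff p x).1 hy

theorem acyc_NV_iff (p : ℕ) (D : Set ℤ) (n : ℕ) :
    Acyc (fun S => NV S p D) n ↔ Acyc (fun S => WV S p D) n := by
  symm
  refine acyc_of_injective (Theta p) (Theta_injective p) ?_
  intro S _ y
  constructor
  · rintro ⟨x, hx, rfl⟩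
    exact ⟨exteriorPower.map p piF x, ⟨x, hx, rfl⟩, Theta_map p x⟩
  · rintro ⟨_, ⟨x, hx, rfl⟩, rfl⟩
    exact ⟨x, hx, (Theta_map p x).symm⟩

theorem acyc_NV {p : ℕ} (hp : p ≤ 3) (n : ℕ) : Acyc (fun S => NV S p (Sh p D1)) n := by
  refine (acyc_NV_iff _ _ _).2 (acyc_WV p ?_ n)
  rintro d ⟨hd, hd'⟩
  have := Int.le_of_dvd hd hd'
  omega

theorem not_acyc_NV : ¬ Acyc (fun S => NV S 4 (Sh 4 D1)) 0 := by
  intro h
  refine not_acyc_WV ?_ ?_ ((acyc_NV_iff _ _ _).1 h)
  · rintro d ⟨hd, hd'⟩
    have := Int.le_of_dvd hd hd'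
    push_cast at this
    omega
  · change ((-1 : ℤ) + ((4 : ℕ) : ℤ)) ∈ D1
    norm_num [D1]

end Pool.Agent.Hhelper18.DB
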