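import Mathlib
import Pool.Agent.Hhelper18.DB.Link
import Pool.Agent.Hhelper18.DB.Defs

/-! From the chart models to the Du Bois complex. -/

namespace Pool.Agent.Hhelper18.DB

set_option maxHeartbeats 400000

open KaehlerDifferential Pool.Agent.Hhelper18.DuBois Module AlgebraicGeometry CategoryTheory

theorem pull_comp {R S T : Hyper.Alg} (g : S.carrier →ₐ[ℂ] T.carrier)
    (f : R.carrier →ₐ[ℂ] S.carrier) (p : ℕ) (ω : Hyper.Forms R p) :
    Hyper.pull (g.comp f) p ω = Hyper.pull g p (Hyper.pull f p ω) := by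
  rw [Hyper.pull_eq, Hyper.pull_eq g, Hyper.pull_eq f]
  exact Forms.map_comp g f ω

section

variable {A : Type} [CommRing A] [Algebra ℂ A]

/-- `LL` as an algebra -/
noncomputable def LLa : Hyper.Alg := Hyper.Alg.mk LL

/-- Chart models for a square with covering indexed by `Fin 6`. -/
structure Models (Q : Hyper.Square A) (e : Q.ι → Fin 6) where
  j : ∀ {n : ℕ} (s : Fin (n + 1) → Q.ι), (Q.OX s).carrier →ₐ[ℂ] LL
  model : ∀ {n : ℕ} (s : Fin (n + 1) → Q.ι), Model (Q.OX s).carrier (img (e ∘ s)) (j s)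
  ideal : ∀ {n : ℕ} (s : Fin (n + 1) → Q.ι) (r : (Q.OX s).carrier),
    r ∈ Hyper.idealE Q.π Q.J (Q.inter s) ↔ j s r ∈ B (img (e ∘ s)) D1
  comp : ∀ {n : ℕ} (s : Fin (n + 2) → Q.ι) (k : Fin (n + 2)),
    (j s).comp (Hyper.Sec.resAlg Q.π (Q.inter_le s k)) = j (Q.face s k)

variable {Q : Hyper.Square A} {e : Q.ι → Fin 6} (M : Models Q e) (p : ℕ)

/-- pull-back to `LL` -/
noncomputable def pj {n : ℕ} (s : Fin (n + 1) → Q.ι) : Hyper.Forms (Q.OX s) p →+ Hyper.Forms LLa p :=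
  Hyper.pull (M.j s) p

/-- push a cochain to `LL` -/
noncomputable def push {n : ℕ} (φ : Q.CX p n) : (Fin (n + 1) → Q.ι) → Forms LL p :=
  fun s => pj M p s (φ s)

theorem push_apply {n : ℕ} (φ : Q.CX p n) (s : Fin (n + 1) → Q.ι) :
    push M p φ s = Forms.map (M.j s) p (φ s) := Hyper.pull_eq _ _ _

theorem push_zero {n : ℕ} : push M p (0 : Q.CX p n) = 0 :=
  funext (fun s => map_zero (pj M p s))

theorem push_dX {n : ℕ} (φ : Q.CX p n) : push M p (Q.dX p n φ) = cd n (push M p φ) := by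
  funext s
  refine (map_sum (pj M p s) _ _).trans ?_
  refine Finset.sum_congr rfl (fun k _ => ?_)
  refine (map_zsmul (pj M p s) _ _).trans ?_
  have h1 := pull_comp (R := Q.OX (Q.face s k)) (S := Q.OX s) (T := LLa) (M.j s)
    (Hyper.Sec.resAlg Q.π (Q.inter_le s k)) p (φ (Q.face s k))
  have h2 : Hyper.pull (R := Q.OX (Q.face s k)) (S := LLa)
      ((M.j s).comp (Hyper.Sec.resAlg Q.π (Q.inter_le s k))) p = pj M p (Q.face s k) :=
    congrArg (fun f => Hyper.pull (R := Q.OX (Q.face s k)) (S := LLa) f p) (M.comp s k)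
  have h3 : pj M p s (Q.rX p s k (φ (Q.face s k))) = pj M p (Q.face s k) (φ (Q.face s k)) :=
    h1.symm.trans (congrArg (fun g => g (φ (Q.face s k))) h2)
  exact congrArg (fun ω => (-1 : ℤ) ^ (k : ℕ) • ω) h3

include M in
theorem push_injective {n : ℕ} : Function.Injective (push (n := n) M p) := by
  intro φ ψ h
  funext s
  have hs : (e ∘ s) 0 ∈ img (e ∘ s) := by simp [img]
  refine (M.model s).map_injective hs p ?_
  rw [← push_apply, ← push_apply, h]

theorem toE_comp {n : ℕ} (s : Fin (n + 2) → Q.ι) (k : Fin (n + 2)) :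
    (Hyper.SecE.mkAlg Q.π Q.J (Q.inter s)).comp (Hyper.Sec.resAlg Q.π (Q.inter_le s k)) =
      (Hyper.SecE.resAlg Q.π Q.J (Q.inter_le s k)).comp
        (Hyper.SecE.mkAlg Q.π Q.J (Q.inter (Q.face s k))) :=
  AlgHom.ext (fun _ => rfl)

theorem resE_dX {n : ℕ} (φ : Q.CX p n) : Q.resE p (n + 1) (Q.dX p n φ) =
    Q.dE p n (Q.resE p n φ) := by
  funext s
  refine (map_sum (Q.toE p s) _ _).trans ?_
  refine Finset.sum_congr rfl (fun k _ => ?_)
  refine (map_zsmul (Q.toE p s) _ _).trans ?_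
  refine congrArg (fun ω => (-1 : ℤ) ^ (k : ℕ) • ω) ?_
  have h1 := pull_comp (R := Q.OX (Q.face s k)) (S := Q.OX s) (T := Q.OE s)
    (Hyper.SecE.mkAlg Q.π Q.J (Q.inter s)) (Hyper.Sec.resAlg Q.π (Q.inter_le s k)) p
      (φ (Q.face s k))
  have h2 := pull_comp (R := Q.OX (Q.face s k)) (S := Q.OE (Q.face s k)) (T := Q.OE s)
    (Hyper.SecE.resAlg Q.π Q.J (Q.inter_le s k))
      (Hyper.SecE.mkAlg Q.π Q.J (Q.inter (Q.face s k))) p (φ (Q.face s k))
  have h3 := congrArg (fun f => Hyper.pull (R := Q.OX (Q.face s k)) (S := Q.OE s) f p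
    (φ (Q.face s k))) (toE_comp s k)
  exact h1.symm.trans (h3.trans h2)

theorem resE_add {n : ℕ} (φ ψ : Q.CX p n) : Q.resE p n (φ + ψ) = Q.resE p n φ + Q.resE p n ψ :=
  funext (fun s => map_add (Q.toE p s) (φ s) (ψ s))

theorem resE_sub {n : ℕ} (φ ψ : Q.CX p n) : Q.resE p n (φ - ψ) = Q.resE p n φ - Q.resE p n ψ :=
  funext (fun s => map_sub (Q.toE p s) (φ s) (ψ s))

theorem dX_add {n : ℕ} (φ ψ : Q.CX p n) : Q.dX p n (φ + ψ) = Q.dX p n φ + Q.dX p n ψ := by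
  funext s
  refine Eq.trans (Finset.sum_congr rfl (fun k _ => ?_)) Finset.sum_add_distrib
  exact (congrArg (fun ω => (-1 : ℤ) ^ (k : ℕ) • ω) (map_add (Q.rX p s k)
    (φ (Q.face s k)) (ψ (Q.face s k)))).trans (smul_add _ _ _)

theorem dX_sub {n : ℕ} (φ ψ : Q.CX p n) : Q.dX p n (φ - ψ) = Q.dX p n φ - Q.dX p n ψ := by
  funext s
  refine Eq.trans (Finset.sum_congr rfl (fun k _ => ?_)) (Finset.sum_sub_distrib _ _)
  exact (congrArg (fun ω => (-1 : ℤ) ^ (k : ℕ) • ω) (map_sub (Q.rX p s k)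
    (φ (Q.face s k)) (ψ (Q.face s k)))).trans (smul_sub _ _ _)

theorem dE_zero {n : ℕ} : Q.dE p n 0 = 0 := by
  funext s
  refine Finset.sum_eq_zero (fun k _ => ?_)
  exact (congrArg (fun ω => (-1 : ℤ) ^ (k : ℕ) • ω) (map_zero (Q.rE p s k))).trans
    (smul_zero _)

theorem pullZ_zero : Q.pullZ p 0 = 0 := funext (fun s => map_zero (Q.ofZ p s))

include M in
theorem dX_dX {n : ℕ} (φ : Q.CX p n) : Q.dX p (n + 1) (Q.dX p n φ) = 0 := by
  apply push_injective M p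
  rw [push_dX, push_dX, cd_cd, push_zero]

theorem resE_surjective {n : ℕ} (ψ : Q.CE p n) : ∃ φ, Q.resE p n φ = ψ := by
  choose φ hφ using fun s => Forms.map_surjective (Hyper.SecE.mkAlg Q.π Q.J (Q.inter s))
    (Ideal.Quotient.mk_surjective) p (ψ s)
  exact ⟨φ, funext (fun s => (Hyper.pull_eq (R := Q.OX s) (S := Q.OE s) _ _ _).trans (hφ s))⟩

theorem cd_precomp {ι ι' : Type} {N : Type*} [AddCommGroup N] (g : ι' → ι) (n : ℕ)
    (φ : (Fin (n + 1) → ι) → N) (s : Fin (n + 2) → ι') :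
    cd n (fun t => φ (g ∘ t)) s = cd n φ (g ∘ s) := rfl

/-- cochains of the kernel -/
theorem kernel_iff {n : ℕ} (s : Fin (n + 1) → Q.ι) (ω : Forms LL p) :
    ω ∈ NV (img (e ∘ s)) p (Sh p D1) ↔
      ∃ η : Hyper.Forms (Q.OX s) p, Q.toE p s η = 0 ∧ pj M p s η = ω := by
  have hs : (e ∘ s) 0 ∈ img (e ∘ s) := by simp [img]
  constructor
  · intro h
    obtain ⟨η, h1, h2⟩ := (M.model s).NV_le hs (M.ideal s) p h
    exact ⟨η, (Hyper.pull_eq (R := Q.OX s) (S := Q.OE s) _ _ _).trans h1,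
      (Hyper.pull_eq (R := Q.OX s) (S := LLa) _ _ _).trans h2⟩
  · rintro ⟨η, h1, rfl⟩
    have h2 := (M.model s).map_mem_NV hs (M.ideal s) p (η := η)
      ((Hyper.pull_eq (R := Q.OX s) (S := Q.OE s) _ _ _).symm.trans h1)
    have h3 : pj M p s η = Forms.map (M.j s) p η := Hyper.pull_eq _ _ _
    exact (congrArg (fun ω => ω ∈ NV (img (e ∘ s)) p (Sh p D1)) h3).mpr h2

end

section

variable {A : Type} [CommRing A] [Algebra ℂ A] {Q : Hyper.Square A} {e : Q.ι ≃ Fin 6}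
  (M : Models Q e) (p : ℕ)

include M in
/-- the kernel complex computes -/
theorem kernel_acyc {n : ℕ} (h : Acyc (fun S => NV S p (Sh p D1)) n) (κ : Q.CX p (n + 1))
    (h1 : Q.dX p (n + 1) κ = 0) (h2 : Q.resE p (n + 1) κ = 0) :
    ∃ η : Q.CX p n, Q.resE p n η = 0 ∧ Q.dX p n η = κ := by
  have hco : IsCo (fun S => NV S p (Sh p D1)) (n + 1) (fun t => push M p κ (e.symm ∘ t)) := by
    intro t
    have h3 := (kernel_iff M p (e.symm ∘ t) (push M p κ (e.symm ∘ t))).2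
      ⟨κ _, congrFun h2 _, rfl⟩
    have h4 : ⇑e ∘ (e.symm ∘ t) = t := by
      funext a; simp
    rw [h4] at h3
    exact h3
  have hcd : cd (n + 1) (fun t => push M p κ (e.symm ∘ t)) = 0 := by
    funext t
    rw [cd_precomp, ← push_dX, h1, push_zero]
    rfl
  obtain ⟨Ψ, hΨ, hdΨ⟩ := h _ hco hcd
  have hmem : ∀ s : Fin (n + 1) → Q.ι, Ψ (e ∘ s) ∈ NV (img (e ∘ s)) p (Sh p D1) :=
    fun s => hΨ _
  choose η hη1 hη2 using fun s => (kernel_iff M p s (Ψ (e ∘ s))).1 (hmem s)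
  refine ⟨η, funext hη1, ?_⟩
  apply push_injective M p
  rw [push_dX]
  have h5 : push M p η = fun s => Ψ (e ∘ s) := funext hη2
  rw [h5]
  funext s
  rw [cd_precomp, hdΨ]
  have h6 : e.symm ∘ (⇑e ∘ s) = s := by
    funext a; simp
  exact congrArg (push M p κ) h6

include M in
theorem vanish_of_acyc {k : ℕ} (h : Acyc (fun S => NV S p (Sh p D1)) k) : Q.Vanish p k := by
  rintro ⟨φ, ψ⟩ hx
  have hx1 : Q.dX p (k + 1) φ = 0 := congrArg Prod.fst hx
  have hx2 : Q.resE p (k + 1) φ - Q.dE p k ψ = 0 := congrArg Prod.snd hx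
  obtain ⟨ψ', hψ'⟩ := resE_surjective p ψ
  have h1 : Q.dX p (k + 1) (φ - Q.dX p k ψ') = 0 := by
    rw [dX_sub, hx1, dX_dX M, sub_zero]
  have h2 : Q.resE p (k + 1) (φ - Q.dX p k ψ') = 0 := by
    rw [resE_sub, resE_dX, hψ', hx2]
  obtain ⟨η, hη1, hη2⟩ := kernel_acyc M p h _ h1 h2
  have hA : Q.dX p k (ψ' + η) = φ := by
    rw [dX_add, hη2, add_sub_cancel]
  have hB : Q.resE p k (ψ' + η) = ψ := by
    rw [resE_add, hη1, add_zero, hψ']
  cases k with
  | zero =>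
    refine ⟨(ψ' + η, 0), ?_⟩
    change (Q.dX p 0 (ψ' + η), Q.resE p 0 (ψ' + η) - Q.pullZ p 0) = (φ, ψ)
    rw [hA, hB, pullZ_zero, sub_zero]
  | succ k =>
    refine ⟨(ψ' + η, 0), ?_⟩
    change (Q.dX p (k + 1) (ψ' + η), Q.resE p (k + 1) (ψ' + η) - Q.dE p k 0) = (φ, ψ)
    rw [hA, hB, dE_zero, sub_zero]

include M in
theorem acyc_of_vanish (hZ : Subsingleton (Hyper.Forms Q.OZ p)) (h : Q.Vanish p 0) :
    Acyc (fun S => NV S p (Sh p D1)) 0 := by
  intro Φ hΦ hdΦ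
  have hmem : ∀ s : Fin 2 → Q.ι, Φ (e ∘ s) ∈ NV (img (e ∘ s)) p (Sh p D1) := fun s => hΦ _
  choose κ hκ1 hκ2 using fun s => (kernel_iff M p s (Φ (e ∘ s))).1 (hmem s)
  have h5 : push M p κ = fun s => Φ (e ∘ s) := funext hκ2
  have h6 : Q.dX p 1 κ = 0 := by
    apply push_injective M p
    rw [push_dX, h5, push_zero]
    funext s
    rw [cd_precomp, hdΦ]
    rfl
  have h7 : Q.resE p 1 κ = 0 := funext hκ1
  obtain ⟨⟨φ, ω⟩, hy⟩ := h (κ, 0) (by
    change (Q.dX p 1 κ, Q.resE p 1 κ - Q.dE p 0 0) = (0, 0)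
    rw [h6, h7, dE_zero, sub_zero])
  have hy1 : Q.dX p 0 φ = κ := congrArg Prod.fst hy
  have hy2 : Q.resE p 0 φ - Q.pullZ p ω = 0 := congrArg Prod.snd hy
  have hω : ω = 0 := Subsingleton.elim _ _
  rw [hω, pullZ_zero, sub_zero] at hy2
  refine ⟨fun t => push M p φ (e.symm ∘ t), ?_, ?_⟩
  · intro t
    have h3 := (kernel_iff M p (e.symm ∘ t) (push M p φ (e.symm ∘ t))).2
      ⟨φ _, congrFun hy2 _, rfl⟩
    have h4 : ⇑e ∘ (e.symm ∘ t) = t := by
      funext a; simp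
    rw [h4] at h3
    exact h3
  · funext t
    rw [cd_precomp, ← push_dX, hy1, h5]
    have h4 : ⇑e ∘ (e.symm ∘ t) = t := by
      funext a; simp
    exact congrArg Φ h4

theorem forms_subsingleton {R : Type} [CommRing R] [Algebra ℂ R]
    (hR : Function.Surjective (algebraMap ℂ R)) {p : ℕ} (hp : 0 < p) : Subsingleton (Forms R p) := by
  refine ⟨fun x y => ?_⟩
  have key : ∀ x : Forms R p, x = 0 := by
    intro x
    refine Forms.induction (motive := fun x => x = 0) rfl ?_ ?_ x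
    · rintro x y rfl rfl
      rw [add_zero]
    · intro r b
      have : fm R b = 0 := by
        rw [fm]
        refine AlternatingMap.map_coord_zero _ ⟨0, hp⟩ ?_
        obtain ⟨c, hc⟩ := hR (b ⟨0, hp⟩)
        rw [← hc, Derivation.map_algebraMap]
      rw [this, smul_zero]
  rw [key x, key y]

include M in
/-- The conclusion for a square with chart models. -/
theorem conclusion (hZ : Function.Surjective (algebraMap ℂ (A ⧸ Q.J))) :
    Q.IsPreDuBois 3 ∧ ¬ Q.IsPreDuBois 6 := by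
  constructor
  · intro p hp k
    exact vanish_of_acyc M p (acyc_NV hp k)
  · intro h
    exact not_acyc_NV (acyc_of_vanish M 4 (forms_subsingleton hZ (by norm_num))
      (h 4 (by norm_num) 0))

end

end Pool.Agent.Hhelper18.DB
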