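import Mathlib

/-! Being an isomorphism is local on the target. -/

namespace Pool.Agent.Hhelper18.DB

set_option maxHeartbeats 400000

open AlgebraicGeometry CategoryTheory

theorem isIso_of_cover {X Y : Scheme.{0}} (f : X ⟶ Y) (U : Y.Opens) {ι : Type} (W : ι → Y.Opens)
    (hW : ∀ i, W i ≤ U) (hcov : U ≤ ⨆ i, W i) (h : ∀ i, IsIso (f ∣_ W i)) : IsIso (f ∣_ U) := by
  rw [← MorphismProperty.isomorphisms.iff]
  have htop : ⨆ i, U.ι ⁻¹ᵁ W i = ⊤ := by
    rw [eq_top_iff]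
    intro x _
    have hx : U.ι x ∈ ⨆ i, W i := hcov x.2
    rw [TopologicalSpace.Opens.mem_iSup] at hx ⊢
    exact hx
  refine IsZariskiLocalAtTarget.of_iSup_eq_top (P := MorphismProperty.isomorphisms Scheme)
    (fun i => U.ι ⁻¹ᵁ W i) htop (fun i => ?_)
  have h1 : U.ι ''ᵁ U.ι ⁻¹ᵁ W i = W i := by
    rw [Scheme.Hom.image_preimage_eq_opensRange_inf, Scheme.Opens.opensRange_ι]
    exact inf_eq_right.2 (hW i)
  refine ((MorphismProperty.isomorphisms Scheme).arrow_mk_iso_iff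
    (morphismRestrictRestrict f U _ ≪≫ morphismRestrictEq f h1)).2 ?_
  rw [MorphismProperty.isomorphisms.iff]
  exact h i

end Pool.Agent.Hhelper18.DB
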