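import Mathlib
import Pool.Agent.Hhelper18.DB.Defs

/-! A criterion for a morphism to an affine scheme to be an isomorphism over a basic open set. -/

namespace Pool.Agent.Hhelper18.DB

set_option maxHeartbeats 400000

open AlgebraicGeometry CategoryTheory Pool.Agent.Hhelper18.DuBois

theorem alg_bij {A₀ A₁ U₀ U₁ : Type*} [CommRing A₀] [CommRing A₁] [CommRing U₀] [CommRing U₁]
    (α : A₀ →+* A₁) (β : U₀ →+* U₁) (φ : A₀ →+* U₀) (ρ : A₁ →+* U₁)
    (hc : ∀ a, ρ (α a) = β (φ a)) (r : A₀) (hα1 : IsUnit (α r))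
    (hα2 : ∀ x, ∃ (n : ℕ) (a : A₀), x * α r ^ n = α a)
    (hβ2 : ∀ x, ∃ (n : ℕ) (a : U₀), x * β (φ r) ^ n = β a)
    (hβ3 : ∀ a, β a = 0 → ∃ n : ℕ, φ r ^ n * a = 0) (hφ : Function.Injective φ)
    (hloc : ∀ s, ∃ (n : ℕ) (a : A₀), φ a = φ r ^ n * s) : Function.Bijective ρ := by
  constructor
  · rw [injective_iff_map_eq_zero]
    intro x hx
    obtain ⟨n, a, ha⟩ := hα2 x
    have h1 : β (φ a) = 0 := by
      rw [← hc, ← ha, map_mul, hx, zero_mul]
    obtain ⟨m, hm⟩ := hβ3 _ h1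
    have h2 : r ^ m * a = 0 := by
      apply hφ
      rw [map_mul, map_pow, hm, map_zero]
    have h3 : α a = 0 := by
      have h4 := congrArg α h2
      rw [map_mul, map_pow, map_zero] at h4
      exact (hα1.pow m).mul_right_eq_zero.1 h4
    rw [h3] at ha
    exact (hα1.pow n).mul_left_eq_zero.1 ha
  · intro y
    obtain ⟨n, s, hs⟩ := hβ2 y
    obtain ⟨m, a, ha⟩ := hloc s
    obtain ⟨u, hu⟩ := hα1
    refine ⟨α a * ((u⁻¹ : A₁ˣ) : A₁) ^ (n + m), ?_⟩
    have h1 : ρ (u : A₁) = β (φ r) := by rw [hu, hc]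
    have h2 : β (φ r) ^ (n + m) * ρ ((u⁻¹ : A₁ˣ) : A₁) ^ (n + m) = 1 := by
      rw [← h1, ← map_pow, ← map_pow, ← map_mul, ← mul_pow, Units.mul_inv, one_pow, map_one]
    rw [map_mul, hc, ha, map_pow, map_mul, map_pow, ← hs]
    calc β (φ r) ^ m * (y * β (φ r) ^ n) * ρ ((u⁻¹ : A₁ˣ) : A₁) ^ (n + m)
        = y * (β (φ r) ^ (n + m) * ρ ((u⁻¹ : A₁ˣ) : A₁) ^ (n + m)) := by ring
      _ = y := by rw [h2, mul_one]

theorem loc_props {X : Scheme.{0}} {U : X.Opens} (hU : IsAffineOpen U) (s : Γ(X, U)) (W : X.Opens)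
    (hW : W = X.basicOpen s) (h : W ≤ U) :
    IsUnit ((X.presheaf.map (homOfLE h).op).hom s) ∧
    (∀ x : Γ(X, W), ∃ (n : ℕ) (a : Γ(X, U)), x * (X.presheaf.map (homOfLE h).op).hom s ^ n =
      (X.presheaf.map (homOfLE h).op).hom a) ∧
    ∀ a : Γ(X, U), (X.presheaf.map (homOfLE h).op).hom a = 0 → ∃ n : ℕ, s ^ n * a = 0 := by
  subst hW
  have h1 := hU.isLocalization_basicOpen s
  refine ⟨IsLocalization.Away.algebraMap_isUnit (S := Γ(X, X.basicOpen s)) s,
    fun x => IsLocalization.Away.surj s x, fun a ha => ?_⟩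
  obtain ⟨n, hn⟩ := IsLocalization.Away.exists_of_eq (S := Γ(X, X.basicOpen s)) s
    (a := a) (b := 0) (ha.trans (map_zero _).symm)
  exact ⟨n, by rw [hn, mul_zero]⟩

theorem isIso_over {A : Type} [CommRing A] {X' : Scheme.{0}} (π : X' ⟶ Spec (CommRingCat.of A))
    (b : A) (U : X'.Opens) (hU : IsAffineOpen U)
    (hsub : π ⁻¹ᵁ (PrimeSpectrum.basicOpen b) ≤ U)
    (hinj : Function.Injective (Sec.hom π U))
    (hloc : ∀ s : Sec π U, ∃ (n : ℕ) (a : A), Sec.hom π U a = Sec.hom π U b ^ n * s) :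
    IsIso (π ∣_ (PrimeSpectrum.basicOpen b)) := by
  set r : Γ(Spec (CommRingCat.of A), ⊤) := (Scheme.ΓSpecIso (CommRingCat.of A)).inv b with hr
  have hD : (Spec (CommRingCat.of A)).basicOpen r = PrimeSpectrum.basicOpen b :=
    basicOpen_eq_of_affine (R := CommRingCat.of A) b
  have hDaff : IsAffineOpen (X := Spec (CommRingCat.of A)) (PrimeSpectrum.basicOpen b) :=
    IsAffineOpen.Spec_basicOpen (R := CommRingCat.of A) b
  -- the section on `U`
  set sU : Γ(X', U) := Sec.hom π U b with hsU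
  have hsU' : sU = X'.presheaf.map (homOfLE (le_top : U ≤ ⊤)).op (π.appTop r) := rfl
  have hW : X'.basicOpen sU = π ⁻¹ᵁ (PrimeSpectrum.basicOpen b) := by
    rw [hsU', Scheme.basicOpen_res, ← Scheme.preimage_basicOpen_top, hD]
    exact inf_eq_right.2 hsub
  have hWaff : IsAffineOpen (π ⁻¹ᵁ (PrimeSpectrum.basicOpen b)) := by
    rw [← hW]
    exact hU.basicOpen sU
  have key : ∀ V : (Spec (CommRingCat.of A)).Opens, V = PrimeSpectrum.basicOpen b →
      IsIso (π.app V) := by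
    intro V hV
    have hV' : V = (Spec (CommRingCat.of A)).basicOpen r := hV.trans hD.symm
    subst hV'
    have hWU : π ⁻¹ᵁ (Spec (CommRingCat.of A)).basicOpen r ≤ U := by rw [hV]; exact hsub
    obtain ⟨a1, a2, -⟩ := loc_props (isAffineOpen_top (Spec (CommRingCat.of A))) r
      ((Spec (CommRingCat.of A)).basicOpen r) rfl le_top
    obtain ⟨-, b2, b3⟩ := loc_props hU sU (π ⁻¹ᵁ (Spec (CommRingCat.of A)).basicOpen r)
      (by rw [hW, hV]) hWU
    rw [ConcreteCategory.isIso_iff_bijective]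
    refine alg_bij ((Spec (CommRingCat.of A)).presheaf.map (homOfLE le_top).op).hom
      (X'.presheaf.map (homOfLE hWU).op).hom
      (π.appTop ≫ X'.presheaf.map (homOfLE (le_top : U ≤ ⊤)).op).hom
      (π.app _).hom ?_ r a1 a2 b2 b3 ?_ ?_
    · intro a
      have h1 := π.naturality (homOfLE (le_top : (Spec (CommRingCat.of A)).basicOpen r ≤ ⊤)).op
      have h2 := congrArg (fun g => g.hom a) h1
      refine h2.trans ?_
      change _ = ((π.appTop ≫ X'.presheaf.map (homOfLE (le_top : U ≤ ⊤)).op) ≫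
        X'.presheaf.map (homOfLE hWU).op).hom a
      rw [Category.assoc, ← Functor.map_comp]
      rfl
    · intro x y hxy
      have hx : ∀ x : Γ(Spec (CommRingCat.of A), ⊤), ∃ a : A,
          (Scheme.ΓSpecIso (CommRingCat.of A)).inv.hom a = x := by
        intro x
        refine ⟨(Scheme.ΓSpecIso (CommRingCat.of A)).hom.hom x, ?_⟩
        have := (Scheme.ΓSpecIso (CommRingCat.of A)).hom_inv_id
        exact congrArg (fun g => g.hom x) this
      obtain ⟨a, rfl⟩ := hx x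
      obtain ⟨a', rfl⟩ := hx y
      have h1 : Sec.hom π U a = Sec.hom π U a' := hxy
      rw [hinj h1]
    · intro s
      obtain ⟨n, a, ha⟩ := hloc s
      exact ⟨n, (Scheme.ΓSpecIso (CommRingCat.of A)).inv.hom a, ha⟩
  have : IsAffine (Scheme.Opens.toScheme (X := Spec (CommRingCat.of A))
    (PrimeSpectrum.basicOpen b)) := hDaff
  refine (HasAffineProperty.iff_of_isAffine (P := MorphismProperty.isomorphisms Scheme)).mpr ?_
  refine ⟨hWaff, ?_⟩
  rw [morphismRestrict_appTop]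
  have h1 := key (Scheme.Hom.opensFunctor (Scheme.Opens.ι (X := Spec (CommRingCat.of A))
    (PrimeSpectrum.basicOpen b)) |>.obj ⊤) (Scheme.Opens.ι_image_top _)
  refine IsIso.comp_isIso' h1 ?_
  exact Functor.map_isIso X'.presheaf _

end Pool.Agent.Hhelper18.DB
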