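import Mathlib

/-! Rees-type graded rings and their projective spectra. -/

namespace Pool.Agent.Hhelper18.DB

set_option maxHeartbeats 400000

open Polynomial

section Rees

variable {L : Type} [CommRing L] [Algebra ℂ L] (F : ℕ → Submodule ℂ L) [SetLike.GradedMonoid F]

/-- `⊕ F_k T^k` inside `L[T]`. -/
noncomputable def rees : Subalgebra ℂ L[X] where
  carrier := {f | ∀ k, f.coeff k ∈ F k}
  mul_mem' := by
    intro f g hf hg k
    rw [Polynomial.coeff_mul]
    refine Submodule.sum_mem _ (fun x hx => ?_)
    have h1 := SetLike.GradedMul.mul_mem (hf x.1) (hg x.2)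
    have h2 : x.1 + x.2 = k := by simpa using hx
    rwa [h2] at h1
  add_mem' := by
    intro f g hf hg k
    rw [Polynomial.coeff_add]
    exact Submodule.add_mem _ (hf k) (hg k)
  algebraMap_mem' := by
    intro c k
    rw [Polynomial.algebraMap_apply, Polynomial.coeff_C]
    split_ifs with h
    · rw [h, Algebra.algebraMap_eq_smul_one]
      exact Submodule.smul_mem _ _ SetLike.GradedOne.one_mem
    · exact Submodule.zero_mem _

/-- the graded pieces -/
noncomputable def rgr (k : ℕ) : Submodule ℂ (rees F) where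
  carrier := {f | ∀ j, j ≠ k → f.1.coeff j = 0}
  zero_mem' := by intro j _; simp
  add_mem' := by
    intro f g hf hg j hj
    change (f.1 + g.1).coeff j = 0
    rw [Polynomial.coeff_add, hf j hj, hg j hj, add_zero]
  smul_mem' := by
    intro c f hf j hj
    change (c • f.1).coeff j = 0
    rw [Polynomial.coeff_smul, hf j hj, smul_zero]

theorem mem_rgr {k : ℕ} {f : rees F} : f ∈ rgr F k ↔ ∀ j, j ≠ k → f.1.coeff j = 0 := Iff.rfl

/-- `c T^k` -/
noncomputable def mono (k : ℕ) (c : L) (hc : c ∈ F k) : rees F :=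
  ⟨monomial k c, by
    intro j
    rw [Polynomial.coeff_monomial]
    split_ifs with h
    · rw [← h]; exact hc
    · exact Submodule.zero_mem _⟩

theorem mono_mem (k : ℕ) (c : L) (hc : c ∈ F k) : mono F k c hc ∈ rgr F k := by
  intro j hj
  change (monomial k c).coeff j = 0
  rw [Polynomial.coeff_monomial, if_neg (Ne.symm hj)]

theorem coeff_mono (k : ℕ) (c : L) (hc : c ∈ F k) : (mono F k c hc).1.coeff k = c := by
  change (monomial k c).coeff k = c
  rw [Polynomial.coeff_monomial, if_pos rfl]

theorem eq_mono {k : ℕ} {f : rees F} (hf : f ∈ rgr F k) : f = mono F k (f.1.coeff k) (f.2 k) := by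
  ext j
  change f.1.coeff j = (monomial k (f.1.coeff k)).coeff j
  rw [Polynomial.coeff_monomial]
  split_ifs with h
  · rw [h]
  · exact hf j (Ne.symm h)

theorem rgr_ext {k : ℕ} {f g : rees F} (hf : f ∈ rgr F k) (hg : g ∈ rgr F k)
    (h : f.1.coeff k = g.1.coeff k) : f = g := by
  rw [eq_mono F hf, eq_mono F hg]
  ext j
  change (monomial k (f.1.coeff k)).coeff j = (monomial k (g.1.coeff k)).coeff j
  rw [h]

theorem mono_mul_mono {j k : ℕ} {a b : L} (ha : a ∈ F j) (hb : b ∈ F k) :
    mono F j a ha * mono F k b hb = mono F (j + k) (a * b) (SetLike.GradedMul.mul_mem ha hb) := by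
  ext1
  exact Polynomial.monomial_mul_monomial j k a b

/-- the coefficient -/
noncomputable def coeffHom (k : ℕ) : rees F →+ L where
  toFun f := f.1.coeff k
  map_zero' := by simp
  map_add' f g := Polynomial.coeff_add f.1 g.1 k

open Classical in
theorem coeff_coe (k : ℕ) (x : DirectSum ℕ (fun i => rgr F i)) :
    coeffHom F k (DirectSum.coeAddMonoidHom (rgr F) x) = coeffHom F k (x k).1 := by
  have h : (coeffHom F k).comp (DirectSum.coeAddMonoidHom (rgr F)) =
      ((coeffHom F k).comp (rgr F k).subtype.toAddMonoidHom).comp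
        (DFinsupp.evalAddMonoidHom k) := by
    refine DirectSum.addHom_ext (fun j y => ?_)
    rw [AddMonoidHom.comp_apply, DirectSum.coeAddMonoidHom_of]
    change coeffHom F k y.1 = coeffHom F k (DirectSum.of (fun i => rgr F i) j y k).1
    by_cases hjk : j = k
    · subst hjk
      rw [DirectSum.of_eq_same]
    · rw [DirectSum.of_eq_of_ne _ _ _ (Ne.symm hjk)]
      have : coeffHom F k y.1 = 0 := y.2 k (Ne.symm hjk)
      rw [this]
      exact (map_zero (coeffHom F k)).symm
  exact DFunLike.congr_fun h x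

noncomputable instance decomp : DirectSum.Decomposition (rgr F) where
  decompose' f := ∑ k ∈ f.1.support, DirectSum.of (fun i => rgr F i) k
    ⟨mono F k (f.1.coeff k) (f.2 k), mono_mem F _ _ _⟩
  left_inv := by
    intro f
    rw [map_sum]
    simp only [DirectSum.coeAddMonoidHom_of]
    ext1
    rw [AddSubmonoidClass.coe_finsetSum]
    exact (Polynomial.as_sum_support f.1).symm
  right_inv := by
    intro x
    have hinj : Function.Injective (DirectSum.coeAddMonoidHom (rgr F)) := by
      intro x y hxy
      refine DFinsupp.ext (fun k => ?_)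
      have h1 := coeff_coe F k x
      rw [hxy, coeff_coe F k y] at h1
      exact Subtype.ext (rgr_ext F (x k).2 (y k).2 h1.symm)
    apply hinj
    rw [map_sum]
    simp only [DirectSum.coeAddMonoidHom_of]
    ext1
    rw [AddSubmonoidClass.coe_finsetSum]
    exact (Polynomial.as_sum_support _).symm

noncomputable instance gradedRing : GradedRing (rgr F) where
  one_mem := by
    intro j hj
    change (1 : L[X]).coeff j = 0
    rw [Polynomial.coeff_one, if_neg (Ne.symm hj.symm)]
  mul_mem := by
    intro j k f g hf hg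
    rw [eq_mono F hf, eq_mono F hg, mono_mul_mono]
    exact mono_mem F _ _ _

/-- evaluation at `T = 1` -/
noncomputable def evT : rees F →ₐ[ℂ] L := ((Polynomial.aeval (1 : L)).restrictScalars ℂ).comp
  (rees F).val

theorem evT_mono (k : ℕ) (c : L) (hc : c ∈ F k) : evT F (mono F k c hc) = c := by
  change Polynomial.aeval (1 : L) (monomial k c) = c
  rw [Polynomial.aeval_monomial, one_pow, mul_one]
  rfl

theorem evT_mem {k : ℕ} {f : rees F} (hf : f ∈ rgr F k) : evT F f ∈ F k := by
  rw [eq_mono F hf, evT_mono]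
  exact f.2 k

theorem evT_eq_zero {k : ℕ} {f : rees F} (hf : f ∈ rgr F k) (h0 : evT F f = 0) : f = 0 := by
  rw [eq_mono F hf, evT_mono] at h0
  rw [eq_mono F hf]
  ext j
  change (monomial k (f.1.coeff k)).coeff j = 0
  rw [h0, map_zero, Polynomial.coeff_zero]

open HomogeneousLocalization

/-- The homogeneous localization maps to `L`. -/
noncomputable def jA {f : rees F} (hu : IsUnit (evT F f)) : Away (rgr F) f →+* L :=
  (Localization.awayLift (evT F).toRingHom f hu).comp
    (algebraMap (Away (rgr F) f) (Localization.Away f))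

theorem jA_mk {f : rees F} (hu : IsUnit (evT F f)) {d : ℕ} (hf : f ∈ rgr F d) (n : ℕ)
    (x : rees F) (hx : x ∈ rgr F (n • d)) :
    jA F hu (Away.mk (rgr F) hf n x hx) * (evT F f) ^ n = evT F x := by
  rw [jA, RingHom.comp_apply, HomogeneousLocalization.algebraMap_apply, Away.val_mk]
  have h1 : Localization.mk x ⟨f ^ n, by use n⟩ * algebraMap (rees F) (Localization.Away f) (f ^ n) =
      algebraMap (rees F) (Localization.Away f) x := by
    rw [Localization.mk_eq_mk']
    exact IsLocalization.mk'_spec (Localization.Away f) x (⟨f ^ n, by use n⟩ : Submonoid.powers f)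
  have h2 := congrArg (Localization.awayLift (evT F).toRingHom f hu) h1
  have h3 : ∀ y, Localization.awayLift (evT F).toRingHom f hu
      (algebraMap (rees F) (Localization.Away f) y) = evT F y :=
    fun y => IsLocalization.Away.lift_eq f hu y
  rw [map_mul, h3, h3, map_pow] at h2
  exact h2

theorem jA_injective {f : rees F} (hu : IsUnit (evT F f)) {d : ℕ} (hf : f ∈ rgr F d) :
    Function.Injective (jA F hu) := by
  rw [injective_iff_map_eq_zero]
  intro a ha
  obtain ⟨n, x, hx, rfl⟩ := Away.mk_surjective (rgr F) hf a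
  have h1 := jA_mk F hu hf n x hx
  rw [ha, zero_mul] at h1
  have h2 : x = 0 := evT_eq_zero F hx h1.symm
  subst h2
  exact mk_eq_zero_of_num _ rfl

theorem jA_range {f : rees F} (hu : IsUnit (evT F f)) {d : ℕ} (hf : f ∈ rgr F d) (y : L) :
    (∃ a, jA F hu a = y) ↔ ∃ n : ℕ, y * (evT F f) ^ n ∈ F (n • d) := by
  constructor
  · rintro ⟨a, rfl⟩
    obtain ⟨n, x, hx, rfl⟩ := Away.mk_surjective (rgr F) hf a
    refine ⟨n, ?_⟩
    rw [jA_mk F hu hf n x hx]
    exact evT_mem F hx
  · rintro ⟨n, hn⟩
    refine ⟨Away.mk (rgr F) hf n (mono F (n • d) _ hn) (mono_mem F _ _ _), ?_⟩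
    have h1 := jA_mk F hu hf n _ (mono_mem F (n • d) _ hn)
    rw [evT_mono] at h1
    exact (hu.pow n).mul_right_cancel h1

theorem jA_fromZero {f : rees F} (hu : IsUnit (evT F f)) (a : rgr F 0) :
    jA F hu (fromZeroRingHom (rgr F) (Submonoid.powers f) a) = evT F a.1 := by
  have h : (fromZeroRingHom (rgr F) (Submonoid.powers f) a).val =
      algebraMap (rees F) (Localization.Away f) a.1 := by
    have := IsScalarTower.algebraMap_apply (rgr F 0) (Away (rgr F) f) (Localization.Away f) a
    rw [HomogeneousLocalization.algebraMap_eq, HomogeneousLocalization.algebraMap_apply] at this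
    rw [← this]
    rfl
  rw [jA, RingHom.comp_apply, HomogeneousLocalization.algebraMap_apply, h]
  exact IsLocalization.Away.lift_eq f hu a.1

theorem jA_elem {f g : rees F} (hf : f ∈ rgr F 1) (hg : g ∈ rgr F 1) (hu : IsUnit (evT F f)) :
    jA F hu (Away.isLocalizationElem hf hg) * evT F f = evT F g := by
  have h : jA F hu (Away.isLocalizationElem hf hg) * evT F f ^ 1 = evT F (g ^ 1) :=
    jA_mk F hu hf 1 (g ^ 1) _
  rwa [pow_one, pow_one] at h

/-- In a chart, `a = (g/f) t`. -/
theorem jA_factor {f g : rees F} (hf : f ∈ rgr F 1) (hg : g ∈ rgr F 1) (hu : IsUnit (evT F f))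
    (a : rgr F 0) (t : Away (rgr F) f) (h : evT F a.1 * evT F f = evT F g * jA F hu t) :
    fromZeroRingHom (rgr F) (Submonoid.powers f) a = Away.isLocalizationElem hf hg * t := by
  apply jA_injective F hu hf
  rw [jA_fromZero, map_mul]
  refine hu.mul_right_cancel ?_
  rw [h, ← jA_elem F hf hg hu]
  ring

theorem jA_awayMap {f g x : rees F} {d e : ℕ} (hf : f ∈ rgr F d) (hg : g ∈ rgr F e)
    (hx : x = f * g) (hu : IsUnit (evT F f)) (hux : IsUnit (evT F x)) (a : Away (rgr F) f) :
    jA F hux (awayMap (rgr F) hg hx a) = jA F hu a := by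
  obtain ⟨n, y, hy, rfl⟩ := Away.mk_surjective (rgr F) hf a
  have h1 := jA_mk F hu hf n y hy
  rw [awayMap_mk]
  have hxd : x ∈ rgr F (d + e) := hx ▸ SetLike.mul_mem_graded hf hg
  have hy' : y * g ^ n ∈ rgr F (n • (d + e)) := by
    rw [smul_add]; exact SetLike.mul_mem_graded hy (SetLike.pow_mem_graded n hg)
  have h2 := jA_mk F hux hxd n (y * g ^ n) hy'
  refine (hux.pow n).mul_right_cancel (h2.trans ?_)
  rw [map_mul, map_pow, ← h1, hx, map_mul, mul_pow, mul_assoc]

end Rees

end Pool.Agent.Hhelper18.DB
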