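import Mathlib
import Pool.Agent.Hhelper18.DB.Rees
import Pool.Agent.Hhelper18.DB.Defs

/-! Sections over basic open sets of `Proj` of a Rees-type ring. -/

namespace Pool.Agent.Hhelper18.DB

set_option maxHeartbeats 400000

open AlgebraicGeometry CategoryTheory HomogeneousLocalization Pool.Agent.Hhelper18.DuBois

section

variable {L : Type} [CommRing L] [Algebra ℂ L] (F : ℕ → Submodule ℂ L) [SetLike.GradedMonoid F]

/-- The structure map of sections over `D₊(f)`. -/
theorem hom_basicOpen {f : rees F} {d : ℕ} (hf : f ∈ rgr F d) (hd : 0 < d) :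
    (Scheme.ΓSpecIso (CommRingCat.of (rgr F 0))).inv ≫ (Proj.toSpecZero (rgr F)).appTop ≫
      (Proj (rgr F)).presheaf.map (homOfLE (le_top : Proj.basicOpen (rgr F) f ≤ ⊤)).op =
    CommRingCat.ofHom (fromZeroRingHom (rgr F) (Submonoid.powers f)) ≫
      Proj.awayToSection (rgr F) f := by
  have h1 : (Proj.basicOpen (rgr F) f).ι ≫ Proj.toSpecZero (rgr F) =
      Proj.basicOpenToSpec (rgr F) f ≫
        Spec.map (CommRingCat.ofHom (fromZeroRingHom (rgr F) (Submonoid.powers f))) := by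
    rw [← Proj.awayι_toSpecZero (rgr F) f hf hd, ← Proj.basicOpenIsoSpec_hom (rgr F) f hf hd,
      ← Proj.basicOpenIsoSpec_inv_ι, Category.assoc, Iso.hom_inv_id_assoc]
  have h2 := congrArg (fun g => Scheme.Hom.appTop g) h1
  simp only [Scheme.Hom.comp_appTop] at h2
  have h3 : (Proj.basicOpenToSpec (rgr F) f).appTop = (Scheme.ΓSpecIso _).hom ≫
      Proj.awayToSection (rgr F) f ≫ (Proj.basicOpen (rgr F) f).topIso.inv :=
    Proj.basicOpenToSpec_app_top (rgr F) f
  rw [h3, Scheme.ΓSpecIso_naturality_assoc, Scheme.Opens.ι_appTop] at h2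
  have h4 := congrArg (fun g => (Scheme.ΓSpecIso (CommRingCat.of (rgr F 0))).inv ≫ g ≫
    (Proj.basicOpen (rgr F) f).topIso.hom) h2
  simp only [Category.assoc, Iso.inv_hom_id, Category.comp_id, Iso.inv_hom_id_assoc] at h4
  rw [← h4]
  congr 2

/-- the projection `Proj → Spec A` -/
noncomputable abbrev prj : Proj (rgr F) ⟶ Spec (CommRingCat.of (rgr F 0)) :=
  Proj.toSpecZero (rgr F)

variable {fa : rees F} {d : ℕ} (hfa : fa ∈ rgr F d) (hd : 0 < d) (hu : IsUnit (evT F fa))

/-- the embedding of sections into `L` -/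
noncomputable def jR (V : (Proj (rgr F)).Opens) (hV : Proj.basicOpen (rgr F) fa ≤ V) :
    Sec (prj F) V →+* L :=
  (jA F hu).comp ((Proj (rgr F)).presheaf.map (homOfLE hV).op ≫
    (Proj.basicOpenIsoAway (rgr F) fa hfa hd).inv).hom

theorem jR_res {V W : (Proj (rgr F)).Opens} (hW : Proj.basicOpen (rgr F) fa ≤ W) (h : W ≤ V)
    (s : Sec (prj F) V) :
    jR F hfa hd hu W hW (Sec.res (prj F) h s) = jR F hfa hd hu V (hW.trans h) s := by
  change jA F hu (((Proj (rgr F)).presheaf.map (homOfLE h).op ≫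
    (Proj (rgr F)).presheaf.map (homOfLE hW).op ≫
    (Proj.basicOpenIsoAway (rgr F) fa hfa hd).inv).hom s) = _
  rw [← Category.assoc, ← Functor.map_comp]
  rfl

theorem jR_algebraMap (V : (Proj (rgr F)).Opens) (hV : Proj.basicOpen (rgr F) fa ≤ V)
    (a : rgr F 0) : jR F hfa hd hu V hV (algebraMap (rgr F 0) (Sec (prj F) V) a) = evT F a.1 := by
  have h1 := hom_basicOpen F hfa hd
  have h2 : jR F hfa hd hu V hV (algebraMap (rgr F 0) (Sec (prj F) V) a) =
      jA F hu ((((Scheme.ΓSpecIso (CommRingCat.of (rgr F 0))).inv ≫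
        (Proj.toSpecZero (rgr F)).appTop ≫ (Proj (rgr F)).presheaf.map
          (homOfLE (le_top : Proj.basicOpen (rgr F) fa ≤ ⊤)).op) ≫
            (Proj.basicOpenIsoAway (rgr F) fa hfa hd).inv).hom a) := by
    have h3 : (homOfLE (le_top : Proj.basicOpen (rgr F) fa ≤ ⊤)).op =
        (homOfLE (le_top : V ≤ ⊤)).op ≫ (homOfLE hV).op := rfl
    rw [h3, Functor.map_comp]
    simp only [Category.assoc]
    rfl
  rw [h2, h1, Category.assoc]
  have h4 : Proj.awayToSection (rgr F) fa ≫ (Proj.basicOpenIsoAway (rgr F) fa hfa hd).inv = 𝟙 _ := by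
    rw [← Proj.basicOpenIsoAway_hom (rgr F) fa hfa hd, Iso.hom_inv_id]
  rw [h4, Category.comp_id]
  exact jA_fromZero F hu a

/-- as a homomorphism of `ℂ`-algebras -/
noncomputable def jC (V : (Proj (rgr F)).Opens) (hV : Proj.basicOpen (rgr F) fa ≤ V) :
    Sec (prj F) V →ₐ[ℂ] L where
  toRingHom := jR F hfa hd hu V hV
  commutes' c := by
    have h1 : algebraMap ℂ (Sec (prj F) V) c =
      algebraMap (rgr F 0) (Sec (prj F) V) (algebraMap ℂ (rgr F 0) c) := rfl
    change jR F hfa hd hu V hV (algebraMap ℂ (Sec (prj F) V) c) = _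
    rw [h1, jR_algebraMap]
    exact (evT F).commutes c

theorem jC_apply (V : (Proj (rgr F)).Opens) (hV : Proj.basicOpen (rgr F) fa ≤ V)
    (s : Sec (prj F) V) : jC F hfa hd hu V hV s = jR F hfa hd hu V hV s := rfl

theorem jR_awayToSection {f g : rees F} {k l : ℕ} (hf : f ∈ rgr F k) (hg : g ∈ rgr F l)
    (hfg : fa = f * g) (huf : IsUnit (evT F f)) (a : Away (rgr F) f)
    (hV : Proj.basicOpen (rgr F) fa ≤ Proj.basicOpen (rgr F) f) :
    jR F hfa hd hu _ hV ((Proj.awayToSection (rgr F) f).hom a) = jA F huf a := by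
  have h1 := Proj.awayMap_awayToSection (𝒜 := rgr F) hg hfg
  have h4 : Proj.awayToSection (rgr F) fa ≫ (Proj.basicOpenIsoAway (rgr F) fa hfa hd).inv = 𝟙 _ := by
    rw [← Proj.basicOpenIsoAway_hom (rgr F) fa hfa hd, Iso.hom_inv_id]
  have h2 : jR F hfa hd hu _ hV ((Proj.awayToSection (rgr F) f).hom a) =
      jA F hu (((Proj.awayToSection (rgr F) f ≫ (Proj (rgr F)).presheaf.map (homOfLE hV).op) ≫
        (Proj.basicOpenIsoAway (rgr F) fa hfa hd).inv).hom a) := rfl
  have h5 : Proj.awayToSection (rgr F) f ≫ (Proj (rgr F)).presheaf.map (homOfLE hV).op =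
      CommRingCat.ofHom (awayMap (rgr F) hg hfg) ≫ Proj.awayToSection (rgr F) fa := h1.symm
  rw [h2, h5, Category.assoc, h4, Category.comp_id]
  exact jA_awayMap F hf hg hfg huf hu a

/-- sections over `D₊(f)` -/
theorem jR_basicOpen {f g : rees F} {k l : ℕ} (hf : f ∈ rgr F k) (hk : 0 < k) (hg : g ∈ rgr F l)
    (hfg : fa = f * g) (huf : IsUnit (evT F f)) (V : (Proj (rgr F)).Opens)
    (hVf : V = Proj.basicOpen (rgr F) f) (hV : Proj.basicOpen (rgr F) fa ≤ V) :
    Function.Injective (jR F hfa hd hu V hV) ∧ ∀ y, (∃ s, jR F hfa hd hu V hV s = y) ↔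
      ∃ n : ℕ, y * (evT F f) ^ n ∈ F (n • k) := by
  subst hVf
  have hsurj : ∀ s : Sec (prj F) (Proj.basicOpen (rgr F) f), ∃ a,
      (Proj.awayToSection (rgr F) f).hom a = s := by
    intro s
    refine ⟨(Proj.basicOpenIsoAway (rgr F) f hf hk).inv.hom s, ?_⟩
    rw [← Proj.basicOpenIsoAway_hom (rgr F) f hf hk]
    have := (Proj.basicOpenIsoAway (rgr F) f hf hk).inv_hom_id
    exact congrArg (fun g => g.hom s) this
  constructor
  · rw [injective_iff_map_eq_zero]
    intro s hs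
    obtain ⟨a, rfl⟩ := hsurj s
    rw [jR_awayToSection F hfa hd hu hf hg hfg huf] at hs
    rw [jA_injective F huf hf (hs.trans (map_zero _).symm), map_zero]
    rfl
  · intro y
    rw [← jA_range F huf hf]
    constructor
    · rintro ⟨s, rfl⟩
      obtain ⟨a, rfl⟩ := hsurj s
      exact ⟨a, (jR_awayToSection F hfa hd hu hf hg hfg huf a hV).symm⟩
    · rintro ⟨a, rfl⟩
      exact ⟨_, jR_awayToSection F hfa hd hu hf hg hfg huf a hV⟩

end

end Pool.Agent.Hhelper18.DB
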