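import Mathlib
import Pool.Agent.Hhelper18.DB.Link

/-! Charts are polynomial rings. -/

namespace Pool.Agent.Hhelper18.DB

set_option maxHeartbeats 400000

open KaehlerDifferential Pool.Agent.Hhelper18.DuBois Module

theorem LL_nontrivial : Nontrivial LL := by
  refine ⟨⟨1, 0, fun h => ?_⟩⟩
  have h1 : (1 : LL).re.coeff 0 = (0 : LL).re.coeff 0 := by rw [h]
  rw [← mR_zero] at h1
  simp [mR] at h1

theorem algebraMap_LL_injective : Function.Injective (algebraMap ℂ LL) := by
  have := LL_nontrivial
  exact (algebraMap ℂ LL).injective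

section Jacobian

variable {σ : Type} [Fintype σ] {L : Type} [CommRing L] [Algebra ℂ L] (Y : σ → L)

theorem D_aeval (P : MvPolynomial σ ℂ) : D ℂ L (MvPolynomial.aeval Y P) =
    ∑ k, MvPolynomial.aeval Y (MvPolynomial.pderiv k P) • D ℂ L (Y k) := by
  classical
  induction P using MvPolynomial.induction_on with
  | C a =>
    rw [MvPolynomial.aeval_C, Derivation.map_algebraMap]
    simp
  | add p q hp hq =>
    rw [map_add, map_add, hp, hq, ← Finset.sum_add_distrib]
    refine Finset.sum_congr rfl (fun k _ => ?_)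
    rw [map_add, map_add, add_smul]
  | mul_X p n hp =>
    rw [map_mul, MvPolynomial.aeval_X, Derivation.leibniz, hp]
    have h1 : ∀ k, MvPolynomial.aeval Y (MvPolynomial.pderiv k (p * MvPolynomial.X n)) •
        D ℂ L (Y k) = (if k = n then MvPolynomial.aeval Y p • D ℂ L (Y n) else 0) +
        Y n • (MvPolynomial.aeval Y (MvPolynomial.pderiv k p) • D ℂ L (Y k)) := by
      intro k
      rw [MvPolynomial.pderiv_mul, MvPolynomial.pderiv_X, map_add, map_mul, map_mul,
        MvPolynomial.aeval_X, add_smul, add_comm]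
      congr 1
      · by_cases h : k = n
        · subst h; simp
        · rw [Pi.single_eq_of_ne (Ne.symm h), if_neg h]; simp
      · rw [smul_smul, mul_comm]
    rw [Finset.sum_congr rfl (fun k _ => h1 k), Finset.sum_add_distrib, ← Finset.smul_sum,
      Finset.sum_ite_eq' Finset.univ n (fun _ => MvPolynomial.aeval Y p • D ℂ L (Y n)),
      if_pos (Finset.mem_univ n)]

theorem aeval_injective [Nontrivial L] (hY : LinearIndependent L (fun k => D ℂ L (Y k))) :
    Function.Injective (MvPolynomial.aeval Y : MvPolynomial σ ℂ →ₐ[ℂ] L) := by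
  classical
  rw [injective_iff_map_eq_zero]
  have key : ∀ (n : ℕ) (P : MvPolynomial σ ℂ), P.totalDegree ≤ n → MvPolynomial.aeval Y P = 0 →
      P = 0 := by
    intro n
    induction n with
    | zero =>
      intro P hP h0
      rw [Nat.le_zero, MvPolynomial.totalDegree_eq_zero_iff_eq_C] at hP
      rw [hP, MvPolynomial.aeval_C] at h0
      have := (algebraMap ℂ L).injective (h0.trans (map_zero _).symm)
      rw [hP, this, map_zero]
    | succ n ih =>
      intro P hP h0
      have h1 : ∀ k, MvPolynomial.aeval Y (MvPolynomial.pderiv k P) = 0 := by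
        have h2 := D_aeval Y P
        rw [h0, map_zero] at h2
        exact Fintype.linearIndependent_iff.1 hY _ h2.symm
      have h3 : ∀ k, MvPolynomial.pderiv k P = 0 := by
        intro k
        refine ih _ ?_ (h1 k)
        rw [MvPolynomial.totalDegree, Finset.sup_le_iff]
        intro m hm
        rw [MvPolynomial.mem_support_iff, MvPolynomial.coeff_pderiv] at hm
        have h4 : m + Finsupp.single k 1 ∈ P.support := by
          rw [MvPolynomial.mem_support_iff]
          exact fun h => hm (by rw [h, zero_mul])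
        have h5 := MvPolynomial.le_totalDegree h4
        have h6 : ((m + Finsupp.single k 1).sum fun _ e => e) = (m.sum fun _ e => e) + 1 := by
          rw [Finsupp.sum_add_index' (fun _ => rfl) (fun _ _ _ => rfl), Finsupp.sum_single_index rfl]
        omega
      have h7 : P = MvPolynomial.C (MvPolynomial.coeff 0 P) := by
        ext m
        rw [MvPolynomial.coeff_C]
        split_ifs with h
        · rw [h]
        · obtain ⟨k, hk⟩ : ∃ k, m k ≠ 0 := by
            by_contra hcon
            push Not at hcon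
            exact h (by ext k; simp [hcon k])
          have h8 := MvPolynomial.coeff_pderiv (i := k) P (m - Finsupp.single k 1)
          rw [h3 k, MvPolynomial.coeff_zero] at h8
          have h9 : m - Finsupp.single k 1 + Finsupp.single k 1 = m := by
            refine tsub_add_cancel_of_le ?_
            rw [Finsupp.single_le_iff]
            omega
          rw [h9] at h8
          have h10 : (((m - Finsupp.single k 1 : σ →₀ ℕ) k : ℂ) + 1) ≠ 0 :=
            Nat.cast_add_one_ne_zero _
          exact (mul_eq_zero.1 h8.symm).resolve_right h10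
      rw [h7, MvPolynomial.aeval_C] at h0
      have := (algebraMap ℂ L).injective (h0.trans (map_zero _).symm)
      rw [h7, this, map_zero]
  intro P hP
  exact key _ P le_rfl hP

end Jacobian

/-- the subalgebra `B S D0` -/
def subB (S : Finset (Fin 6)) (D : Set ℤ) (h0 : (0 : ℤ) ∈ D) (hD : ∀ a ∈ D, ∀ b ∈ D, a + b ∈ D) :
    Subalgebra ℂ LL where
  carrier := {f | f ∈ B S D}
  mul_mem' := fun ha hb => B_mul hD ha hb
  add_mem' := by
    intro a b ha hb
    exact (B S D).add_mem ha hb
  algebraMap_mem' := by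
    intro c
    have : algebraMap ℂ LL c = c • (1 : LL) := Algebra.algebraMap_eq_smul_one c
    rw [Set.mem_ofPred_eq, this]
    exact Submodule.smul_mem _ _ (one_mem_B S h0)

theorem D0_zero : (0 : ℤ) ∈ D0 := ⟨le_rfl, dvd_zero _⟩

/-- chart coordinates in degree zero -/
abbrev I5 (i : Fin 6) := {k : Fin 7 // k ≠ (pt i).succ ∧ k ≠ i.succ}

theorem range_chart (i : Fin 6) (f : LL) :
    f ∈ (MvPolynomial.aeval (fun k : I6 i => YY i k.1) : MvPolynomial (I6 i) ℂ →ₐ[ℂ] LL).range ↔
      f ∈ B {i} D0 := by
  constructor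
  · rintro ⟨P, rfl⟩
    have key : MvPolynomial.aeval (fun k : I6 i => YY i k.1) P ∈
      subB {i} D0 D0_zero (fun _ ha _ hb => D0_add ha hb) := ?_
    · exact key
    induction P using MvPolynomial.induction_on with
    | C a => rw [MvPolynomial.aeval_C]; exact Subalgebra.algebraMap_mem _ _
    | add p q hp hq => rw [map_add]; exact Subalgebra.add_mem _ hp hq
    | mul_X p n hp =>
      rw [map_mul, MvPolynomial.aeval_X]
      exact Subalgebra.mul_mem _ hp (YY_mem (Finset.mem_singleton_self i) _)
  · intro hf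
    have hY : ∀ k : I6 i, YY i k.1 ∈ (MvPolynomial.aeval (fun k : I6 i => YY i k.1) :
        MvPolynomial (I6 i) ℂ →ₐ[ℂ] LL).range := fun k => ⟨MvPolynomial.X k, by simp⟩
    refine gen_lemma (Finset.mem_singleton_self i) _ ?_ ?_ ?_ ?_ f hf
    · have := hY ⟨0, (Fin.succ_ne_zero _).symm⟩
      rwa [YY_of_ne (Fin.succ_ne_zero _).symm] at this
    · intro l hl
      by_cases hli : l = i
      · rw [hli, xx_mul_xi]; exact Subalgebra.one_mem _
      · have := hY ⟨l.succ, fun h' => hl (Fin.succ_injective _ h')⟩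
        rwa [YY_of_ne (fun h' => hli (Fin.succ_injective _ h'))] at this
    · intro l hl _
      rw [Finset.mem_singleton.1 hl, xx_mul_xi]; exact Subalgebra.one_mem _
    · rintro d ⟨hd, hd'⟩
      obtain ⟨m, rfl⟩ := hd'
      obtain ⟨n, hn⟩ := Int.eq_ofNat_of_zero_le (a := m) (by omega)
      have : mR ((3 * m) • dl i) = (xx i ^ 3) ^ n := by
        rw [xx_cube, mR_pow, hn, smul_smul, mul_comm]
      rw [this]
      refine Subalgebra.pow_mem _ ?_ _
      have := hY ⟨i.succ, succ_ne_pt i⟩
      rwa [YY_self] at this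

theorem range_chart0 (i : Fin 6) (f : LL) :
    f ∈ (MvPolynomial.aeval (fun k : I5 i => Yv i k.1) : MvPolynomial (I5 i) ℂ →ₐ[ℂ] LL).range ↔
      f ∈ B {i} {0} := by
  constructor
  · rintro ⟨P, rfl⟩
    have key : MvPolynomial.aeval (fun k : I5 i => Yv i k.1) P ∈
      subB {i} {0} rfl (by intro a ha b hb
                           rw [Set.mem_singleton_iff.1 ha, Set.mem_singleton_iff.1 hb]; rfl) := ?_
    · exact key
    induction P using MvPolynomial.induction_on with
    | C a => rw [MvPolynomial.aeval_C]; exact Subalgebra.algebraMap_mem _ _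
    | add p q hp hq => rw [map_add]; exact Subalgebra.add_mem _ hp hq
    | mul_X p n hp =>
      rw [map_mul, MvPolynomial.aeval_X]
      exact Subalgebra.mul_mem _ hp (Yv_mem (Finset.mem_singleton_self i) _)
  · intro hf
    have hY : ∀ k : I5 i, Yv i k.1 ∈ (MvPolynomial.aeval (fun k : I5 i => Yv i k.1) :
        MvPolynomial (I5 i) ℂ →ₐ[ℂ] LL).range := fun k => ⟨MvPolynomial.X k, by simp⟩
    refine gen_lemma (Finset.mem_singleton_self i) _ ?_ ?_ ?_ ?_ f hf
    · exact hY ⟨0, (Fin.succ_ne_zero _).symm, (Fin.succ_ne_zero _).symm⟩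
    · intro l hl
      by_cases hli : l = i
      · rw [hli, xx_mul_xi]; exact Subalgebra.one_mem _
      · exact hY ⟨l.succ, fun h' => hl (Fin.succ_injective _ h'),
          fun h' => hli (Fin.succ_injective _ h')⟩
    · intro l hl _
      rw [Finset.mem_singleton.1 hl, xx_mul_xi]; exact Subalgebra.one_mem _
    · intro d hd
      rw [Set.mem_singleton_iff.1 hd, zero_smul, mR_zero]
      exact Subalgebra.one_mem _

theorem chart_injective (i : Fin 6) : Function.Injective
    (MvPolynomial.aeval (fun k : I6 i => YY i k.1) : MvPolynomial (I6 i) ℂ →ₐ[ℂ] LL) := by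
  have := LL_nontrivial
  refine aeval_injective _ ?_
  have h := (gamB i).linearIndependent
  have h2 : ⇑(gamB i) = fun k : I6 i => D ℂ LL (YY i k.1) := by
    funext k
    exact gamB_apply i k
  rwa [h2] at h

theorem chart0_injective (i : Fin 6) : Function.Injective
    (MvPolynomial.aeval (fun k : I5 i => Yv i k.1) : MvPolynomial (I5 i) ℂ →ₐ[ℂ] LL) := by
  have := LL_nontrivial
  refine aeval_injective _ ?_
  have h := (gamB i).linearIndependent
  have h2 : ⇑(gamB i) = fun k : I6 i => D ℂ LL (YY i k.1) := by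
    funext k
    exact gamB_apply i k
  rw [h2] at h
  have hinj : Function.Injective (fun k : I5 i => (⟨k.1, k.2.1⟩ : I6 i)) := by
    intro a b hab
    have : a.1 = b.1 := congrArg (fun x : I6 i => x.1) hab
    exact Subtype.ext this
  have h3 := h.comp (fun k : I5 i => (⟨k.1, k.2.1⟩ : I6 i)) hinj
  have h4 : ((fun k : I6 i => D ℂ LL (YY i k.1)) ∘ fun k : I5 i => (⟨k.1, k.2.1⟩ : I6 i)) =
      fun k : I5 i => D ℂ LL (Yv i k.1) := by
    funext k
    rw [Function.comp_apply, YY_of_ne k.2.2]
  rwa [h4] at h3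

/-- two subrings of `LL` with the same image -/
noncomputable def equivOfRange {A B C : Type} [CommRing A] [CommRing B] [CommRing C] [Algebra ℂ A]
    [Algebra ℂ B] [Algebra ℂ C] (f : A →ₐ[ℂ] C) (g : B →ₐ[ℂ] C) (hf : Function.Injective f)
    (hg : Function.Injective g) (h : f.range = g.range) : A ≃ₐ[ℂ] B :=
  ((AlgEquiv.ofInjective f hf).trans (Subalgebra.equivOfEq _ _ h)).trans
    (AlgEquiv.ofInjective g hg).symm

theorem equivOfRange_spec {A B C : Type} [CommRing A] [CommRing B] [CommRing C] [Algebra ℂ A]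
    [Algebra ℂ B] [Algebra ℂ C] (f : A →ₐ[ℂ] C) (g : B →ₐ[ℂ] C) (hf : Function.Injective f)
    (hg : Function.Injective g) (h : f.range = g.range) (a : A) :
    g (equivOfRange f g hf hg h a) = f a := by
  have h1 : AlgEquiv.ofInjective g hg (equivOfRange f g hf hg h a) =
      (Subalgebra.equivOfEq _ _ h) (AlgEquiv.ofInjective f hf a) := by
    simp [equivOfRange]
  have h2 := congrArg Subtype.val h1
  simpa using h2

theorem Model.range_eq {R : Type} [CommRing R] [Algebra ℂ R] {S : Finset (Fin 6)}
    {j : R →ₐ[ℂ] LL} (h : Model R S j) (f : LL) : f ∈ j.range ↔ f ∈ B S D0 :=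
  ⟨fun ⟨r, hr⟩ => by rw [← hr]; exact h.mem r, fun hf => h.surj f hf⟩

/-- Charts are smooth. -/
theorem Model.smooth {R : Type} [CommRing R] [Algebra ℂ R] {i : Fin 6}
    {j : R →ₐ[ℂ] LL} (h : Model R {i} j) : Algebra.Smooth ℂ R := by
  have hr : (MvPolynomial.aeval (fun k : I6 i => YY i k.1) :
      MvPolynomial (I6 i) ℂ →ₐ[ℂ] LL).range = j.range := by
    ext f
    rw [range_chart, h.range_eq]
  have e := equivOfRange _ _ (chart_injective i) h.inj hr
  have : Algebra.Smooth ℂ (MvPolynomial (I6 i) ℂ) := {}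
  exact Algebra.Smooth.of_equiv e

theorem Model.smooth_quotient {R : Type} [CommRing R] [Algebra ℂ R] {i : Fin 6}
    {j : R →ₐ[ℂ] LL} (h : Model R {i} j) {I : Ideal R} (hI : ∀ r, r ∈ I ↔ j r ∈ B {i} D1) :
    Algebra.Smooth ℂ (R ⧸ I) := by
  have hr : (MvPolynomial.aeval (fun k : I5 i => Yv i k.1) :
      MvPolynomial (I5 i) ℂ →ₐ[ℂ] LL).range = (h.ev hI).range := by
    ext f
    rw [range_chart0]
    constructor
    · intro hf
      obtain ⟨r, hr⟩ := h.surj f (B_mono subset_rfl (by
        intro d hd; rw [Set.mem_singleton_iff.1 hd]; exact D0_zero) hf)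
      refine ⟨Ideal.Quotient.mk I r, ?_⟩
      change h.evR r = f
      rw [h.evR_apply, hr]
      exact cut0_of_mem hf
    · rintro ⟨x, rfl⟩
      obtain ⟨r, rfl⟩ := Ideal.Quotient.mk_surjective x
      exact cut0_mem (h.mem r)
  have e := equivOfRange _ _ (chart0_injective i) (h.ev_injective hI) hr
  have : Algebra.Smooth ℂ (MvPolynomial (I5 i) ℂ) := {}
  exact Algebra.Smooth.of_equiv e

end Pool.Agent.Hhelper18.DB
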