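import Mathlib
import Pool.Agent.Hhelper18.DB.Smooth

/-! Ring-theoretic properties of the cone: domain, normal, finite type, of dimension six. -/

namespace Pool.Agent.Hhelper18.DB

set_option maxHeartbeats 400000

open KaehlerDifferential Pool.Agent.Hhelper18.DuBois Module

/-- clearing denominators -/
theorem clear {S S' : Finset (Fin 6)} {D : Set ℤ} (e : E6) (he0 : ∀ l, l ∉ S' → 0 ≤ e l)
    (he : ∀ l ∈ S, l ∉ S' → 0 < e l) {f : LL} (hf : f ∈ B S D) :
    ∃ N : ℕ, ∀ n : ℕ, N ≤ n → f * mR ((n : ℤ) • e) ∈ B S' {d | ∃ d0 ∈ D, d = d0 + n * dg e} := by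
  have key : ∀ (e' : E6), (∀ l, e' l < 0 → l ∈ S) → ∀ n : ℕ, (∑ l, (e' l).natAbs) ≤ n →
      ∀ l, (e' + (n : ℤ) • e) l < 0 → l ∈ S' := by
    intro e' he' n hn l hl
    by_contra hlS
    simp only [Pi.add_apply, Pi.smul_apply, smul_eq_mul] at hl
    have h1 : (e' l).natAbs ≤ n :=
      (Finset.single_le_sum (f := fun l => (e' l).natAbs) (fun _ _ => Nat.zero_le _)
        (Finset.mem_univ l)).trans hn
    by_cases hl0 : e' l < 0
    · have h2 := he l (he' l hl0) hlS
      have h3 : (n : ℤ) ≤ n * e l := le_mul_of_one_le_right (Int.natCast_nonneg n) h2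
      omega
    · have h2 := he0 l hlS
      have h3 : 0 ≤ (n : ℤ) * e l := mul_nonneg (Int.natCast_nonneg n) h2
      omega
  refine SP_induction (motive := fun f => ∃ N : ℕ, ∀ n : ℕ, N ≤ n → f * mR ((n : ℤ) • e) ∈
    B S' {d | ∃ d0 ∈ D, d = d0 + n * dg e}) ?_ ?_ ?_ ?_ hf
  · refine ⟨0, fun n _ => ?_⟩
    rw [zero_mul]; exact Submodule.zero_mem _
  · rintro f g ⟨N, hN⟩ ⟨N', hN'⟩
    refine ⟨max N N', fun n hn => ?_⟩
    rw [add_mul]
    exact Submodule.add_mem _ (hN n (le_of_max_le_left hn)) (hN' n (le_of_max_le_right hn))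
  · intro c e' he'
    refine ⟨∑ l, (e' l).natAbs, fun n hn => ?_⟩
    rw [smul_mul_assoc, mR_mul_mR]
    refine Submodule.smul_mem _ _ (mR_mem ⟨key e' he'.1 n hn, ?_⟩)
    rw [dg_add, dg_smul, add_zero]
    have := he'.2
    rw [add_zero] at this
    exact ⟨_, this, rfl⟩
  · intro c e' he'
    refine ⟨∑ l, (e' l).natAbs, fun n hn => ?_⟩
    rw [smul_mul_assoc, mul_comm (mZ e'), mR_mul_mZ, add_comm _ e']
    refine Submodule.smul_mem _ _ (mZ_mem ⟨key e' he'.1 n hn, ?_⟩)
    rw [dg_add, dg_smul]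
    exact ⟨_, he'.2, by ring⟩

theorem B_inter {S S' : Finset (Fin 6)} {D : Set ℤ} {f : LL} (h : f ∈ B S D) (h' : f ∈ B S' D) :
    f ∈ B (S ∩ S') D := by
  constructor
  · intro e he
    exact ⟨fun l hl => Finset.mem_inter.2 ⟨(h.1 e he).1 l hl, (h'.1 e he).1 l hl⟩, (h.1 e he).2⟩
  · intro e he
    exact ⟨fun l hl => Finset.mem_inter.2 ⟨(h.2 e he).1 l hl, (h'.2 e he).1 l hl⟩, (h.2 e he).2⟩

theorem mR_neg_mul (e : E6) : mR e * mR (-e) = 1 := by
  rw [mR_mul_mR, add_neg_cancel, mR_zero]

section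

variable {R : Type} [CommRing R] [Algebra ℂ R] {j : R →ₐ[ℂ] LL} (h : Model R ∅ j)

/-- chart polynomial ring -/
abbrev PP (i : Fin 6) := MvPolynomial (I6 i) ℂ

/-- the parametrization of the chart ring -/
noncomputable abbrev par (i : Fin 6) : PP i →ₐ[ℂ] LL := MvPolynomial.aeval (fun k : I6 i => YY i k.1)

include h in
theorem Model.exists_phi (i : Fin 6) : ∃ φ : R →ₐ[ℂ] PP i, ∀ r, par i (φ r) = j r := by
  have hr : ∀ r, j r ∈ (par i).range := by
    intro r
    rw [range_chart]
    exact B_mono (Finset.empty_subset _) subset_rfl (h.mem r)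
  refine ⟨((AlgEquiv.ofInjective (par i) (chart_injective i)).symm : (par i).range →ₐ[ℂ] PP i).comp
    (j.codRestrict _ hr), fun r => ?_⟩
  have h1 := (AlgEquiv.ofInjective (par i) (chart_injective i)).apply_symm_apply
    (j.codRestrict _ hr r)
  have h2 := congrArg Subtype.val h1
  exact h2

theorem phi_injective {i : Fin 6} {φ : R →ₐ[ℂ] PP i} (hj : Function.Injective j)
    (hφ : ∀ r, par i (φ r) = j r) : Function.Injective φ := by
  intro a b hab
  apply hj
  rw [← hφ, ← hφ, hab]

include h in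
theorem Model.isDomain : IsDomain R := by
  obtain ⟨φ, hφ⟩ := h.exists_phi 0
  exact (phi_injective h.inj hφ).isDomain φ.toRingHom

include h in
theorem Model.key_normal [IsDomain R] (i : Fin 6) {a b : R} (hb : b ≠ 0)
    (hx : IsIntegral R (algebraMap R (FractionRing R) a / algebraMap R (FractionRing R) b)) :
    ∃ r ∈ B {i} D0, r * j b = j a := by
  obtain ⟨φ, hφ⟩ := h.exists_phi i
  have hφi := phi_injective h.inj hφ
  let F := FractionRing (PP i)
  let g : R →+* F := (algebraMap (PP i) F).comp φ.toRingHom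
  have hg : Function.Injective g := (IsFractionRing.injective (PP i) F).comp hφi
  let ψ : FractionRing R →+* F := IsFractionRing.lift (A := R) (K := FractionRing R) hg
  have hψ : ∀ r, ψ (algebraMap R (FractionRing R) r) = algebraMap (PP i) F (φ r) := by
    intro r
    exact IsFractionRing.lift_algebraMap hg r
  have hint : IsIntegral (PP i) (ψ (algebraMap R (FractionRing R) a /
      algebraMap R (FractionRing R) b)) := by
    refine hx.map_of_comp_eq φ.toRingHom ψ ?_
    ext r
    exact (hψ r).symm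
  obtain ⟨p, hp⟩ := IsIntegrallyClosed.isIntegral_iff.1 hint
  have hb' : φ b ≠ 0 := fun h' => hb (hφi (h'.trans (map_zero φ).symm))
  have h1 : p * φ b = φ a := by
    apply IsFractionRing.injective (PP i) F
    rw [map_mul, hp, map_div₀, hψ, hψ, div_mul_cancel₀]
    exact fun h' => hb' (IsFractionRing.injective (PP i) F (h'.trans (map_zero _).symm))
  refine ⟨par i p, (range_chart i _).1 ⟨p, rfl⟩, ?_⟩
  rw [← hφ b, ← map_mul, h1, hφ]

include h in
theorem Model.normal : IsIntegrallyClosed R := by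
  have hdom := h.isDomain
  rw [isIntegrallyClosed_iff (FractionRing R)]
  intro x hx
  obtain ⟨a, b, hb, rfl⟩ := IsFractionRing.div_surjective (A := R) x
  have hb0 : b ≠ 0 := nonZeroDivisors.ne_zero hb
  obtain ⟨r0, hr0, e0⟩ := h.key_normal 0 hb0 hx
  obtain ⟨r1, hr1, e1⟩ := h.key_normal 1 hb0 hx
  obtain ⟨φ, hφ⟩ := h.exists_phi 0
  have hφi := phi_injective h.inj hφ
  have hf : r0 - r1 ∈ B {0, 1} D0 := Submodule.sub_mem _
    (B_mono (by simp) subset_rfl hr0) (B_mono (by simp) subset_rfl hr1)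
  have hd1 : dl 1 1 = 1 := by simp [dl]
  obtain ⟨N, hN⟩ := clear (S' := {0}) (dl 1 - dl 0) (by
      intro l hl
      have hl0 : l ≠ 0 := fun h' => hl (Finset.mem_singleton.2 h')
      simp only [Pi.sub_apply, dl, Pi.single_apply, if_neg hl0]
      split_ifs <;> norm_num) (by
      intro l hl hl'
      have hl0 : l ≠ 0 := fun h' => hl' (Finset.mem_singleton.2 h')
      have hl1 : l = 1 := by
        simp only [Finset.mem_insert, Finset.mem_singleton] at hl
        exact hl.resolve_left hl0
      subst hl1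
      simp only [Pi.sub_apply, dl, Pi.single_apply, if_neg hl0]
      norm_num) hf
  have h1 := hN N le_rfl
  set u := mR ((N : ℤ) • (dl 1 - dl 0)) with hu
  have h2 : (r0 - r1) * u ∈ B {0} D0 := by
    refine B_mono subset_rfl ?_ h1
    rintro d ⟨d0, hd0, rfl⟩
    rw [dg_sub, dg_dl, dg_dl, sub_self, mul_zero, add_zero]
    exact hd0
  obtain ⟨w, hw⟩ := (range_chart 0 _).2 h2
  change par 0 w = _ at hw
  have h3 : w * φ b = 0 := by
    apply chart_injective 0
    change par 0 (w * φ b) = par 0 0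
    rw [map_mul, hw, hφ, map_zero]
    have : (r0 - r1) * u * j b = (r0 * j b - r1 * j b) * u := by ring
    rw [this, e0, e1, sub_self, zero_mul]
  have h4 : w = 0 := by
    rcases mul_eq_zero.1 h3 with h' | h'
    · exact h'
    · exact absurd (hφi (h'.trans (map_zero φ).symm)) hb0
  have h5 : r0 - r1 = 0 := by
    rw [h4, map_zero] at hw
    have h6 := congrArg (fun t => t * mR (-((N : ℤ) • (dl 1 - dl 0)))) hw
    simp only [zero_mul] at h6
    rw [mul_assoc, hu, mR_neg_mul, mul_one] at h6
    exact h6.symm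
  have h6 : r0 = r1 := sub_eq_zero.1 h5
  have h7 : r0 ∈ B ∅ D0 := by
    have := B_inter hr0 (h6 ▸ hr1 : r0 ∈ B {1} D0)
    have he : ({0} ∩ {1} : Finset (Fin 6)) = ∅ := by decide
    rwa [he] at this
  obtain ⟨y, hy⟩ := h.surj r0 h7
  refine ⟨y, ?_⟩
  have h8 : y * b = a := by
    apply h.inj
    rw [map_mul, hy, e0]
  have hb1 : algebraMap R (FractionRing R) b ≠ 0 :=
    fun h' => hb0 (IsFractionRing.injective R (FractionRing R) (h'.trans (map_zero _).symm))
  rw [eq_div_iff hb1, ← map_mul, h8]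

/-! ### Noether normalization -/

theorem prod_mR {κ : Type} (s : Finset κ) (g : κ → E6) : ∏ l ∈ s, mR (g l) = mR (∑ l ∈ s, g l) := by
  classical
  induction s using Finset.induction_on with
  | empty => simp [mR_zero]
  | insert a s ha ih => rw [Finset.prod_insert ha, Finset.sum_insert ha, ih, mR_mul_mR]

theorem cube_prod (q : Fin 6 → ℕ) : ∏ l, (xx l ^ 3) ^ q l = mR (fun l => 3 * (q l : ℤ)) := by
  have h1 : ∀ l, (xx l ^ 3) ^ q l = mR ((3 * (q l : ℤ)) • dl l) := by
    intro l
    rw [xx_cube, mR_pow, smul_smul, mul_comm]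
  rw [Finset.prod_congr rfl (fun l _ => h1 l), prod_mR]
  congr 1
  funext m
  simp [dl, Finset.sum_apply, Pi.single_apply]

include h in
theorem Model.exists_theta : ∃ θ : MvPolynomial (Fin 6) ℂ →ₐ[ℂ] R, ∀ l,
    j (θ (MvPolynomial.X l)) = xx l ^ 3 := by
  have hx : ∀ l, xx l ^ 3 ∈ B ∅ D0 := by
    intro l
    refine B_mono subset_rfl ?_ (cube_mem ∅ l)
    intro d hd
    rw [Set.mem_singleton_iff.1 hd]
    exact ⟨by norm_num, dvd_rfl⟩
  choose c hc using fun l => h.surj _ (hx l)
  exact ⟨MvPolynomial.aeval c, fun l => by rw [MvPolynomial.aeval_X, hc]⟩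

theorem theta_injective {θ : MvPolynomial (Fin 6) ℂ →ₐ[ℂ] R}
    (hθ : ∀ l, j (θ (MvPolynomial.X l)) = xx l ^ 3) : Function.Injective θ := by
  rw [injective_iff_map_eq_zero]
  intro P hP
  have key : ∀ (P : MvPolynomial (Fin 6) ℂ) (m : Fin 6 →₀ ℕ),
      (j (θ P)).re.coeff (fun l => 3 * (m l : ℤ)) = MvPolynomial.coeff m P := by
    intro P m
    induction P using MvPolynomial.induction_on' with
    | monomial n a =>
      have h1 : j (θ (MvPolynomial.monomial n a)) = a • mR (fun l => 3 * (n l : ℤ)) := by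
        rw [MvPolynomial.monomial_eq, Finsupp.prod_fintype _ _ (fun _ => pow_zero _),
          ← MvPolynomial.smul_eq_C_mul, map_smul, map_smul, map_prod, map_prod]
        congr 1
        rw [← cube_prod]
        refine Finset.prod_congr rfl (fun l _ => ?_)
        rw [map_pow, map_pow, hθ]
      rw [h1, MvPolynomial.coeff_monomial]
      have h2 : (a • mR (fun l => 3 * (n l : ℤ))).re.coeff (fun l => 3 * (m l : ℤ)) =
          a * (AddMonoidAlgebra.single (fun l => 3 * (n l : ℤ)) (1 : ℂ)).coeff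
            (fun l => 3 * (m l : ℤ)) := rfl
      rw [h2, AddMonoidAlgebra.coeff_single, Finsupp.single_apply]
      by_cases hnm : n = m
      · subst hnm; simp
      · rw [if_neg hnm, if_neg, mul_zero]
        intro h'
        refine hnm (Finsupp.ext (fun l => ?_))
        have := congrFun h' l
        simp only [mul_eq_mul_left_iff] at this
        omega
    | add p q hp hq =>
      rw [map_add, map_add, MvPolynomial.coeff_add, ← hp, ← hq]
      rfl
  ext m
  rw [← key, hP, map_zero, MvPolynomial.coeff_zero]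
  rfl

include h in
theorem Model.finite {θ : MvPolynomial (Fin 6) ℂ →ₐ[ℂ] R}
    (hθ : ∀ l, j (θ (MvPolynomial.X l)) = xx l ^ 3) : θ.toRingHom.Finite := by
  classical
  let : Algebra (MvPolynomial (Fin 6) ℂ) R := θ.toRingHom.toAlgebra
  -- the generators
  let eT : (Fin 6 → Fin 3) → E6 := fun t l => ((t l : ℕ) : ℤ)
  let gen : (Fin 6 → Fin 3) × Bool → LL := fun t => if t.2 then mZ (eT t.1) else mR (eT t.1)
  let g : (Fin 6 → Fin 3) × Bool → R := fun t =>
    if ht : gen t ∈ B ∅ D0 then (h.surj _ ht).choose else 0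
  have hg : ∀ t, gen t ∈ B ∅ D0 → j (g t) = gen t := by
    intro t ht
    simp only [g, dif_pos ht]
    exact (h.surj _ ht).choose_spec
  let W : Submodule (MvPolynomial (Fin 6) ℂ) R := Submodule.span _ (Set.range g)
  have hW : W = ⊤ := by
    rw [eq_top_iff]
    rintro r -
    have key : ∀ f ∈ B ∅ D0, ∃ r ∈ W, j r = f := by
      intro f hf
      refine SP_induction (motive := fun f => ∃ r ∈ W, j r = f) ?_ ?_ ?_ ?_ hf
      · exact ⟨0, W.zero_mem, map_zero j⟩
      · rintro f f' ⟨r, hr, rfl⟩ ⟨r', hr', rfl⟩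
        exact ⟨r + r', W.add_mem hr hr', map_add j r r'⟩
      · intro c e he
        have he0 : ∀ l, 0 ≤ e l := fun l => by
          by_contra hcon
          exact absurd (he.1 l (by omega)) (Finset.notMem_empty l)
        let t : Fin 6 → Fin 3 := fun l => ⟨((e l) % 3).toNat, by
          have := Int.emod_lt_of_pos (e l) (by norm_num : (0 : ℤ) < 3)
          have := Int.emod_nonneg (e l) (by norm_num : (3 : ℤ) ≠ 0)
          omega⟩
        let q : Fin 6 → ℕ := fun l => ((e l) / 3).toNat
        have hq : ∀ l, e l = 3 * (q l : ℤ) + eT t l := by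
          intro l
          have h1 := Int.mul_ediv_add_emod (e l) 3
          have h2 := Int.ediv_nonneg (he0 l) (by norm_num : (0 : ℤ) ≤ 3)
          have h3 := Int.emod_nonneg (e l) (by norm_num : (3 : ℤ) ≠ 0)
          simp only [q, eT, t]
          rw [Int.toNat_of_nonneg h2, Int.toNat_of_nonneg h3]
          omega
        have hsum : e = (fun l => 3 * (q l : ℤ)) + eT t := by
          funext l
          rw [Pi.add_apply]
          exact hq l
        have hgen : gen (t, false) ∈ B ∅ D0 := by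
          change mR (eT t) ∈ B ∅ D0
          refine mR_mem ⟨fun l hl => absurd hl (by simp [eT]), ?_⟩
          have h1 : dg e = 3 * (∑ l, (q l : ℤ)) + dg (eT t) := by
            rw [hsum, dg_add]
            simp [dg, Finset.mul_sum]
          refine ⟨?_, ?_⟩
          · rw [add_zero]
            exact Finset.sum_nonneg (fun l _ => by simp [eT])
          · have h2 := he.2.2
            rw [add_zero, h1] at h2
            rw [add_zero]
            exact (Int.dvd_add_right (Dvd.intro _ rfl)).1 h2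
        refine ⟨(MvPolynomial.C c * ∏ l, MvPolynomial.X l ^ q l : MvPolynomial (Fin 6) ℂ) •
          g (t, false), W.smul_mem _ (Submodule.subset_span ⟨_, rfl⟩), ?_⟩
        rw [Algebra.smul_def, map_mul, hg _ hgen]
        change j (θ (MvPolynomial.C c * ∏ l, MvPolynomial.X l ^ q l)) * mR (eT t) = c • mR e
        rw [← MvPolynomial.smul_eq_C_mul, map_smul, map_smul, map_prod, map_prod, smul_mul_assoc]
        congr 1
        have h3 : ∏ l, j (θ (MvPolynomial.X l ^ q l)) = mR (fun l => 3 * (q l : ℤ)) := by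
          rw [← cube_prod]
          refine Finset.prod_congr rfl (fun l _ => ?_)
          rw [map_pow, map_pow, hθ]
        rw [h3, mR_mul_mR, ← hsum]
      · intro c e he
        have he0 : ∀ l, 0 ≤ e l := fun l => by
          by_contra hcon
          exact absurd (he.1 l (by omega)) (Finset.notMem_empty l)
        let t : Fin 6 → Fin 3 := fun l => ⟨((e l) % 3).toNat, by
          have := Int.emod_lt_of_pos (e l) (by norm_num : (0 : ℤ) < 3)
          have := Int.emod_nonneg (e l) (by norm_num : (3 : ℤ) ≠ 0)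
          omega⟩
        let q : Fin 6 → ℕ := fun l => ((e l) / 3).toNat
        have hq : ∀ l, e l = 3 * (q l : ℤ) + eT t l := by
          intro l
          have h1 := Int.mul_ediv_add_emod (e l) 3
          have h2 := Int.ediv_nonneg (he0 l) (by norm_num : (0 : ℤ) ≤ 3)
          have h3 := Int.emod_nonneg (e l) (by norm_num : (3 : ℤ) ≠ 0)
          simp only [q, eT, t]
          rw [Int.toNat_of_nonneg h2, Int.toNat_of_nonneg h3]
          omega
        have hsum : e = (fun l => 3 * (q l : ℤ)) + eT t := by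
          funext l
          rw [Pi.add_apply]
          exact hq l
        have hgen : gen (t, true) ∈ B ∅ D0 := by
          change mZ (eT t) ∈ B ∅ D0
          refine mZ_mem ⟨fun l hl => absurd hl (by simp [eT]), ?_⟩
          have h1 : dg e = 3 * (∑ l, (q l : ℤ)) + dg (eT t) := by
            rw [hsum, dg_add]
            simp [dg, Finset.mul_sum]
          refine ⟨?_, ?_⟩
          · have : 0 ≤ dg (eT t) := Finset.sum_nonneg (fun l _ => by simp [eT])
            omega
          · have h2 := he.2.2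
            rw [h1, add_assoc] at h2
            exact (Int.dvd_add_right (Dvd.intro _ rfl)).1 h2
        refine ⟨(MvPolynomial.C c * ∏ l, MvPolynomial.X l ^ q l : MvPolynomial (Fin 6) ℂ) •
          g (t, true), W.smul_mem _ (Submodule.subset_span ⟨_, rfl⟩), ?_⟩
        rw [Algebra.smul_def, map_mul, hg _ hgen]
        change j (θ (MvPolynomial.C c * ∏ l, MvPolynomial.X l ^ q l)) * mZ (eT t) = c • mZ e
        rw [← MvPolynomial.smul_eq_C_mul, map_smul, map_smul, map_prod, map_prod, smul_mul_assoc]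
        congr 1
        have h3 : ∏ l, j (θ (MvPolynomial.X l ^ q l)) = mR (fun l => 3 * (q l : ℤ)) := by
          rw [← cube_prod]
          refine Finset.prod_congr rfl (fun l _ => ?_)
          rw [map_pow, map_pow, hθ]
        rw [h3, mR_mul_mZ, ← hsum]
    obtain ⟨r', hr', hrr⟩ := key _ (h.mem r)
    rwa [h.inj hrr] at hr'
  refine (RingHom.finite_algebraMap (A := MvPolynomial (Fin 6) ℂ) (B := R)).2 ?_
  exact ⟨⟨Finset.univ.image g, by rw [Finset.coe_image, Finset.coe_univ, Set.image_univ]; exact hW⟩⟩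

include h in
theorem Model.finiteType : Algebra.FiniteType ℂ R := by
  obtain ⟨θ, hθ⟩ := h.exists_theta
  let : Algebra (MvPolynomial (Fin 6) ℂ) R := θ.toRingHom.toAlgebra
  have : IsScalarTower ℂ (MvPolynomial (Fin 6) ℂ) R :=
    IsScalarTower.of_algebraMap_eq (fun c => (θ.commutes c).symm)
  have h1 : Module.Finite (MvPolynomial (Fin 6) ℂ) R := RingHom.finite_algebraMap.1 (h.finite hθ)
  have h2 : Algebra.FiniteType ℂ (MvPolynomial (Fin 6) ℂ) := inferInstance
  have h3 : Algebra.FiniteType (MvPolynomial (Fin 6) ℂ) R := inferInstance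
  exact Algebra.FiniteType.trans h2 h3

end

/-- Krull dimension and integral extensions -/
theorem ringKrullDim_eq_of_integral {P R : Type} [CommRing P] [CommRing R] [Algebra P R]
    [Algebra.IsIntegral P R] (hinj : Function.Injective (algebraMap P R)) :
    ringKrullDim R = ringKrullDim P := by
  refine le_antisymm ?_ ?_
  · refine Order.krullDim_le_of_strictMono (PrimeSpectrum.comap (algebraMap P R)) ?_
    intro p q hpq
    exact Ideal.IsIntegral.comap_lt_comap (R := P) hpq
  · refine iSup_le (fun l => ?_)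
    obtain ⟨Q, -, hQ, hQl⟩ := Ideal.exists_ideal_over_prime_of_isIntegral (RelSeries.head l).asIdeal
      (⊥ : Ideal R) (by
        intro x hx
        rw [Ideal.mem_comap, Ideal.mem_bot] at hx
        rw [hinj (hx.trans (map_zero _).symm)]
        exact Ideal.zero_mem _)
    have : Q.LiesOver (RelSeries.head l).asIdeal := ⟨hQl.symm⟩
    obtain ⟨L, hL, -⟩ := Ideal.exists_ltSeries_of_hasGoingUp l Q
    rw [← hL]
    exact le_iSup (fun L : LTSeries (PrimeSpectrum R) => (L.length : WithBot ℕ∞)) L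

section

variable {R : Type} [CommRing R] [Algebra ℂ R] {j : R →ₐ[ℂ] LL} (h : Model R ∅ j)

include h in
theorem Model.dim : ringKrullDim R = 6 := by
  obtain ⟨θ, hθ⟩ := h.exists_theta
  let : Algebra (MvPolynomial (Fin 6) ℂ) R := θ.toRingHom.toAlgebra
  have h1 : Module.Finite (MvPolynomial (Fin 6) ℂ) R := RingHom.finite_algebraMap.1 (h.finite hθ)
  rw [ringKrullDim_eq_of_integral (P := MvPolynomial (Fin 6) ℂ) (theta_injective hθ),
    MvPolynomial.ringKrullDim_of_isNoetherianRing, ringKrullDim_eq_zero_of_field]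
  simp

/-- the degree-zero part of `B ∅ D0` consists of scalars. -/
theorem B_zero {f : LL} (hf : f ∈ B ∅ {0}) : ∃ c : ℂ, f = c • (1 : LL) := by
  have hneg : ∀ {e : E6}, (∀ l, e l < 0 → l ∈ (∅ : Finset (Fin 6))) → ∀ l, 0 ≤ e l := by
    intro e he l
    by_contra hcon
    exact absurd (he l (by omega)) (Finset.notMem_empty l)
  refine SP_induction (motive := fun f => ∃ c : ℂ, f = c • (1 : LL)) ?_ ?_ ?_ ?_ hf
  · exact ⟨0, (zero_smul _ _).symm⟩
  · rintro _ _ ⟨c, rfl⟩ ⟨c', rfl⟩
    exact ⟨c + c', (add_smul _ _ _).symm⟩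
  · intro c e he
    have h0 : e = 0 := by
      have h1 := hneg he.1
      have h2 : dg e = 0 := by simpa using he.2
      funext l
      exact (Finset.sum_eq_zero_iff_of_nonneg (fun l _ => h1 l)).1 h2 l (Finset.mem_univ l)
    exact ⟨c, by rw [h0, mR_zero]⟩
  · intro c e he
    exfalso
    have h1 : 0 ≤ dg e := Finset.sum_nonneg (fun l _ => hneg he.1 l)
    have h2 : dg e + 1 = 0 := he.2
    omega

theorem one_notMem_B {S : Finset (Fin 6)} {D : Set ℤ} (h0 : (0 : ℤ) ∉ D) : (1 : LL) ∉ B S D := by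
  intro h1
  have h2 := h1.1 0 (by
    rw [← mR_zero]
    simp [mR])
  have h3 := h2.2
  simp [dg] at h3
  exact h0 h3

include h in
theorem Model.quotient_bijective {J : Ideal R} (hJ : ∀ r, r ∈ J ↔ j r ∈ B ∅ D1) :
    Function.Bijective (algebraMap ℂ (R ⧸ J)) := by
  constructor
  · have : Nontrivial (R ⧸ J) := by
      refine Ideal.Quotient.nontrivial_iff.2 (fun h1 => ?_)
      have h2 := (hJ 1).1 (h1 ▸ Submodule.mem_top)
      rw [map_one] at h2
      exact one_notMem_B (fun h' => absurd h'.1 (lt_irrefl _)) h2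
    exact (algebraMap ℂ (R ⧸ J)).injective
  · intro x
    obtain ⟨r, rfl⟩ := Ideal.Quotient.mk_surjective x
    obtain ⟨c, hc⟩ := B_zero (cut0_mem (h.mem r))
    refine ⟨c, ?_⟩
    rw [IsScalarTower.algebraMap_apply ℂ R (R ⧸ J)]
    change Ideal.Quotient.mk J (algebraMap ℂ R c) = Ideal.Quotient.mk J r
    rw [Ideal.Quotient.eq, ← Ideal.neg_mem_iff, neg_sub, hJ]
    have h1 : algebraMap ℂ R c = c • (1 : R) := Algebra.algebraMap_eq_smul_one c
    have h2 : j (r - algebraMap ℂ R c) = j r - cut0 (j r) := by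
      rw [map_sub, h1, map_smul, map_one, hc]
    rw [h2]
    exact SP_mono (fun e n h => ⟨h.2.1, lt_of_le_of_ne h.2.2.1 (fun h' => h.1 h'.symm), h.2.2.2⟩)
      (sub_cut_mem (P := fun e n => dg e + n = 0) (h.mem r))

include h in
theorem Model.smooth_point {J : Ideal R} (hJ : ∀ r, r ∈ J ↔ j r ∈ B ∅ D1) :
    Algebra.Smooth ℂ (R ⧸ J) := by
  have hb := h.quotient_bijective hJ
  have e : ℂ ≃ₐ[ℂ] (R ⧸ J) := AlgEquiv.ofBijective (Algebra.ofId ℂ (R ⧸ J)) hb
  exact Algebra.Smooth.of_equiv e

end

end Pool.Agent.Hhelper18.DB
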