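import Mathlib
import Pool.Agent.Hhelper18.DB.RingA
import Pool.Agent.Hhelper18.DB.Assemble
import Pool.Agent.Hhelper18.DB.ProjX
import Pool.Agent.Hhelper18.DB.IsoOver

/-! The resolution of the cone as a `Proj`. -/

namespace Pool.Agent.Hhelper18.DB

set_option maxHeartbeats 400000

open AlgebraicGeometry CategoryTheory HomogeneousLocalization Pool.Agent.Hhelper18.DuBois

/-- degrees -/
def Dk (k : ℕ) : Set ℤ := {d | (k : ℤ) ≤ d ∧ 3 ∣ d - k}

theorem Dk_add {a b : ℤ} {j k : ℕ} (ha : a ∈ Dk j) (hb : b ∈ Dk k) : a + b ∈ Dk (j + k) := by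
  refine ⟨?_, ?_⟩
  · have := ha.1; have := hb.1; push_cast; omega
  · have h := dvd_add ha.2 hb.2
    have e : a + b - ((j + k : ℕ) : ℤ) = (a - j) + (b - k) := by push_cast; ring
    rw [e]
    exact h

theorem Dk_zero : Dk 0 = D0 := by
  ext d
  simp [Dk, D0]

/-- the graded pieces `F_k = ⊕_{m ≥ 0} B_{3m+k}` -/
noncomputable def FF (k : ℕ) : Submodule ℂ LL := B ∅ (Dk k)

theorem FF_zero : FF 0 = B ∅ D0 := by rw [FF, Dk_zero]

instance FF_graded : SetLike.GradedMonoid FF where
  one_mem := by rw [FF_zero]; exact one_mem_B ∅ D0_zero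
  mul_mem := by
    intro j k a b ha hb
    exact B_mul (fun _ h _ h' => Dk_add h h') ha hb

theorem XX_mem_FF (k : Fin 7) : XX k ∈ FF 1 := by
  refine B_mono subset_rfl ?_ (XX_mem ∅ k)
  intro d hd
  rw [Set.mem_singleton_iff.1 hd]
  exact ⟨by norm_num, by norm_num⟩

/-- the generators `X_k T` -/
noncomputable def gens (k : Fin 7) : rees FF := mono FF 1 (XX k) (XX_mem_FF k)

/-- `x_i T` -/
noncomputable def gX (i : Fin 6) : rees FF := gens i.succ

theorem gens_mem (k : Fin 7) : gens k ∈ rgr FF 1 := mono_mem FF _ _ _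

theorem evT_gens (k : Fin 7) : evT FF (gens k) = XX k := evT_mono FF _ _ _

theorem evT_gX (i : Fin 6) : evT FF (gX i) = xx i := evT_gens _

theorem mono_add' {k : ℕ} {a b : LL} (ha : a ∈ FF k) (hb : b ∈ FF k) (hab : a + b ∈ FF k) :
    mono FF k (a + b) hab = mono FF k a ha + mono FF k b hb := by
  ext1
  exact (Polynomial.monomial k).map_add a b

theorem mono_congr {k k' : ℕ} {a b : LL} (hk : k = k') (hab : a = b) (ha : a ∈ FF k)
    (hb : b ∈ FF k') : mono FF k a ha = mono FF k' b hb := by
  subst hk hab; rfl

theorem mono_mem_adjoin : ∀ (k : ℕ) (c : LL) (hc : c ∈ FF k),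
    mono FF k c hc ∈ Algebra.adjoin (rgr FF 0) (Set.range gens) := by
  intro k
  induction k with
  | zero =>
    intro c hc
    exact Subalgebra.algebraMap_mem (Algebra.adjoin (rgr FF 0) (Set.range gens))
      (⟨mono FF 0 c hc, mono_mem FF _ _ _⟩ : rgr FF 0)
  | succ k ih =>
    intro c hc
    have key : ∃ h : c ∈ FF (k + 1), mono FF (k + 1) c h ∈
        Algebra.adjoin (rgr FF 0) (Set.range gens) := by
      refine SP_induction (motive := fun c => ∃ h : c ∈ FF (k + 1), mono FF (k + 1) c h ∈
        Algebra.adjoin (rgr FF 0) (Set.range gens)) ?_ ?_ ?_ ?_ hc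
      · refine ⟨Submodule.zero_mem _, ?_⟩
        have : mono FF (k + 1) 0 (Submodule.zero_mem _) = 0 := by
          ext1
          exact (Polynomial.monomial (k + 1)).map_zero
        rw [this]
        exact Subalgebra.zero_mem _
      · rintro a b ⟨ha, ha'⟩ ⟨hb, hb'⟩
        refine ⟨Submodule.add_mem _ ha hb, ?_⟩
        rw [mono_add' ha hb]
        exact Subalgebra.add_mem _ ha' hb'
      · intro c e he
        have he0 : ∀ l, 0 ≤ e l := fun l => by
          by_contra hcon
          exact absurd (he.1 l (by omega)) (Finset.notMem_empty l)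
        obtain ⟨l, hl⟩ : ∃ l, 1 ≤ e l := by
          by_contra hcon
          push Not at hcon
          have h0 : dg e = 0 := Finset.sum_eq_zero (fun l _ => by
            have := hcon l; have := he0 l; omega)
          have := he.2.1
          rw [h0] at this
          push_cast at this
          omega
        have h1 : c • mR (e - dl l) ∈ FF k := by
          refine Submodule.smul_mem _ _ (mR_mem ⟨fun m hm => ?_, ?_⟩)
          · exfalso
            have := he0 m
            simp only [Pi.sub_apply, dl, Pi.single_apply] at hm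
            split_ifs at hm with h
            · rw [h] at hm; omega
            · omega
          · have h2 := he.2
            rw [dg_sub, dg_dl]
            refine ⟨?_, ?_⟩
            · have := h2.1; push_cast at this; omega
            · have := h2.2; push_cast at this
              convert this using 1
              ring
        have h2 : c • mR (e - dl l) * XX l.succ = c • mR e := by
          rw [smul_mul_assoc]
          change c • (mR (e - dl l) * mR (dl l)) = c • mR e
          rw [mR_mul_mR, sub_add_cancel]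
        have h3 : c • mR e ∈ FF (k + 1) := Submodule.smul_mem _ _ (mR_mem he)
        refine ⟨h3, ?_⟩
        have h4 : mono FF (k + 1) (c • mR e) h3 = mono FF k _ h1 * gens l.succ := by
          rw [gens, mono_mul_mono]
          exact mono_congr rfl h2.symm _ _
        rw [h4]
        exact Subalgebra.mul_mem _ (ih _ h1) (Algebra.subset_adjoin ⟨_, rfl⟩)
      · intro c e he
        have h1 : c • mR e ∈ FF k := by
          refine Submodule.smul_mem _ _ (mR_mem ⟨he.1, ?_⟩)
          have h2 := he.2
          rw [add_zero]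
          refine ⟨?_, ?_⟩
          · have := h2.1; push_cast at this; omega
          · have := h2.2; push_cast at this
            convert this using 1
            ring
        have h2 : c • mR e * XX 0 = c • mZ e := by
          rw [smul_mul_assoc]
          change c • (mR e * mZ 0) = c • mZ e
          rw [mR_mul_mZ, add_zero]
        have h3 : c • mZ e ∈ FF (k + 1) := Submodule.smul_mem _ _ (mZ_mem he)
        refine ⟨h3, ?_⟩
        have h4 : mono FF (k + 1) (c • mZ e) h3 = mono FF k _ h1 * gens 0 := by
          rw [gens, mono_mul_mono]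
          exact mono_congr rfl h2.symm _ _
        rw [h4]
        exact Subalgebra.mul_mem _ (ih _ h1) (Algebra.subset_adjoin ⟨_, rfl⟩)
    exact key.2

theorem adjoin_gens : Algebra.adjoin (rgr FF 0) (Set.range gens) = ⊤ := by
  rw [eq_top_iff]
  rintro f -
  have h : f = ∑ k ∈ f.1.support, mono FF k (f.1.coeff k) (f.2 k) := by
    ext1
    rw [AddSubmonoidClass.coe_finsetSum]
    exact Polynomial.as_sum_support f.1
  rw [h]
  exact Subalgebra.sum_mem _ (fun k _ => mono_mem_adjoin k _ _)

instance finiteType_rees : Algebra.FiniteType (rgr FF 0) (rees FF) := by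
  refine ⟨⟨(Set.finite_range gens).toFinset, ?_⟩⟩
  rw [Set.Finite.coe_toFinset]
  exact adjoin_gens

/-- the scheme `X'` -/
noncomputable abbrev XP : Scheme.{0} := Proj (rgr FF)

/-- the covering of `X'` -/
noncomputable def UU (i : Fin 6) : XP.Opens := Proj.basicOpen (rgr FF) (gX i)

theorem gens_sq : gens 0 * gens 0 = gX 0 * gX 1 + gX 2 * gX 3 + gX 4 * gX 5 := by
  have h1 : ∀ a b : Fin 7, gens a * gens b = mono FF 2 (XX a * XX b)
      (SetLike.GradedMul.mul_mem (XX_mem_FF a) (XX_mem_FF b)) := fun a b => mono_mul_mono FF _ _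
  have hm : ∀ a b : Fin 7, XX a * XX b ∈ FF 2 :=
    fun a b => SetLike.GradedMul.mul_mem (XX_mem_FF a) (XX_mem_FF b)
  simp only [gX]
  rw [h1, h1, h1, h1, ← mono_add' (hm _ _) (hm _ _) (Submodule.add_mem _ (hm _ _) (hm _ _)),
    ← mono_add' (Submodule.add_mem _ (hm _ _) (hm _ _)) (hm _ _)
      (Submodule.add_mem _ (Submodule.add_mem _ (hm _ _) (hm _ _)) (hm _ _))]
  exact mono_congr rfl zz_sq _ _

theorem cover_UU : ⨆ i, UU i = ⊤ := by
  have h1 := Proj.iSup_basicOpen_eq_top' (rgr FF) gens (fun k => ⟨1, gens_mem k⟩) adjoin_gens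
  rw [eq_top_iff, ← h1]
  refine iSup_le (fun k => ?_)
  refine Fin.cases ?_ (fun i => ?_) k
  · intro x hx
    rw [TopologicalSpace.Opens.mem_iSup]
    by_contra hcon
    push Not at hcon
    have h2 : ∀ i, gX i ∈ x.asHomogeneousIdeal := by
      intro i
      have h3 := hcon i
      rw [UU, Proj.mem_basicOpen, not_not] at h3
      exact h3
    rw [Proj.mem_basicOpen] at hx
    apply hx
    have h4 : gens 0 * gens 0 ∈ x.asHomogeneousIdeal.toIdeal := by
      rw [gens_sq]
      exact Ideal.add_mem _ (Ideal.add_mem _ (Ideal.mul_mem_right _ _ (h2 0))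
        (Ideal.mul_mem_right _ _ (h2 2))) (Ideal.mul_mem_right _ _ (h2 4))
    exact (x.isPrime.mem_or_mem h4).elim id id
  · exact le_iSup UU i

end Pool.Agent.Hhelper18.DB
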