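import Mathlib
import Pool.Agent.Hhelper18.DB.Geometry

/-! The resolution square of the cone. -/

namespace Pool.Agent.Hhelper18.DB

set_option maxHeartbeats 400000

open AlgebraicGeometry CategoryTheory HomogeneousLocalization Pool.Agent.Hhelper18.DuBois

/-- `∏_{i ∈ S} x_i T` -/
noncomputable def fS (S : Finset (Fin 6)) : rees FF := ∏ i ∈ S, gX i

theorem fS_mem (S : Finset (Fin 6)) : fS S ∈ rgr FF S.card := by
  classical
  induction S using Finset.induction_on with
  | empty => exact SetLike.GradedOne.one_mem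
  | insert a S ha ih =>
    rw [fS, Finset.prod_insert ha, Finset.card_insert_of_notMem ha, add_comm]
    exact SetLike.GradedMul.mul_mem (gens_mem a.succ) ih

/-- sum of the exponents in `S` -/
def eS (S : Finset (Fin 6)) : E6 := ∑ i ∈ S, dl i

theorem evT_fS (S : Finset (Fin 6)) : evT FF (fS S) = mR (eS S) := by
  rw [fS, map_prod, eS, ← prod_mR]
  exact Finset.prod_congr rfl (fun i _ => evT_gX i)

theorem eS_apply (S : Finset (Fin 6)) (l : Fin 6) : eS S l = if l ∈ S then 1 else 0 := by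
  rw [eS, Finset.sum_apply]
  simp only [dl, Pi.single_apply]
  simp

theorem dg_eS (S : Finset (Fin 6)) : dg (eS S) = S.card := by
  rw [dg]
  simp only [eS_apply]
  simp

theorem unit_fS (S : Finset (Fin 6)) : IsUnit (evT FF (fS S)) := by
  rw [evT_fS]
  exact IsUnit.of_mul_eq_one _ (mR_neg_mul _)

theorem fS_mul_compl (S : Finset (Fin 6)) : fS Finset.univ = fS S * fS Sᶜ := by
  rw [fS, fS, fS, Finset.prod_mul_prod_compl]

/-- the smallest open set of the covering -/
noncomputable abbrev Vall : XP.Opens := Proj.basicOpen (rgr FF) (fS Finset.univ)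

theorem Vall_le (S : Finset (Fin 6)) : Vall ≤ Proj.basicOpen (rgr FF) (fS S) :=
  Proj.basicOpen_mono _ _ _ ⟨_, fS_mul_compl S⟩

/-- the embedding of sections into `LL` -/
noncomputable def jX (V : XP.Opens) (hV : Vall ≤ V) : Sec (prj FF) V →ₐ[ℂ] LL :=
  jC FF (fS_mem Finset.univ) (by simp) (unit_fS Finset.univ) V hV

theorem jX_algebraMap (V : XP.Opens) (hV : Vall ≤ V) (a : rgr FF 0) :
    jX V hV (algebraMap (rgr FF 0) (Sec (prj FF) V) a) = evT FF a.1 :=
  jR_algebraMap FF _ _ _ V hV a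

theorem jX_res {V W : XP.Opens} (hW : Vall ≤ W) (h : W ≤ V) (s : Sec (prj FF) V) :
    jX W hW (Sec.res (prj FF) h s) = jX V (hW.trans h) s :=
  jR_res FF _ _ _ hW h s

theorem mem_B_iff {S : Finset (Fin 6)} (hS : S.Nonempty) (y : LL) :
    (∃ n : ℕ, y * (evT FF (fS S)) ^ n ∈ FF (n • S.card)) ↔ y ∈ B S D0 := by
  have hpow : ∀ n : ℕ, (evT FF (fS S)) ^ n = mR ((n : ℤ) • eS S) := by
    intro n
    rw [evT_fS, mR_pow]
  constructor
  · rintro ⟨n, hn⟩
    rw [hpow] at hn
    have h1 : y = (y * mR ((n : ℤ) • eS S)) * mR (-((n : ℤ) • eS S)) := by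
      rw [mul_assoc, mR_neg_mul, mul_one]
    rw [h1]
    refine B_mul (D₁ := Dk (n • S.card)) (D₂ := {-((n : ℤ) * S.card)}) ?_
      (B_mono (Finset.empty_subset _) subset_rfl hn) (mR_mem ⟨fun l hl => ?_, ?_⟩)
    · intro a ha b hb
      rw [Set.mem_singleton_iff.1 hb]
      have h2 := ha.1
      have h3 := ha.2
      rw [smul_eq_mul] at h2 h3
      push_cast at h2 h3
      exact ⟨by omega, h3⟩
    · by_contra hlS
      simp only [Pi.neg_apply, Pi.smul_apply, smul_eq_mul, eS_apply, if_neg hlS] at hl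
      simp at hl
    · rw [dg_neg, dg_smul, dg_eS, add_zero]
      rfl
  · intro hy
    obtain ⟨N, hN⟩ := clear (S' := ∅) (eS S) (fun l _ => by rw [eS_apply]; split_ifs <;> norm_num)
      (fun l hl _ => by rw [eS_apply, if_pos hl]; norm_num) hy
    refine ⟨N, ?_⟩
    rw [hpow]
    refine B_mono subset_rfl ?_ (hN N le_rfl)
    rintro d ⟨d0, hd0, rfl⟩
    rw [dg_eS]
    refine ⟨?_, ?_⟩
    · have := hd0.1
      rw [smul_eq_mul]
      push_cast
      omega
    · have := hd0.2
      rw [smul_eq_mul]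
      push_cast
      rw [add_sub_cancel_right]
      exact this

/-- models of the section rings -/
theorem model_X {S : Finset (Fin 6)} (hS : S.Nonempty) (V : XP.Opens)
    (hVS : V = Proj.basicOpen (rgr FF) (fS S)) (hV : Vall ≤ V) : Model (Sec (prj FF) V) S (jX V hV) := by
  obtain ⟨h1, h2⟩ := jR_basicOpen FF (fS_mem Finset.univ) (by simp) (unit_fS Finset.univ)
    (fS_mem S) (Finset.card_pos.2 hS) (fS_mem Sᶜ) (fS_mul_compl S) (unit_fS S) V hVS hV
  refine ⟨h1, fun r => ?_, fun f hf => ?_⟩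
  · exact (mem_B_iff hS _).1 ((h2 _).1 ⟨r, rfl⟩)
  · exact (h2 f).2 ((mem_B_iff hS f).2 hf)

/-- the coordinate ring of the cone, inside `LL` -/
noncomputable def j0 : rgr FF 0 →ₐ[ℂ] LL where
  toFun a := evT FF a.1
  map_one' := map_one (evT FF)
  map_mul' a b := map_mul (evT FF) a.1 b.1
  map_zero' := map_zero (evT FF)
  map_add' a b := map_add (evT FF) a.1 b.1
  commutes' c := (evT FF).commutes c

theorem j0_apply (a : rgr FF 0) : j0 a = evT FF a.1 := rfl

theorem model_0 : Model (rgr FF 0) ∅ j0 := by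
  refine ⟨?_, fun r => ?_, fun f hf => ?_⟩
  · rw [injective_iff_map_eq_zero]
    intro a ha
    exact Subtype.ext (evT_eq_zero FF a.2 ha)
  · have := evT_mem FF r.2
    rwa [FF_zero] at this
  · rw [← FF_zero] at hf
    exact ⟨⟨mono FF 0 f hf, mono_mem FF _ _ hf⟩, evT_mono FF _ _ hf⟩

/-- the ideal of the vertex -/
noncomputable def J0 : Ideal (rgr FF 0) where
  carrier := {a | j0 a ∈ B ∅ D1}
  zero_mem' := by
    change j0 0 ∈ B ∅ D1
    rw [map_zero]; exact Submodule.zero_mem _
  add_mem' := by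
    intro a b ha hb
    change j0 (a + b) ∈ B ∅ D1
    rw [map_add]; exact Submodule.add_mem _ ha hb
  smul_mem' := by
    intro a b hb
    change j0 (a * b) ∈ B ∅ D1
    rw [map_mul, mul_comm]
    exact B_mul (fun _ h _ h' => D1_add h h') hb (model_0.mem a)

theorem mem_J0 (a : rgr FF 0) : a ∈ J0 ↔ j0 a ∈ B ∅ D1 := Iff.rfl

theorem cube_mem_D1 (S : Finset (Fin 6)) (i : Fin 6) : xx i ^ 3 ∈ B S D1 := by
  refine B_mono subset_rfl ?_ (cube_mem S i)
  intro d hd
  rw [Set.mem_singleton_iff.1 hd]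
  exact ⟨by norm_num, dvd_rfl⟩

/-- `x_i³` in the coordinate ring -/
noncomputable def cb (i : Fin 6) : rgr FF 0 :=
  (model_0.surj _ (B_mono subset_rfl D1_le (cube_mem_D1 ∅ i))).choose

theorem j0_cb (i : Fin 6) : j0 (cb i) = xx i ^ 3 :=
  (model_0.surj _ (B_mono subset_rfl D1_le (cube_mem_D1 ∅ i))).choose_spec

theorem ideal_X {S : Finset (Fin 6)} (hS : S.Nonempty) (V : XP.Opens)
    (hVS : V = Proj.basicOpen (rgr FF) (fS S)) (hV : Vall ≤ V) (r : Sec (prj FF) V) :
    r ∈ J0.map (algebraMap (rgr FF 0) (Sec (prj FF) V)) ↔ jX V hV r ∈ B S D1 := by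
  have hm := model_X hS V hVS hV
  constructor
  · intro hr
    let I' : Ideal (Sec (prj FF) V) :=
      { carrier := {r | jX V hV r ∈ B S D1}
        zero_mem' := by
          change jX V hV 0 ∈ B S D1
          rw [map_zero]; exact Submodule.zero_mem _
        add_mem' := by
          intro a b ha hb
          change jX V hV (a + b) ∈ B S D1
          rw [map_add]; exact Submodule.add_mem _ ha hb
        smul_mem' := by
          intro a b hb
          change jX V hV (a * b) ∈ B S D1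
          rw [map_mul, mul_comm]
          exact B_mul (fun _ h _ h' => D1_add h h') hb (hm.mem a) }
    have h1 : J0.map (algebraMap (rgr FF 0) (Sec (prj FF) V)) ≤ I' := by
      rw [Ideal.map_le_iff_le_comap]
      intro a ha
      change jX V hV (algebraMap (rgr FF 0) (Sec (prj FF) V) a) ∈ B S D1
      rw [jX_algebraMap]
      exact B_mono (Finset.empty_subset _) subset_rfl ha
    exact h1 hr
  · intro hr
    obtain ⟨i, hi⟩ := hS
    have h1 : xi i ^ 3 * jX V hV r ∈ B S D0 := by
      have hinv3 : xi i ^ 3 ∈ B S {-3} := by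
        have : xi i ^ 3 = xi i * (xi i * xi i) := by ring
        rw [this]
        refine B_mul (D₁ := {-1}) (D₂ := {-2}) ?_ (xi_mem hi)
          (B_mul (D₁ := {-1}) (D₂ := {-1}) ?_ (xi_mem hi) (xi_mem hi))
        · intro a ha b hb
          rw [Set.mem_singleton_iff.1 ha, Set.mem_singleton_iff.1 hb]
          norm_num
        · intro a ha b hb
          rw [Set.mem_singleton_iff.1 ha, Set.mem_singleton_iff.1 hb]
          norm_num
      refine B_mul ?_ hinv3 hr
      rintro b hb a ⟨ha, ha'⟩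
      rw [Set.mem_singleton_iff.1 hb]
      refine ⟨?_, ?_⟩
      · have := Int.le_of_dvd ha ha'
        omega
      · exact dvd_add (by norm_num) ha'
    obtain ⟨r', hr'⟩ := hm.surj _ h1
    have h2 : r = algebraMap (rgr FF 0) (Sec (prj FF) V) (cb i) * r' := by
      apply hm.inj
      rw [map_mul, jX_algebraMap, ← j0_apply, j0_cb, hr', ← mul_assoc, ← mul_pow, xx_mul_xi,
        one_pow, one_mul]
    rw [h2]
    refine Ideal.mul_mem_right _ _ (Ideal.mem_map_of_mem _ ?_)
    rw [mem_J0, j0_cb]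
    exact cube_mem_D1 _ _

/-! ### Isomorphism outside the vertex -/

theorem cube_eq (a b : LL) : a ^ 3 * b = a * (a ^ 2 * b) := by ring

theorem preimage_le (i : Fin 6) : (prj FF) ⁻¹ᵁ (PrimeSpectrum.basicOpen (cb i)) ≤ UU i := by
  intro x hx
  obtain ⟨l, hl⟩ : ∃ l, x ∈ UU l := by
    have : x ∈ ⨆ l, UU l := by rw [cover_UU]; trivial
    exact TopologicalSpace.Opens.mem_iSup.1 this
  have hgl : gX l ∈ rgr FF 1 := gens_mem _
  have hgi : gX i ∈ rgr FF 1 := gens_mem _
  obtain ⟨y, rfl⟩ : ∃ y, Proj.awayι (rgr FF) (gX l) hgl one_pos y = x := by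
    have h1 : x ∈ (Proj.awayι (rgr FF) (gX l) hgl one_pos).opensRange := by
      rw [Proj.opensRange_awayι]; exact hl
    exact h1
  have h2 : y ∈ (Proj.awayι (rgr FF) (gX l) hgl one_pos) ⁻¹ᵁ
      (Proj.basicOpen (rgr FF) (gX i)) := by
    rw [Proj.awayι_preimage_basicOpen (rgr FF) hgl one_pos hgi one_pos]
    have h3 : y ∈ (Proj.awayι (rgr FF) (gX l) hgl one_pos ≫ prj FF) ⁻¹ᵁ
      (PrimeSpectrum.basicOpen (cb i)) := hx
    rw [Proj.awayι_toSpecZero] at h3
    have h4 : y ∈ PrimeSpectrum.basicOpen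
      (fromZeroRingHom (rgr FF) (Submonoid.powers (gX l)) (cb i)) := h3
    -- divisibility
    have hu : IsUnit (evT FF (gX l)) := by
      rw [evT_gX, xx]
      exact IsUnit.of_mul_eq_one _ (mR_neg_mul _)
    have h5 : ∃ t, jA FF hu t = xx i ^ 2 * xx l := by
      rw [jA_range FF hu hgl]
      refine ⟨0, ?_⟩
      rw [pow_zero, mul_one, zero_smul]
      refine B_mono subset_rfl ?_ (B_mul (D₁ := {2}) (D₂ := {1}) (D₃ := {3}) ?_ ?_ (xx_mem ∅ l))
      · intro d hd
        rw [Set.mem_singleton_iff.1 hd]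
        exact ⟨by norm_num, by norm_num⟩
      · intro a ha b hb
        rw [Set.mem_singleton_iff.1 ha, Set.mem_singleton_iff.1 hb]
        norm_num
      · rw [sq]
        refine B_mul (D₁ := {1}) (D₂ := {1}) ?_ (xx_mem ∅ i) (xx_mem ∅ i)
        intro a ha b hb
        rw [Set.mem_singleton_iff.1 ha, Set.mem_singleton_iff.1 hb]
        norm_num
    obtain ⟨t, ht⟩ := h5
    have h6 : fromZeroRingHom (rgr FF) (Submonoid.powers (gX l)) (cb i) =
        Away.isLocalizationElem hgl hgi * t := by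
      refine jA_factor FF hgl hgi hu (cb i) t ?_
      have e1 : evT FF (cb i).1 = xx i ^ 3 := j0_cb i
      rw [e1, evT_gX, evT_gX, ht]
      exact cube_eq _ _
    rw [h6] at h4
    exact PrimeSpectrum.basicOpen_mul_le_left _ _ h4
  exact h2

end Pool.Agent.Hhelper18.DB
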