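import Mathlib
import Pool.Agent.Hhelper18.DB.Square
import Pool.Agent.Hhelper18.DB.IsoCover

/-! The counterexample. -/

namespace Pool.Agent.Hhelper18.DB

set_option maxHeartbeats 400000

open AlgebraicGeometry CategoryTheory HomogeneousLocalization Pool.Agent.Hhelper18.DuBois

theorem UU_eq (i : Fin 6) : UU i = Proj.basicOpen (rgr FF) (fS {i}) := by
  rw [fS, Finset.prod_singleton]
  rfl

theorem Vall_le_UU (i : Fin 6) : Vall ≤ UU i := by
  rw [UU_eq]
  exact Vall_le _

theorem model_UU (i : Fin 6) : Model (Sec (prj FF) (UU i)) {i} (jX (UU i) (Vall_le_UU i)) :=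
  model_X (Finset.singleton_nonempty i) _ (UU_eq i) _

theorem ideal_UU (i : Fin 6) (r : Sec (prj FF) (UU i)) :
    r ∈ J0.map (algebraMap (rgr FF 0) (Sec (prj FF) (UU i))) ↔
      jX (UU i) (Vall_le_UU i) r ∈ B {i} D1 :=
  ideal_X (Finset.singleton_nonempty i) _ (UU_eq i) _ r

theorem affine_UU (i : Fin 6) : IsAffineOpen (UU i) :=
  Proj.isAffineOpen_basicOpen (rgr FF) (gX i) (gens_mem _) one_pos

theorem arrange (u v w : LL) (N : ℕ) : u ^ N * (w * v ^ N) = (v * u) ^ N * w := by
  rw [mul_pow]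
  ring

theorem isIso_mul (i : Fin 6) (a : rgr FF 0) :
    IsIso (prj FF ∣_ (PrimeSpectrum.basicOpen (cb i * a))) := by
  have hm := model_UU i
  have hj : ∀ a : rgr FF 0, jX (UU i) (Vall_le_UU i) (Sec.hom (prj FF) (UU i) a) = j0 a :=
    fun a => jX_algebraMap _ _ a
  refine isIso_over (prj FF) (cb i * a) (UU i) (affine_UU i) ?_ ?_ ?_
  · refine le_trans ?_ (preimage_le i)
    intro x hx
    have h1 : (prj FF) x ∈ PrimeSpectrum.basicOpen (cb i * a) := hx
    exact PrimeSpectrum.basicOpen_mul_le_left _ _ h1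
  · intro x y hxy
    apply model_0.inj
    rw [← hj, ← hj, hxy]
  · intro s
    obtain ⟨N, hN⟩ := clear (S' := ∅) ((3 : ℤ) • dl i) (fun l _ => by
        simp only [Pi.smul_apply, dl, Pi.single_apply, smul_eq_mul]; split_ifs <;> norm_num)
      (fun l hl _ => by
        rw [Finset.mem_singleton.1 hl]
        simp [dl]) (hm.mem s)
    have h1 := hN N le_rfl
    rw [← mR_pow, ← xx_cube] at h1
    have h2 : jX (UU i) (Vall_le_UU i) s * (xx i ^ 3) ^ N ∈ B ∅ D0 := by
      refine B_mono subset_rfl ?_ h1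
      rintro d ⟨d0, hd0, rfl⟩
      rw [dg_smul, dg_dl]
      refine ⟨?_, ?_⟩
      · have := hd0.1; omega
      · exact dvd_add hd0.2 ⟨N, by ring⟩
    obtain ⟨c, hc⟩ := model_0.surj _ h2
    refine ⟨N, a ^ N * c, ?_⟩
    apply hm.inj
    have e1 : jX (UU i) (Vall_le_UU i) (Sec.hom (prj FF) (UU i) (a ^ N * c)) =
        j0 a ^ N * (jX (UU i) (Vall_le_UU i) s * (xx i ^ 3) ^ N) := by
      rw [hj, map_mul, map_pow, hc]
    have e2 : jX (UU i) (Vall_le_UU i) ((Sec.hom (prj FF) (UU i) (cb i * a)) ^ N * s) =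
        (xx i ^ 3 * j0 a) ^ N * jX (UU i) (Vall_le_UU i) s := by
      rw [map_mul (jX (UU i) (Vall_le_UU i)), map_pow (jX (UU i) (Vall_le_UU i)), hj,
        map_mul j0, j0_cb]
    exact e1.trans ((arrange _ _ _ _).trans e2.symm)

theorem smul_mem_aux (P : Ideal (rgr FF 0)) (c : ℂ) {r : rgr FF 0} (hr : r ∈ P) : c • r ∈ P := by
  have h : c • r = algebraMap ℂ (rgr FF 0) c * r := by
    apply model_0.inj
    rw [map_smul, map_mul, AlgHom.commutes, ← Algebra.smul_def]
  rw [h]
  exact P.mul_mem_left _ hr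

theorem prime_aux {P : Ideal (rgr FF 0)} (hP : P.IsPrime) (h : ∀ i, cb i ∈ P) {r : rgr FF 0}
    (hr : r ∈ J0) : r ∈ P := by
  have hneg : ∀ {e : E6}, (∀ l, e l < 0 → l ∈ (∅ : Finset (Fin 6))) → ∀ l, 0 ≤ e l := by
    intro e he l
    by_contra hcon
    exact absurd (he l (by omega)) (Finset.notMem_empty l)
  -- monomials of positive degree
  have hmono : ∀ e : E6, (∀ l, 0 ≤ e l) → dg e ∈ D1 → ∀ r : rgr FF 0, j0 r = mR e → r ∈ P := by
    intro e he hd r hr
    obtain ⟨l, hl⟩ : ∃ l, 1 ≤ e l := by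
      by_contra hcon
      push Not at hcon
      have h0 : dg e = 0 := Finset.sum_eq_zero (fun l _ => by
        have := hcon l; have := he l; omega)
      have := hd.1
      omega
    have h1 : mR ((3 : ℤ) • e - (3 : ℤ) • dl l) ∈ B ∅ D0 := by
      refine mR_mem ⟨fun m hm => ?_, ?_⟩
      · exfalso
        have := he m
        simp only [Pi.sub_apply, Pi.smul_apply, smul_eq_mul, dl, Pi.single_apply] at hm
        split_ifs at hm with h
        · rw [h] at hm; omega
        · omega
      · rw [dg_sub, dg_smul, dg_smul, dg_dl, add_zero]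
        have h2 := Int.le_of_dvd hd.1 hd.2
        refine ⟨by omega, ?_⟩
        exact dvd_sub (Dvd.intro _ rfl) (Dvd.intro _ rfl)
    obtain ⟨c, hc⟩ := model_0.surj _ h1
    have h2 : r ^ 3 = cb l * c := by
      apply model_0.inj
      rw [map_pow, map_mul, hr, hc, j0_cb, xx_cube, mR_mul_mR, mR_pow]
      congr 1
      push_cast
      abel
    have h3 : r ^ 3 ∈ P := by rw [h2]; exact P.mul_mem_right _ (h l)
    exact hP.mem_of_pow_mem 3 h3
  have key : ∀ f ∈ B ∅ D1, ∃ r ∈ P, j0 r = f := by
    intro f hf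
    refine SP_induction (motive := fun f => ∃ r ∈ P, j0 r = f) ?_ ?_ ?_ ?_ hf
    · exact ⟨0, P.zero_mem, map_zero _⟩
    · rintro _ _ ⟨r, hr, rfl⟩ ⟨r', hr', rfl⟩
      exact ⟨r + r', P.add_mem hr hr', map_add _ _ _⟩
    · intro c e he
      have hd : dg e ∈ D1 := by have := he.2; rwa [add_zero] at this
      obtain ⟨r, hr⟩ := model_0.surj (mR e) (mR_mem ⟨he.1, by rw [add_zero]; exact D1_le hd⟩)
      refine ⟨c • r, ?_, by rw [map_smul, hr]⟩
      exact smul_mem_aux P c (hmono e (hneg he.1) hd r hr)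
    · intro c e he
      obtain ⟨r, hr⟩ := model_0.surj (mZ e) (mZ_mem ⟨he.1, D1_le he.2⟩)
      refine ⟨c • r, ?_, by rw [map_smul, hr]⟩
      refine smul_mem_aux P c ?_
      -- the square is a sum of monomials
      have hd : ∀ a : Fin 3, dg (e + e + qv a) ∈ D1 := by
        intro a
        rw [dg_add, dg_add, dg_qv]
        have h1 := he.2.1
        have h2 := he.2.2
        refine ⟨by omega, ?_⟩
        have : dg e + dg e + 2 = (dg e + 1) + (dg e + 1) := by ring
        rw [this]
        exact dvd_add h2 h2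
      have hn : ∀ a : Fin 3, ∀ l, 0 ≤ (e + e + qv a) l := by
        intro a l
        have h1 := hneg he.1 l
        have h2 := qv_nonneg a l
        simp only [Pi.add_apply]
        omega
      choose m hm using fun a : Fin 3 => model_0.surj (mR (e + e + qv a)) (mR_mem
        ⟨fun l hl => absurd (hn a l) (by omega), by rw [add_zero]; exact D1_le (hd a)⟩)
      have h3 : r * r = ∑ a, m a := by
        apply model_0.inj
        rw [map_mul, hr, mZ_mul_mZ, map_sum]
        exact Finset.sum_congr rfl (fun a _ => (hm a).symm)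
      have h4 : r * r ∈ P := by
        rw [h3]
        exact P.sum_mem (fun a _ => hmono _ (hn a) (hd a) _ (hm a))
      exact (hP.mem_or_mem h4).elim id id
  obtain ⟨r', hr', hrr⟩ := key _ hr
  rwa [model_0.inj hrr] at hr'

theorem isIso_J0 (a : rgr FF 0) (ha : a ∈ J0) :
    IsIso (prj FF ∣_ (PrimeSpectrum.basicOpen a)) := by
  refine isIso_of_cover (prj FF) _ (fun i : Fin 6 => PrimeSpectrum.basicOpen (cb i * a))
    (fun i => PrimeSpectrum.basicOpen_mul_le_right _ _) ?_ (fun i => isIso_mul i a)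
  intro x hx
  have hx' : a ∉ x.asIdeal := hx
  obtain ⟨i, hi⟩ : ∃ i, cb i ∉ x.asIdeal := by
    by_contra hcon
    push Not at hcon
    exact hx' (prime_aux x.isPrime hcon ha)
  refine TopologicalSpace.Opens.mem_iSup.2 ⟨i, ?_⟩
  change cb i * a ∉ x.asIdeal
  intro h3
  exact (x.isPrime.mem_or_mem h3).elim hi hx'

/-- the resolution square of the cone -/
noncomputable def sq : Hyper.Square (rgr FF 0) where
  J := J0
  X' := XP
  π := prj FF
  ι := Fin 6
  U := UU
  proper := inferInstance
  iso := isIso_J0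
  finite := inferInstance
  affine := affine_UU
  cover := cover_UU
  smoothX' := fun i => (model_UU i).smooth
  smoothZ := model_0.smooth_point mem_J0
  smoothE := fun i => (model_UU i).smooth_quotient (ideal_UU i)

theorem inter_eq {n : ℕ} (s : Fin (n + 1) → Fin 6) :
    (⨅ k, UU (s k)) = Proj.basicOpen (rgr FF) (fS (img s)) := by
  classical
  refine le_antisymm ?_ ?_
  · have key : ∀ T : Finset (Fin 6), T ⊆ img s → (⨅ k, UU (s k)) ≤
        Proj.basicOpen (rgr FF) (fS T) := by
      intro T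
      induction T using Finset.induction_on with
      | empty =>
        intro _
        rw [fS, Finset.prod_empty, Proj.basicOpen_one]
        exact le_top
      | insert a T ha ih =>
        intro hT
        rw [fS, Finset.prod_insert ha, Proj.basicOpen_mul]
        refine le_inf ?_ (ih ((Finset.subset_insert _ _).trans hT))
        have h1 := hT (Finset.mem_insert_self a T)
        simp only [img, Finset.mem_image, Finset.mem_univ, true_and] at h1
        obtain ⟨k, hk⟩ := h1
        rw [← hk]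
        exact iInf_le _ k
    exact key _ subset_rfl
  · refine le_iInf (fun k => ?_)
    refine Proj.basicOpen_mono _ _ _ ?_
    exact Finset.dvd_prod_of_mem gX (by simp [img])

theorem Vall_le_inter {n : ℕ} (s : Fin (n + 1) → Fin 6) : Vall ≤ ⨅ k, UU (s k) :=
  le_iInf (fun _ => Vall_le_UU _)

/-- the chart models -/
noncomputable def mods : Models sq (Equiv.refl (Fin 6)) where
  j := fun {n} (s : Fin (n + 1) → Fin 6) => jX _ (Vall_le_inter s)
  model := fun {n} (s : Fin (n + 1) → Fin 6) => model_X (img_nonempty s) _ (inter_eq s) _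
  ideal := fun {n} (s : Fin (n + 1) → Fin 6) r => ideal_X (img_nonempty s) _ (inter_eq s) _ r
  comp := by
    intro n s k
    refine AlgHom.ext (fun r => ?_)
    exact jX_res (Vall_le_inter (n := n + 1) s) _ r

theorem final : ∃ (A : Type) (_ : CommRing A) (_ : Algebra ℂ A) (Q : Hyper.Square A),
    IsDomain A ∧ IsIntegrallyClosed A ∧ Algebra.FiniteType ℂ A ∧ ringKrullDim A = 6 ∧
      Q.IsPreDuBois 3 ∧ ¬ Q.IsPreDuBois 6 := by
  refine ⟨rgr FF 0, inferInstance, inferInstance, sq, model_0.isDomain, model_0.normal,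
    model_0.finiteType, model_0.dim, ?_⟩
  exact conclusion mods (model_0.quotient_bijective mem_J0).2

end Pool.Agent.Hhelper18.DB
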